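import Mathlib

set_option autoImplicit false

namespace Pool.Agent.H11

open WeierstrassCurve WeierstrassCurve.Affine WeierstrassCurve.Affine.Point MvPolynomial

variable {F : Type*} [Field F]

/-- the three values of `addSubMap`, written out. -/
lemma addSubMap_eval (W : WeierstrassCurve F) (v : Fin 3 → F) :
    (fun i ↦ (W.addSubMap i).eval v) =
      ![v 0 ^ 2 - W.b₄ * v 0 * v 2 - W.b₆ * v 1 * v 2 - W.b₈ * v 2 ^ 2,
        2 * v 1 * v 0 + W.b₂ * v 0 * v 2 + W.b₄ * v 1 * v 2 + W.b₆ * v 2 ^ 2,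
        v 1 ^ 2 - 4 * v 0 * v 2] := by
  ext i
  fin_cases i <;> simp [WeierstrassCurve.addSubMap]

variable [DecidableEq F]

lemma addX_mul (W : WeierstrassCurve F) {x₁ y₁ x₂ y₂ : F}
    (hx : x₁ ≠ x₂) :
    W.toAffine.addX x₁ x₂ (W.toAffine.slope x₁ x₂ y₁ y₂) * (x₁ - x₂) ^ 2 =
      (y₁ - y₂) ^ 2 + W.a₁ * (y₁ - y₂) * (x₁ - x₂) - (W.a₂ + x₁ + x₂) * (x₁ - x₂) ^ 2 := by
  have hx' : x₁ - x₂ ≠ 0 := sub_ne_zero.mpr hx
  rw [slope_of_X_ne hx, addX]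
  field_simp
  ring

/-- sum of the `x`-coordinates of `P ± Q`. -/
lemma addX_add_addX (W : WeierstrassCurve F) {x₁ y₁ x₂ y₂ : F}
    (h₁ : W.toAffine.Equation x₁ y₁) (h₂ : W.toAffine.Equation x₂ y₂) (hx : x₁ ≠ x₂) :
    (x₁ - x₂) ^ 2 * (W.toAffine.addX x₁ x₂ (W.toAffine.slope x₁ x₂ y₁ y₂) +
        W.toAffine.addX x₁ x₂ (W.toAffine.slope x₁ x₂ y₁ (W.toAffine.negY x₂ y₂))) =
      2 * (x₁ + x₂) * (x₁ * x₂) + W.b₂ * (x₁ * x₂) + W.b₄ * (x₁ + x₂) + W.b₆ := by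
  have e1 := addX_mul W (y₁ := y₁) (y₂ := y₂) hx
  have e2 := addX_mul W (y₁ := y₁) (y₂ := W.toAffine.negY x₂ y₂) hx
  rw [mul_add, mul_comm, e1, mul_comm _ (W.toAffine.addX _ _ _), e2]
  rw [Affine.equation_iff] at h₁ h₂
  simp only [negY, b₂, b₄, b₆]
  linear_combination 2 * h₁ + 2 * h₂

/-- product of the `x`-coordinates of `P ± Q`. -/
lemma addX_mul_addX (W : WeierstrassCurve F) {x₁ y₁ x₂ y₂ : F}
    (h₁ : W.toAffine.Equation x₁ y₁) (h₂ : W.toAffine.Equation x₂ y₂) (hx : x₁ ≠ x₂) :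
    (x₁ - x₂) ^ 2 * (W.toAffine.addX x₁ x₂ (W.toAffine.slope x₁ x₂ y₁ y₂) *
        W.toAffine.addX x₁ x₂ (W.toAffine.slope x₁ x₂ y₁ (W.toAffine.negY x₂ y₂))) =
      (x₁ * x₂) ^ 2 - W.b₄ * (x₁ * x₂) - W.b₆ * (x₁ + x₂) - W.b₈ := by
  have hx' : x₁ - x₂ ≠ 0 := sub_ne_zero.mpr hx
  have e1 := addX_mul W (y₁ := y₁) (y₂ := y₂) hx
  have e2 := addX_mul W (y₁ := y₁) (y₂ := W.toAffine.negY x₂ y₂) hx
  apply mul_left_cancel₀ (pow_ne_zero 2 hx')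
  have : (x₁ - x₂) ^ 2 * ((x₁ - x₂) ^ 2 * (W.toAffine.addX x₁ x₂ (W.toAffine.slope x₁ x₂ y₁ y₂) *
        W.toAffine.addX x₁ x₂ (W.toAffine.slope x₁ x₂ y₁ (W.toAffine.negY x₂ y₂)))) =
      (W.toAffine.addX x₁ x₂ (W.toAffine.slope x₁ x₂ y₁ y₂) * (x₁ - x₂) ^ 2) *
      (W.toAffine.addX x₁ x₂ (W.toAffine.slope x₁ x₂ y₁ (W.toAffine.negY x₂ y₂)) *
        (x₁ - x₂) ^ 2) := by ring
  rw [this, e1, e2]
  rw [Affine.equation_iff] at h₁ h₂
  simp only [negY, b₄, b₆, b₈]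
  linear_combination ( W.a₁^2*x₁*x₂ - W.a₁^2*x₂^2 + W.a₁*W.a₃*x₁ - W.a₁*W.a₃*x₂ + W.a₁*x₁*y₁ - 2*W.a₁*x₂*y₂ - W.a₂*x₁^2 + 4*W.a₂*x₁*x₂ - 2*W.a₂*x₂^2 + W.a₃*y₁ - 2*W.a₃*y₂ + W.a₄*x₁ + W.a₆ - x₁^3 + 2*x₁^2*x₂ + 2*x₁*x₂^2 - 2*x₂^3 + y₁^2 - 2*y₂^2 ) * h₁ + ( -W.a₁^2*x₁^2 + W.a₁^2*x₁*x₂ - W.a₁*W.a₃*x₁ + W.a₁*W.a₃*x₂ + W.a₁*x₂*y₂ - 4*W.a₂*x₁^2 + 4*W.a₂*x₁*x₂ - W.a₂*x₂^2 + W.a₃*y₂ - 2*W.a₄*x₁ + W.a₄*x₂ - W.a₆ - 4*x₁^3 + 2*x₁^2*x₂ + 2*x₁*x₂^2 - x₂^3 + y₂^2 ) * h₂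

omit [DecidableEq F] in
lemma psi2_sq (W : WeierstrassCurve F) {x₁ y₁ : F} (h₁ : W.toAffine.Equation x₁ y₁) :
    (y₁ - W.toAffine.negY x₁ y₁) ^ 2 = 4 * x₁ ^ 3 + W.b₂ * x₁ ^ 2 + 2 * W.b₄ * x₁ + W.b₆ := by
  rw [Affine.equation_iff] at h₁
  simp only [negY, b₂, b₄, b₆]
  linear_combination 4 * h₁

/-- the `x`-coordinate of `2P`. -/
lemma addX_self (W : WeierstrassCurve F) {x₁ y₁ : F}
    (h₁ : W.toAffine.Equation x₁ y₁) (hy : y₁ ≠ W.toAffine.negY x₁ y₁) :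
    (y₁ - W.toAffine.negY x₁ y₁) ^ 2 * W.toAffine.addX x₁ x₁ (W.toAffine.slope x₁ x₁ y₁ y₁) =
      x₁ ^ 4 - W.b₄ * x₁ ^ 2 - 2 * W.b₆ * x₁ - W.b₈ := by
  have hy' : y₁ - W.toAffine.negY x₁ y₁ ≠ 0 := sub_ne_zero.mpr hy
  rw [slope_of_Y_ne rfl hy, addX]
  field_simp
  rw [Affine.equation_iff] at h₁
  simp only [negY, b₄, b₆, b₈]
  linear_combination ( -W.a₁^2 - 4*W.a₂ - 8*x₁ ) * h₁

/-- The map `addSubMap` computes the unordered pair `x(P+Q), x(P-Q)`. -/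
theorem addSubMap_sym2x (W : WeierstrassCurve F) [W.IsElliptic] (P Q : W.toAffine.Point) :
    ∃ c : F, c ≠ 0 ∧ (fun i ↦ (W.addSubMap i).eval (P.sym2x Q)) = c • (P + Q).sym2x (P - Q) := by
  have key (x y : F) (h : W.toAffine.Nonsingular x y) :
    ∃ c : F, c ≠ 0 ∧ (fun i ↦ (W.addSubMap i).eval
      ((Point.some x y h).sym2x (Point.some x y h))) =
        c • (Point.some x y h + Point.some x y h).sym2x 0 := by
    by_cases hy : y = W.toAffine.negY x y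
    · have hne := W.addSubMap_ne_zero ((Point.some x y h).sym2x_ne_zero (Point.some x y h))
      have h0 := psi2_sq W h.1
      rw [← hy, sub_self] at h0
      rw [addSubMap_eval] at hne ⊢
      rw [sym2x_some_some] at hne ⊢
      refine ⟨(x * x) ^ 2 - W.b₄ * (x * x) - W.b₆ * (x + x) - W.b₈, ?_, ?_⟩
      · contrapose! hne
        ext i
        fin_cases i
        · simpa using hne
        · simp; linear_combination - h0
        · simp; ring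
      · rw [add_of_Y_eq rfl hy, sym2x_zero_zero]
        ext i; fin_cases i
        · simp
        · simp; linear_combination - h0
        · simp; ring
    · have h2 := addX_self W h.1 hy
      have h0 := psi2_sq W h.1
      rw [addSubMap_eval, add_of_Y_ne hy, sym2x_some_some, sym2x_some_zero]
      refine ⟨(y - W.toAffine.negY x y) ^ 2, pow_ne_zero _ (sub_ne_zero.mpr hy), ?_⟩
      simp only [negY, addX] at h2 h0
      ext i; fin_cases i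
      · simp; linear_combination - h2
      · simp; linear_combination - h0
      · simp; ring
  match P, Q with
  | 0, 0 => rw [addSubMap_eval]; exact ⟨1, one_ne_zero, by simp⟩
  | 0, Point.some x y h =>
    refine ⟨1, one_ne_zero, ?_⟩
    rw [addSubMap_eval, zero_add, zero_sub, neg_some, sym2x_zero_some, sym2x_some_some]
    ext i; fin_cases i <;> simp <;> ring
  | Point.some x y h, 0 =>
    refine ⟨1, one_ne_zero, ?_⟩
    rw [addSubMap_eval, add_zero, sub_zero, sym2x_some_zero, sym2x_some_some]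
    ext i; fin_cases i <;> simp <;> ring
  | Point.some x₁ y₁ h₁, Point.some x₂ y₂ h₂ =>
    by_cases hx : x₁ = x₂
    · rcases (X_eq_iff (h₁ := h₁) (h₂ := h₂)).mp hx with h | h
      · rw [h, sub_self]; exact key _ _ _
      · rw [h, neg_add_cancel, sym2x_comm 0, sym2x_neg_left]
        obtain ⟨c, hc, hc'⟩ := key _ _ h₂
        refine ⟨c, hc, ?_⟩
        rw [hc']
        congr 1
        rw [show -Point.some x₂ y₂ h₂ - Point.some x₂ y₂ h₂ =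
          -(Point.some x₂ y₂ h₂ + Point.some x₂ y₂ h₂) by abel, sym2x_neg_left]
    · rw [sub_eq_add_neg, neg_some, add_of_X_ne hx, add_of_X_ne hx, addSubMap_eval,
        sym2x_some_some, sym2x_some_some]
      refine ⟨(x₁ - x₂) ^ 2, pow_ne_zero _ (sub_ne_zero.mpr hx), ?_⟩
      have e1 := addX_add_addX W h₁.1 h₂.1 hx
      have e2 := addX_mul_addX W h₁.1 h₂.1 hx
      ext i; fin_cases i
      · simp only [Fin.zero_eta, Fin.isValue, Matrix.cons_val_zero, Matrix.cons_val_one,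
          Matrix.cons_val, mul_one, one_pow, Pi.smul_apply, smul_eq_mul]
        rw [e2]
      · simp only [Fin.mk_one, Fin.isValue, Matrix.cons_val_zero, Matrix.cons_val_one,
          Matrix.cons_val, mul_one, one_pow, Pi.smul_apply, smul_eq_mul]
        rw [e1]
      · simp; ring

end Pool.Agent.H11
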