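import Mathlib
import Pool.Agent.H11.AddSub

set_option autoImplicit false

namespace Pool.Agent.H11

open WeierstrassCurve WeierstrassCurve.Affine WeierstrassCurve.Affine.Point MvPolynomial Height

variable {K : Type*} [Field K] [NumberField K] [DecidableEq K]

/-- the naive logarithmic height on `E(K)`. -/
noncomputable def ht (W : WeierstrassCurve K) (P : W.toAffine.Point) : ℝ := logHeight P.xRep

lemma ht_nonneg (W : WeierstrassCurve K) (P : W.toAffine.Point) : 0 ≤ ht W P :=
  logHeight_nonneg _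

lemma exists_sym2x_bound (W : WeierstrassCurve K) :
    ∃ C, ∀ P Q : W.toAffine.Point, |logHeight (P.sym2x Q) - (ht W P + ht W Q)| ≤ C := by
  obtain ⟨C, hC⟩ := abs_logHeight_sym2_sub_le K
  refine ⟨C, fun P Q ↦ ?_⟩
  have hP : ![P.xRep 0, P.xRep 1] = P.xRep := by ext i; fin_cases i <;> rfl
  have hQ : ![Q.xRep 0, Q.xRep 1] = Q.xRep := by ext i; fin_cases i <;> rfl
  have := hC (a := P.xRep 0) (b := P.xRep 1) (c := Q.xRep 0) (d := Q.xRep 1)
    (by rw [hP]; exact P.xRep_ne_zero) (by rw [hQ]; exact Q.xRep_ne_zero)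
  rw [hP, hQ] at this
  exact this

/-- The approximate parallelogram law. -/
theorem approx_parallelogram (W : WeierstrassCurve K) [W.IsElliptic] :
    ∃ C, ∀ P Q : W.toAffine.Point,
      |ht W (P + Q) + ht W (P - Q) - 2 * (ht W P + ht W Q)| ≤ C := by
  obtain ⟨C₁, h₁⟩ := exists_sym2x_bound W
  obtain ⟨C₂, h₂⟩ := W.abs_logHeight_addSubMap_sub_two_mul_logHeight_le
  refine ⟨3 * C₁ + C₂, fun P Q ↦ ?_⟩
  obtain ⟨c, hc, e⟩ := addSubMap_sym2x W P Q
  have h3 := h₂ (P.sym2x Q)
  rw [e, logHeight_smul_eq_logHeight _ hc] at h3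
  have h4 := h₁ P Q
  have h5 := h₁ (P + Q) (P - Q)
  rw [abs_le] at *
  constructor <;> linarith [h3.1, h3.2, h4.1, h4.2, h5.1, h5.2]

instance northcott_ht (W : WeierstrassCurve K) : Northcott (ht W) where
  finite_le b := by
    have hfin : {x : K | logHeight₁ x ≤ b}.Finite := Northcott.finite_le b
    have : {P : W.toAffine.Point | ht W P ≤ b} ⊆
        (fun P : W.toAffine.Point ↦ P.xRep) ⁻¹' (insert ![1, 0] ((fun x ↦ ![x, 1]) ''
          {x : K | logHeight₁ x ≤ b})) := by
      rintro (_ | ⟨x, y, h⟩) hP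
      · left; rfl
      · right
        refine ⟨x, ?_, rfl⟩
        simp only [Set.mem_setOf_eq] at hP ⊢
        rwa [logHeight₁_eq_logHeight]
    refine Set.Finite.subset (Set.Finite.preimage' ((hfin.image _).insert _) fun v _ ↦ ?_) this
    by_cases hv : ∃ P : W.toAffine.Point, P.xRep = v
    · obtain ⟨P, rfl⟩ := hv
      refine Set.Finite.subset (Set.toFinite {P, -P}) fun Q hQ ↦ ?_
      have := (xRep_eq_xRep_iff (P := Q) (Q := P)).mp hQ
      simpa using this
    · refine Set.Finite.subset Set.finite_empty fun Q hQ ↦ ?_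
      exact hv ⟨Q, hQ⟩

/-- Mordell-Weil, from the weak Mordell-Weil theorem for `2`. -/
theorem fg_of_two_finiteIndex (W : WeierstrassCurve K) [W.IsElliptic]
    (h : (nsmulAddMonoidHom (α := W.toAffine.Point) 2).range.FiniteIndex) :
    AddGroup.FG W.toAffine.Point := by
  obtain ⟨C, hC⟩ := approx_parallelogram W
  exact AddCommGroup.fg_of_descent' (h := ht W) (C := C) h (ht_nonneg W) hC

end Pool.Agent.H11
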