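import Mathlib

set_option autoImplicit false

open scoped Classical

namespace Pool.Agent.H11

open IsDedekindDomain NumberField

variable {K F : Type*} [Field K] [NumberField K] [Field F] [NumberField F] [Algebra K F]

/-- a valuation ring of `F` whose trace on `K` is the ring of `v` comes from a prime above `v`. -/
theorem exists_prime_of_valuationSubring (v : HeightOneSpectrum (𝓞 K)) (V : ValuationSubring F)
    (hV : ∀ x : K, algebraMap K F x ∈ V ↔ v.valuation K x ≤ 1) :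
    ∃ q : HeightOneSpectrum (𝓞 F), q.asIdeal.LiesOver v.asIdeal ∧
      ∀ x : F, x ∈ V ↔ q.valuation F x ≤ 1 := by
  have hint : ∀ x : 𝓞 F, algebraMap (𝓞 F) F x ∈ V := by
    intro x
    have h1 : IsIntegral ℤ (algebraMap (𝓞 F) F x) := x.2
    have h2 : IsIntegral V (algebraMap (𝓞 F) F x) := h1.tower_top
    obtain ⟨y, hy⟩ := (IsIntegrallyClosed.isIntegral_iff).mp h2
    rw [← hy]
    exact y.2
  let i : 𝓞 F →+* V :=
    { toFun := fun x ↦ ⟨algebraMap (𝓞 F) F x, hint x⟩
      map_one' := by ext; simp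
      map_mul' := fun x y ↦ by ext; simp
      map_zero' := by ext; simp
      map_add' := fun x y ↦ by ext; simp }
  have hi : ∀ x : 𝓞 F, x ∈ (IsLocalRing.maximalIdeal V).comap i ↔
      V.valuation (algebraMap (𝓞 F) F x) < 1 := by
    intro x
    rw [Ideal.mem_comap, V.valuation_lt_one_iff]
    rfl
  have hv1 : ∀ x : K, v.valuation K x < 1 → V.valuation (algebraMap K F x) < 1 := by
    intro x hx
    by_cases hx0 : x = 0
    · simp [hx0]
    · rw [← ValuationSubring.mem_nonunits_iff, ValuationSubring.mem_nonunits_iff_or]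
      right
      rw [← map_inv₀, hV, map_inv₀, not_le]
      exact (one_lt_inv₀ (zero_lt_iff.mpr ((Valuation.ne_zero_iff _).mpr hx0))).mpr hx
  have hv2 : ∀ x : K, V.valuation (algebraMap K F x) < 1 → v.valuation K x < 1 := by
    intro x hx
    by_contra hcon
    push Not at hcon
    have hx0 : x ≠ 0 := by
      rintro rfl
      simp at hcon
    have h1 : x⁻¹ ∈ {y | v.valuation K y ≤ 1} := by
      rw [Set.mem_ofPred_eq, map_inv₀]
      exact inv_le_one_of_one_le₀ hcon
    have h2 : algebraMap K F x⁻¹ ∈ V := (hV _).mpr h1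
    rw [← V.valuation_le_one_iff, map_inv₀, map_inv₀] at h2
    have h3 : V.valuation (algebraMap K F x) ≠ 0 :=
      (Valuation.ne_zero_iff _).mpr ((map_ne_zero _).mpr hx0)
    exact absurd h2 (not_le.mpr ((one_lt_inv₀ (zero_lt_iff.mpr h3)).mpr hx))
  have hbot : (IsLocalRing.maximalIdeal V).comap i ≠ ⊥ := by
    obtain ⟨π, hπ, hπ0⟩ := Submodule.exists_mem_ne_zero_of_ne_bot v.ne_bot
    have h1 : v.valuation K (algebraMap (𝓞 K) K π) < 1 := (v.valuation_lt_one_iff_mem π).mpr hπ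
    have h2 := hv1 _ h1
    intro hcon
    have h3 : algebraMap (𝓞 K) (𝓞 F) π ∈ (IsLocalRing.maximalIdeal V).comap i := by
      rw [hi, ← IsScalarTower.algebraMap_apply (𝓞 K) (𝓞 F) F,
        IsScalarTower.algebraMap_apply (𝓞 K) K F]
      exact h2
    rw [hcon, Ideal.mem_bot, FaithfulSMul.algebraMap_eq_zero_iff] at h3
    exact hπ0 h3
  let q : HeightOneSpectrum (𝓞 F) := ⟨(IsLocalRing.maximalIdeal V).comap i, inferInstance, hbot⟩
  have hq1 : ∀ x : 𝓞 F, x ∉ q.asIdeal → V.valuation (algebraMap (𝓞 F) F x) = 1 := by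
    intro x hx
    have h1 : ¬ V.valuation (algebraMap (𝓞 F) F x) < 1 := fun h ↦ hx ((hi x).mpr h)
    exact le_antisymm ((V.valuation_le_one_iff _).mpr (hint x)) (not_lt.mp h1)
  have hle : ∀ x : F, q.valuation F x ≤ 1 → x ∈ V := by
    intro x hx
    obtain ⟨n, d, hnd⟩ := q.exists_primeCompl_mul_eq_of_integer x hx
    have h1 := congrArg V.valuation hnd
    rw [map_mul, hq1 d d.2, mul_one] at h1
    rw [← V.valuation_le_one_iff, h1, V.valuation_le_one_iff]
    exact hint n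
  have hlt : ∀ x : F, q.valuation F x < 1 → V.valuation x < 1 := by
    intro x hx
    obtain ⟨n, d, hnd⟩ := q.exists_primeCompl_mul_eq_of_integer x hx.le
    have h1 := congrArg V.valuation hnd
    rw [map_mul, hq1 d d.2, mul_one] at h1
    rw [h1]
    apply (hi n).mp
    have h2 := congrArg (q.valuation F) hnd
    rw [map_mul, q.valuation_eq_one_iff_notMem.mpr d.2, mul_one] at h2
    exact (q.valuation_lt_one_iff_mem (K := F) n).mp (h2 ▸ hx)
  refine ⟨q, ⟨?_⟩, fun x ↦ ⟨fun hx ↦ ?_, hle x⟩⟩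
  · ext y
    rw [Ideal.mem_comap]
    show _ ↔ algebraMap (𝓞 K) (𝓞 F) y ∈ (IsLocalRing.maximalIdeal V).comap i
    rw [hi, ← IsScalarTower.algebraMap_apply (𝓞 K) (𝓞 F) F,
        IsScalarTower.algebraMap_apply (𝓞 K) K F, ← v.valuation_lt_one_iff_mem (K := K)]
    exact ⟨hv1 _, hv2 _⟩
  · by_contra hcon
    push Not at hcon
    have hx0 : x ≠ 0 := by
      rintro rfl
      simp at hcon
    have h1 := hlt x⁻¹ (by rw [map_inv₀]; exact inv_lt_one_of_one_lt₀ hcon)
    have h3 : V.valuation x ≠ 0 := (Valuation.ne_zero_iff _).mpr hx0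
    rw [map_inv₀, inv_lt_one₀ (zero_lt_iff.mpr h3)] at h1
    exact absurd ((V.valuation_le_one_iff x).mpr hx) (not_le.mpr h1)

/-- valuations and the Galois action. -/
theorem valuation_le_one_smul (q q' : HeightOneSpectrum (𝓞 F)) (s : Gal(F/K))
    (h : ∀ x : 𝓞 F, s • x ∈ q'.asIdeal → x ∈ q.asIdeal) (x : F) (hx : q.valuation F x ≤ 1) :
    q'.valuation F (s x) ≤ 1 := by
  obtain ⟨n, d, hnd⟩ := q.exists_primeCompl_mul_eq_of_integer x hx
  have h1 := congrArg s hnd
  rw [map_mul] at h1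
  have hd : s • (d : 𝓞 F) ∉ q'.asIdeal := fun hd ↦ d.2 (h _ hd)
  have h2 : ∀ y : 𝓞 F, s (algebraMap (𝓞 F) F y) = algebraMap (𝓞 F) F (s • y) := fun y ↦ rfl
  rw [h2, h2] at h1
  have h3 := congrArg (q'.valuation F) h1
  rw [map_mul, q'.valuation_eq_one_iff_notMem.mpr hd, mul_one] at h3
  rw [h3]
  exact q'.valuation_le_one _

theorem exists_gal_valuation [IsGalois K F] (v : HeightOneSpectrum (𝓞 K))
    (q q' : HeightOneSpectrum (𝓞 F)) [q.asIdeal.LiesOver v.asIdeal]
    [q'.asIdeal.LiesOver v.asIdeal] :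
    ∃ s : Gal(F/K), ∀ x : F, q.valuation F x ≤ 1 ↔ q'.valuation F (s x) ≤ 1 := by
  have := q.isPrime
  have := q'.isPrime
  have := v.isPrime
  obtain ⟨s, hs⟩ := Ideal.exists_smul_eq_of_isGaloisGroup v.asIdeal q.asIdeal q'.asIdeal Gal(F/K)
  refine ⟨s, fun x ↦ ⟨valuation_le_one_smul q q' s ?_ x, fun hx ↦ ?_⟩⟩
  · intro y hy
    rw [← hs] at hy
    exact (Ideal.smul_mem_pointwise_smul_iff).mp hy
  · have h1 := valuation_le_one_smul q' q s⁻¹ (fun y hy ↦ by
      rw [← hs, Ideal.mem_pointwise_smul_iff_inv_smul_mem]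
      exact hy) (s x) hx
    have : s⁻¹ (s x) = x := s.symm_apply_apply x
    rwa [this] at h1

end Pool.Agent.H11
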