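import Mathlib
import Pool.Agent.H11.Global

set_option autoImplicit false

open scoped Classical

namespace Pool.Agent.H11

open IsDedekindDomain NumberField

variable {K : Type*} [Field K] [NumberField K]

theorem prime_power (v : HeightOneSpectrum (𝓞 K))
    (K' M : IntermediateField K (AlgebraicClosure K)) [NumberField K'] [IsGalois K K']
    (hle : K' ≤ M) (V : ValuationSubring M)
    (hV : ∀ x : K, algebraMap K M x ∈ V ↔ v.valuation K x ≤ 1) (n : ℕ)
    (a : K') (ha : a ≠ 0) (α : AlgebraicClosure K) (hα : α ^ n = a)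
    (hs : ∀ s : AlgebraicClosure K ≃ₐ[K] AlgebraicClosure K, ∃ m : M, (m : AlgebraicClosure K) = s α ∧
      ∃ c : K, c ≠ 0 ∧ m / algebraMap K M c ∈ V ∧ (m / algebraMap K M c)⁻¹ ∈ V)
    (q : HeightOneSpectrum (𝓞 K')) [q.asIdeal.LiesOver v.asIdeal] :
    ∃ c : K', c ≠ 0 ∧ q.valuation K' a = (q.valuation K' c) ^ n := by
  obtain ⟨q₀, hq₀, hq₀V⟩ := exists_prime_of_valuationSubring (F := K') v
    (V.comap (IntermediateField.inclusion hle : K' →+* M)) (fun x ↦ by
      rw [ValuationSubring.mem_comap, ← hV]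
      exact Iff.rfl)
  obtain ⟨s, hsv⟩ := exists_gal_valuation (K := K) v q q₀
  let s' : AlgebraicClosure K ≃ₐ[K] AlgebraicClosure K := s.liftNormal (AlgebraicClosure K)
  have hs' : ∀ x : K', s' x = s x := AlgEquiv.liftNormal_commutes s (AlgebraicClosure K)
  obtain ⟨m, hm, c, hc0, h1, h2⟩ := hs s'
  have hc0' : algebraMap K K' c ≠ 0 := (map_ne_zero _).mpr hc0
  refine ⟨algebraMap K K' c, hc0', ?_⟩
  obtain ⟨y, hy⟩ : ∃ y, y = a / (algebraMap K K' c) ^ n := ⟨_, rfl⟩
  have hsy : IntermediateField.inclusion hle (s y) = (m / algebraMap K M c) ^ n := by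
    apply Subtype.ext
    show ((s y : K') : AlgebraicClosure K) = (((m / algebraMap K M c) ^ n : M) : AlgebraicClosure K)
    rw [← hs', hy]
    push_cast
    rw [map_div₀, map_pow, ← hα, map_pow, hm, div_pow]
    congr 2
    exact s'.commutes c
  have h3 : q₀.valuation K' (s y) ≤ 1 := by
    rw [← hq₀V, ValuationSubring.mem_comap]
    show IntermediateField.inclusion hle (s y) ∈ V
    rw [hsy]
    exact pow_mem h1 n
  have h4 : q₀.valuation K' (s y⁻¹) ≤ 1 := by
    rw [← hq₀V, ValuationSubring.mem_comap]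
    show IntermediateField.inclusion hle (s y⁻¹) ∈ V
    rw [map_inv₀, map_inv₀, hsy, ← inv_pow]
    exact pow_mem h2 n
  rw [← hsv] at h3 h4
  have hy0 : y ≠ 0 := by rw [hy]; exact div_ne_zero ha (pow_ne_zero _ hc0')
  rw [map_inv₀] at h4
  have h5 : q.valuation K' y ≠ 0 := (Valuation.ne_zero_iff _).mpr hy0
  have h6 : q.valuation K' y = 1 := le_antisymm h3 ((inv_le_one₀ (zero_lt_iff.mpr h5)).mp h4)
  rw [hy, map_div₀, map_pow] at h6
  have h7 : q.valuation K' (algebraMap K K' c) ^ n ≠ 0 :=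
    pow_ne_zero _ ((Valuation.ne_zero_iff _).mpr hc0')
  exact (div_eq_one_iff_eq h7).mp h6

end Pool.Agent.H11
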