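import Mathlib

set_option autoImplicit false

namespace Pool.Agent.H11

open IsDedekindDomain NumberField

variable {K : Type*} [Field K] [NumberField K] (v : HeightOneSpectrum (𝓞 K))

lemma valued_alg (k : K) : Valued.v (algebraMap K (v.adicCompletion K) k) = v.valuation K k :=
  v.valuedAdicCompletion_eq_valuation' k

lemma exists_approx (x : v.adicCompletion K) (γ : WithZero (Multiplicative ℤ)) (hγ : γ ≠ 0) :
    ∃ k : K, Valued.v (x - algebraMap K (v.adicCompletion K) k) < γ := by
  have hd := HeightOneSpectrum.denseRange_algebraMap K v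
  obtain ⟨c, rfl⟩ := HeightOneSpectrum.valuedAdicCompletion_surjective K v γ
  have hc : (Valued.v : Valuation (v.adicCompletion K) _).restrict c ≠ 0 := by
    rw [Valuation.ne_zero_iff]
    exact (Valuation.ne_zero_iff _).mp hγ
  obtain ⟨k, hk⟩ := hd.mem_nhds (x := x) (s := {z | Valued.v (x - z) < Valued.v c}) (by
    rw [Valued.mem_nhds]
    refine ⟨Units.mk0 _ hc, fun z hz ↦ ?_⟩
    simp only [Units.val_mk0, Set.mem_ofPred_eq] at hz ⊢
    rw [Valuation.map_sub_swap]
    exact (Valuation.restrict_lt_iff _).mp hz)
  exact ⟨k, hk⟩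

lemma exists_int_approx (x : v.adicCompletion K) (hx : Valued.v x ≤ 1)
    (γ : WithZero (Multiplicative ℤ)) (hγ : γ ≠ 0) :
    ∃ a : 𝓞 K, Valued.v (x - algebraMap K (v.adicCompletion K) (algebraMap (𝓞 K) K a)) < γ := by
  obtain ⟨k, hk⟩ := exists_approx v x (min γ 1) (by
    intro h
    rcases min_choice γ 1 with h1 | h1
    · rw [h1] at h; exact hγ h
    · rw [h1] at h; exact one_ne_zero h)
  have hk1 : v.valuation K k ≤ 1 := by
    rw [← valued_alg]
    have : algebraMap K (v.adicCompletion K) k = x - (x - algebraMap K (v.adicCompletion K) k) := by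
      ring
    rw [this]
    exact (Valuation.map_sub _ _ _).trans (max_le hx (hk.le.trans (min_le_right _ _)))
  obtain ⟨a, ha⟩ := v.exists_valuation_sub_lt_of_integer hk1 (Units.mk0 γ hγ)
  refine ⟨a, ?_⟩
  have : x - algebraMap K (v.adicCompletion K) (algebraMap (𝓞 K) K a) =
      (x - algebraMap K (v.adicCompletion K) k) -
      (algebraMap K (v.adicCompletion K) (algebraMap (𝓞 K) K a - k)) := by
    rw [map_sub]; ring
  rw [this]
  refine Valuation.map_sub_lt _ (hk.trans_le (min_le_left _ _)) ?_
  rw [valued_alg]
  exact ha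

instance finQuot : Ring.HasFiniteQuotients (v.adicCompletionIntegers K) where
  finiteQuotient {I} hI := by
    obtain ⟨y, hyI, hy0⟩ := Submodule.exists_mem_ne_zero_of_ne_bot hI
    have hy0' : (y : v.adicCompletion K) ≠ 0 := fun h ↦ hy0 (Subtype.ext h)
    have hvy : Valued.v (y : v.adicCompletion K) ≠ 0 := (Valuation.ne_zero_iff _).mpr hy0'
    have hdvd : ∀ z : v.adicCompletionIntegers K,
        Valued.v (z : v.adicCompletion K) ≤ Valued.v (y : v.adicCompletion K) → z ∈ I := by
      intro z hz
      have hmem : (z : v.adicCompletion K) / y ∈ v.adicCompletionIntegers K := by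
        rw [HeightOneSpectrum.mem_adicCompletionIntegers, map_div₀]
        exact div_le_one_of_le₀ hz zero_le
      have : z = ⟨_, hmem⟩ * y := by
        ext
        simp only [MulMemClass.coe_mul]
        field_simp
      rw [this]
      exact I.mul_mem_left _ hyI
    let f : 𝓞 K →+* v.adicCompletionIntegers K ⧸ I :=
      (Ideal.Quotient.mk I).comp (algebraMap (𝓞 K) (v.adicCompletionIntegers K))
    have hf : Function.Surjective f := by
      intro q
      obtain ⟨x, rfl⟩ := Ideal.Quotient.mk_surjective q
      obtain ⟨a, ha⟩ := exists_int_approx v x x.2 _ hvy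
      refine ⟨a, ?_⟩
      rw [RingHom.comp_apply, Ideal.Quotient.eq]
      apply hdvd
      rw [← Valuation.map_neg]
      refine le_trans (le_of_eq ?_) ha.le
      congr 1
      simp only [AddSubgroupClass.coe_sub, neg_sub]
      rfl
    have hker : RingHom.ker f ≠ ⊥ := by
      obtain ⟨π, hπ⟩ := v.intValuation_exists_uniformizer
      have hπ0 : π ≠ 0 := by
        rintro rfl
        rw [map_zero] at hπ
        exact WithZero.exp_ne_zero hπ.symm
      set m := (WithZero.log (Valued.v (y : v.adicCompletion K))).natAbs
      intro hbot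
      have hmem : π ^ m ∈ RingHom.ker f := by
        rw [RingHom.mem_ker, RingHom.comp_apply, Ideal.Quotient.eq_zero_iff_mem]
        apply hdvd
        have : ((algebraMap (𝓞 K) (v.adicCompletionIntegers K) (π ^ m) :
          v.adicCompletionIntegers K) : v.adicCompletion K) =
            algebraMap K (v.adicCompletion K) (algebraMap (𝓞 K) K (π ^ m)) := rfl
        rw [this, valued_alg, HeightOneSpectrum.valuation_of_algebraMap, map_pow, hπ,
          ← WithZero.exp_nsmul, ← WithZero.exp_log hvy, WithZero.exp_le_exp]
        simp only [nsmul_eq_mul, mul_neg, mul_one]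
        have := neg_abs_le (WithZero.log (Valued.v (y : v.adicCompletion K)))
        simpa [m] using this
      rw [hbot] at hmem
      exact pow_ne_zero m hπ0 hmem
    have : Finite (𝓞 K ⧸ RingHom.ker f) := Ring.HasFiniteQuotients.finiteQuotient hker
    exact Finite.of_equiv _ (RingHom.quotientKerEquivOfSurjective hf).toEquiv

end Pool.Agent.H11
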