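import Mathlib
import Pool.Agent.H11.AddSub

set_option autoImplicit false

namespace Pool.Agent.H11

open WeierstrassCurve WeierstrassCurve.Affine WeierstrassCurve.Affine.Point Polynomial

/-- a subgroup with finite complement in an infinite group is everything. -/
lemma subgroup_eq_top_of_finite_compl {G : Type*} [AddGroup G] [Infinite G] (H : AddSubgroup G)
    (h : ((H : Set G)ᶜ).Finite) : H = ⊤ := by
  by_contra hne
  obtain ⟨g, hg⟩ : ∃ g, g ∉ H := by
    by_contra hcon
    push Not at hcon
    exact hne ((AddSubgroup.eq_top_iff' H).mpr hcon)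
  have hsub : (fun x ↦ g + x) '' (H : Set G) ⊆ (H : Set G)ᶜ := by
    rintro _ ⟨x, hx, rfl⟩ hmem
    exact hg ((AddSubgroup.add_mem_cancel_right H hx).mp hmem)
  have hfin : (H : Set G).Finite :=
    Set.Finite.of_finite_image (h.subset hsub) (fun a _ b _ hab ↦ add_left_cancel hab)
  have : (Set.univ : Set G).Finite := by
    rw [← Set.union_compl_self (H : Set G)]
    exact hfin.union h
  exact Set.infinite_univ this

variable {F : Type*} [Field F] [DecidableEq F] (W : WeierstrassCurve F) [W.IsElliptic]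

/-- the points whose `x`-coordinate lies in a finite set form a finite set. -/
lemma finite_points_of_finite_x (s : Set F) (hs : s.Finite) :
    {P : W.toAffine.Point | P = 0 ∨ ∃ x y h, P = Point.some x y h ∧ x ∈ s}.Finite := by
  have : {P : W.toAffine.Point | P = 0 ∨ ∃ x y h, P = Point.some x y h ∧ x ∈ s} ⊆
      (fun P : W.toAffine.Point ↦ P.xRep) ⁻¹' (insert ![1, 0] ((fun x ↦ ![x, 1]) '' s)) := by
    rintro P (rfl | ⟨x, y, h, rfl, hx⟩)
    · left; rfl
    · right; exact ⟨x, hx, rfl⟩
  refine Set.Finite.subset (Set.Finite.preimage' ((hs.image _).insert _) fun v _ ↦ ?_) this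
  by_cases hv : ∃ P : W.toAffine.Point, P.xRep = v
  · obtain ⟨P, rfl⟩ := hv
    refine Set.Finite.subset (Set.toFinite {P, -P}) fun Q hQ ↦ ?_
    have := (xRep_eq_xRep_iff (P := Q) (Q := P)).mp hQ
    simpa using this
  · refine Set.Finite.subset Set.finite_empty fun Q hQ ↦ ?_
    exact hv ⟨Q, hQ⟩

variable [IsAlgClosed F]

lemma exists_point_of_x (x : F) : ∃ y, W.toAffine.Nonsingular x y := by
  have hm : (X ^ 2 + C (W.a₁ * x + W.a₃) * X -
      C (x ^ 3 + W.a₂ * x ^ 2 + W.a₄ * x + W.a₆) : F[X]).natDegree = 2 := by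
    compute_degree!
  obtain ⟨y, hy⟩ := IsAlgClosed.exists_root (X ^ 2 + C (W.a₁ * x + W.a₃) * X -
      C (x ^ 3 + W.a₂ * x ^ 2 + W.a₄ * x + W.a₆) : F[X]) (by
        intro h
        rw [degree_eq_natDegree (by intro h0; rw [h0] at hm; simp at hm), hm] at h
        norm_num at h)
  refine ⟨y, equation_iff_nonsingular.mp ?_⟩
  rw [equation_iff]
  simp only [IsRoot.def, eval_sub, eval_add, eval_mul, eval_pow, eval_X, eval_C] at hy
  linear_combination hy

instance infinite_point : Infinite W.toAffine.Point := by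
  have : Infinite F := IsAlgClosed.instInfinite
  choose y hy using exists_point_of_x W
  refine Infinite.of_injective (fun x ↦ Point.some x (y x) (hy x)) fun a b h ↦ ?_
  simpa using (Point.some.inj h).1

lemma quartic_ne_zero_of_psi {x y : F} (h : W.toAffine.Nonsingular x y)
    (hy : y = W.toAffine.negY x y) : x ^ 4 - W.b₄ * x ^ 2 - 2 * W.b₆ * x - W.b₈ ≠ 0 := by
  have hne := W.addSubMap_ne_zero ((Point.some x y h).sym2x_ne_zero (Point.some x y h))
  have h0 := psi2_sq W h.1
  rw [← hy, sub_self] at h0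
  rw [addSubMap_eval] at hne
  rw [sym2x_some_some] at hne
  contrapose! hne
  ext i
  fin_cases i
  · simp; linear_combination hne
  · simp; linear_combination - h0
  · simp; ring

lemma two_divisible (Q : W.toAffine.Point) : ∃ P : W.toAffine.Point, P + P = Q := by
  match Q with
  | 0 => exact ⟨0, by simp⟩
  | Point.some r s h =>
    have hm : (X ^ 4 - C W.b₄ * X ^ 2 - C (2 * W.b₆) * X - C W.b₈ -
        C r * (C 4 * X ^ 3 + C W.b₂ * X ^ 2 + C (2 * W.b₄) * X + C W.b₆) : F[X]).natDegree = 4 := by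
      compute_degree!
    obtain ⟨x, hx⟩ := IsAlgClosed.exists_root (X ^ 4 - C W.b₄ * X ^ 2 - C (2 * W.b₆) * X - C W.b₈ -
        C r * (C 4 * X ^ 3 + C W.b₂ * X ^ 2 + C (2 * W.b₄) * X + C W.b₆) : F[X]) (by
          intro h
          rw [degree_eq_natDegree (by intro h0; rw [h0] at hm; simp at hm), hm] at h
          norm_num at h)
    simp only [IsRoot.def, eval_sub, eval_add, eval_mul, eval_pow, eval_X, eval_C] at hx
    obtain ⟨y, hxy⟩ := exists_point_of_x W x
    have h0 := psi2_sq W hxy.1
    by_cases hy : y = W.toAffine.negY x y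
    · exfalso
      apply quartic_ne_zero_of_psi W hxy hy
      rw [← hy, sub_self] at h0
      linear_combination hx - r * h0
    · have h2 := addX_self W hxy.1 hy
      have hne : (y - W.toAffine.negY x y) ^ 2 ≠ 0 := pow_ne_zero _ (sub_ne_zero.mpr hy)
      have hX : W.toAffine.addX x x (W.toAffine.slope x x y y) = r := by
        apply mul_left_cancel₀ hne
        rw [h2, h0]
        linear_combination hx
      have hadd := add_of_Y_ne (h₁ := hxy) (h₂ := hxy) hy
      rcases (X_eq_iff (h₁ := nonsingular_add hxy hxy fun hxy ↦ hy hxy.right)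
        (h₂ := h)).mp hX with h' | h'
      · exact ⟨Point.some x y hxy, by rw [hadd, h']⟩
      · refine ⟨-Point.some x y hxy, ?_⟩
        rw [← neg_add, hadd, h', neg_neg]

lemma exists_two_torsion [CharZero F] : ∃ T : W.toAffine.Point, T ≠ 0 ∧ T + T = 0 := by
  have hm : (C 4 * X ^ 3 + C W.b₂ * X ^ 2 + C (2 * W.b₄) * X + C W.b₆ : F[X]).natDegree = 3 := by
    compute_degree!
  obtain ⟨x, hx⟩ := IsAlgClosed.exists_root
    (C 4 * X ^ 3 + C W.b₂ * X ^ 2 + C (2 * W.b₄) * X + C W.b₆ : F[X]) (by
      intro h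
      rw [degree_eq_natDegree (by intro h0; rw [h0] at hm; simp at hm), hm] at h
      norm_num at h)
  simp only [IsRoot.def, eval_add, eval_mul, eval_pow, eval_X, eval_C] at hx
  obtain ⟨y, hxy⟩ := exists_point_of_x W x
  refine ⟨Point.some x y hxy, some_ne_zero _, add_of_Y_eq rfl ?_⟩
  have h0 := psi2_sq W hxy.1
  rw [← sub_eq_zero]
  apply pow_eq_zero_iff (two_ne_zero) |>.mp
  rw [h0]
  linear_combination hx

end Pool.Agent.H11
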