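import Mathlib
import Pool.Agent.H11.AddSub
import Pool.Agent.H11.Divis

set_option autoImplicit false

namespace Pool.Agent.H11

open WeierstrassCurve WeierstrassCurve.Affine WeierstrassCurve.Affine.Point Polynomial

variable {F : Type*} [Field F] [DecidableEq F] (W : WeierstrassCurve F) [W.IsElliptic]
  [IsAlgClosed F] [CharZero F]

lemma exists_pow_two_smul (Q : W.toAffine.Point) (k : ℕ) :
    ∃ P : W.toAffine.Point, (2 ^ k) • P = Q := by
  induction k with
  | zero => exact ⟨Q, by simp⟩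
  | succ k ih =>
    obtain ⟨P, hP⟩ := ih
    obtain ⟨P', hP'⟩ := two_divisible W P
    exact ⟨P', by rw [pow_succ, mul_smul, two_nsmul, hP', hP]⟩

lemma no_exponent (N : ℕ) (hN : N ≠ 0) : ∃ P : W.toAffine.Point, N • P ≠ 0 := by
  obtain ⟨T, hT0, hT⟩ := exists_two_torsion W
  obtain ⟨a, m, hm, rfl⟩ := Nat.exists_eq_two_pow_mul_odd hN
  obtain ⟨P, hP⟩ := exists_pow_two_smul W T a
  refine ⟨P, ?_⟩
  rw [mul_comm, mul_smul, hP]
  obtain ⟨c, rfl⟩ := hm
  rw [add_smul, mul_comm, mul_smul, two_nsmul, hT, smul_zero]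
  simpa using hT0

/-- `A / B` computes the `x`-coordinate of multiplication by `n` off the zeros of `B`. -/
def Good (n : ℕ) (A B : F[X]) : Prop :=
  B ≠ 0 ∧ ∀ (x y : F) (h : W.toAffine.Nonsingular x y), B.eval x ≠ 0 →
    ∃ (y' : F) (h' : W.toAffine.Nonsingular (A.eval x / B.eval x) y'),
      n • Point.some x y h = Point.some (A.eval x / B.eval x) y' h'

omit [IsAlgClosed F] [CharZero F] [W.IsElliptic] in
lemma good_one : Good W 1 X 1 :=
  ⟨one_ne_zero, fun x y h _ ↦ ⟨y, by simpa using h, by simp⟩⟩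

omit [IsAlgClosed F] [W.IsElliptic] in
lemma good_two : Good W 2 (X ^ 4 - C W.b₄ * X ^ 2 - C (2 * W.b₆) * X - C W.b₈)
    (C 4 * X ^ 3 + C W.b₂ * X ^ 2 + C (2 * W.b₄) * X + C W.b₆) := by
  refine ⟨?_, fun x y h hB ↦ ?_⟩
  · have hm : (C 4 * X ^ 3 + C W.b₂ * X ^ 2 + C (2 * W.b₄) * X + C W.b₆ : F[X]).natDegree = 3 := by
      compute_degree!
    intro h0
    rw [h0] at hm
    simp at hm
  · have h0 := psi2_sq W h.1
    have hy : y ≠ W.toAffine.negY x y := by
      intro hy
      apply hB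
      rw [← hy, sub_self] at h0
      simp only [eval_add, eval_mul, eval_pow, eval_X, eval_C]
      linear_combination - h0
    have h2 := addX_self W h.1 hy
    have hadd := add_of_Y_ne (h₁ := h) (h₂ := h) hy
    have hne : (y - W.toAffine.negY x y) ^ 2 ≠ 0 := pow_ne_zero _ (sub_ne_zero.mpr hy)
    have hX : W.toAffine.addX x x (W.toAffine.slope x x y y) =
        (X ^ 4 - C W.b₄ * X ^ 2 - C (2 * W.b₆) * X - C W.b₈ : F[X]).eval x /
          (C 4 * X ^ 3 + C W.b₂ * X ^ 2 + C (2 * W.b₄) * X + C W.b₆ : F[X]).eval x := by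
      rw [eq_div_iff hB]
      simp only [eval_add, eval_sub, eval_mul, eval_pow, eval_X, eval_C]
      rw [← h0, mul_comm, h2]
    rw [← hX, two_nsmul, hadd]
    exact ⟨_, _, rfl⟩

lemma exists_x_eq (P : W.toAffine.Point) (hP : P ≠ 0) :
    ∃ x y h, P = Point.some x y h := by
  match P with
  | 0 => exact absurd rfl hP
  | Point.some x y h => exact ⟨x, y, h, rfl⟩

lemma finite_compl_of_poly (B : F[X]) (hB : B ≠ 0) (s : Set W.toAffine.Point)
    (hs : ∀ x y h, B.eval x ≠ 0 → Point.some x y h ∈ s) : (sᶜ).Finite := by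
  refine (finite_points_of_finite_x W {x | B.eval x = 0} ?_).subset fun P hP ↦ ?_
  · refine (B.roots.toFinset.finite_toSet).subset fun x hx ↦ ?_
    simp only [Finset.mem_coe, Multiset.mem_toFinset, mem_roots', ne_eq, IsRoot.def]
    exact ⟨hB, hx⟩
  · by_cases h0 : P = 0
    · exact Or.inl h0
    · obtain ⟨x, y, h, rfl⟩ := exists_x_eq W P h0
      right
      refine ⟨x, y, h, rfl, ?_⟩
      by_contra hx
      exact hP (hs x y h hx)

lemma good_step (n : ℕ) (hn : 2 ≤ n) (A B A' B' : F[X]) (h1 : Good W n A B)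
    (h2 : Good W (n - 1) A' B') : ∃ A'' B'', Good W (n + 1) A'' B'' := by
  set u : F[X] := A - X * B with hu
  set T : F[X] := C 2 * (A + X * B) * (A * X) + C W.b₂ * (A * X * B) +
    C W.b₄ * ((A + X * B) * B) + C W.b₆ * B ^ 2 with hT
  have hu0 : u ≠ 0 := by
    intro hu0
    have hAB : A = X * B := sub_eq_zero.mp hu0
    have key : (((nsmulAddMonoidHom (α := W.toAffine.Point) (n ^ 2 - 1)).ker :
        Set W.toAffine.Point)ᶜ).Finite := by
      apply finite_compl_of_poly W B h1.1
      intro x y h hx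
      obtain ⟨y', h', hs⟩ := h1.2 x y h hx
      have hxx : A.eval x / B.eval x = x := by
        rw [hAB]; simp only [eval_mul, eval_X]; field_simp
      have hcase : n • Point.some x y h = Point.some x y h ∨
          n • Point.some x y h = - Point.some x y h := by
        rw [hs]
        exact X_eq_iff.mp hxx
      simp only [SetLike.mem_coe, AddMonoidHom.mem_ker, nsmulAddMonoidHom_apply]
      have hnn : n ^ 2 • Point.some x y h = Point.some x y h := by
        rw [pow_two, mul_smul]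
        rcases hcase with hc | hc
        · rw [hc, hc]
        · rw [hc, smul_neg, hc, neg_neg]
      have hle : 1 ≤ n ^ 2 := Nat.one_le_pow _ _ (by omega)
      have : (n ^ 2 - 1) • Point.some x y h + 1 • Point.some x y h = Point.some x y h := by
        rw [← add_smul, Nat.sub_add_cancel hle, hnn]
      simpa using this
    have htop := subgroup_eq_top_of_finite_compl _ key
    have hne : n ^ 2 - 1 ≠ 0 := by
      have : 2 ^ 2 ≤ n ^ 2 := Nat.pow_le_pow_left hn 2
      omega
    obtain ⟨P, hP⟩ := no_exponent W (n ^ 2 - 1) hne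
    apply hP
    have : P ∈ (nsmulAddMonoidHom (α := W.toAffine.Point) (n ^ 2 - 1)).ker := by
      rw [htop]; trivial
    simpa using this
  refine ⟨(T * B' - u ^ 2 * A') * B, u ^ 2 * B' * B, ?_, fun x y h hx ↦ ?_⟩
  · exact mul_ne_zero (mul_ne_zero (pow_ne_zero 2 hu0) h2.1) h1.1
  rw [eval_mul, eval_mul, eval_pow] at hx
  have hB : B.eval x ≠ 0 := fun h0 ↦ hx (by rw [h0, mul_zero])
  have hB' : B'.eval x ≠ 0 := fun h0 ↦ hx (by rw [h0]; ring)
  have hux : u.eval x ≠ 0 := fun h0 ↦ hx (by rw [h0]; ring)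
  obtain ⟨y₁, h₁, hs₁⟩ := h1.2 x y h hB
  obtain ⟨y₂, h₂, hs₂⟩ := h2.2 x y h hB'
  have hxne : A.eval x / B.eval x ≠ x := by
    intro hxx
    apply hux
    rw [div_eq_iff hB] at hxx
    rw [hu, eval_sub, eval_mul, eval_X, hxx, sub_self]
  have hxne' : ¬(A.eval x / B.eval x = x ∧ y₁ = W.toAffine.negY x y) := fun hh ↦ hxne hh.1
  have hxne'' : ¬(A.eval x / B.eval x = x ∧
      y₁ = W.toAffine.negY x (W.toAffine.negY x y)) := fun hh ↦ hxne hh.1
  have e1 : (n + 1) • Point.some x y h = Point.some _ _ h₁ + Point.some _ _ h := by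
    rw [add_smul, hs₁, one_smul]
  have e2 : (n - 1) • Point.some x y h = Point.some _ _ h₁ + - Point.some _ _ h := by
    rw [← hs₁, eq_add_neg_iff_add_eq]
    nth_rewrite 2 [← one_smul ℕ (Point.some x y h)]
    rw [← add_smul, Nat.sub_add_cancel (by omega)]
  rw [add_some hxne'] at e1
  rw [neg_some, add_some hxne'', hs₂] at e2
  have e3 := (Point.some.inj e2).1
  have key := addX_add_addX W h₁.1 h.1 hxne
  rw [← e3] at key
  have hX : W.toAffine.addX (A.eval x / B.eval x) x
      (W.toAffine.slope (A.eval x / B.eval x) x y₁ y) =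
      ((T * B' - u ^ 2 * A') * B).eval x / (u ^ 2 * B' * B).eval x := by
    have hx' : (u ^ 2 * B' * B).eval x ≠ 0 := by
      rw [eval_mul, eval_mul, eval_pow]; exact hx
    rw [eq_div_iff hx']
    obtain ⟨q, hq⟩ : ∃ q, q = A.eval x / B.eval x := ⟨_, rfl⟩
    obtain ⟨q', hq'⟩ : ∃ q, q = A'.eval x / B'.eval x := ⟨_, rfl⟩
    have ha : A.eval x = q * B.eval x := by rw [hq]; field_simp
    have ha' : A'.eval x = q' * B'.eval x := by rw [hq']; field_simp
    rw [← hq, ← hq'] at key
    rw [← hq]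
    simp only [hu, hT, eval_mul, eval_sub, eval_add, eval_pow, eval_X, eval_C]
    rw [ha, ha']
    linear_combination (B.eval x ^ 3 * B'.eval x) * key
  rw [e1]
  rw [← hX]
  exact ⟨_, _, rfl⟩

lemma exists_good (n : ℕ) (hn : 1 ≤ n) : ∃ A B, Good W n A B := by
  have key : ∀ m : ℕ, (∃ A B, Good W (m + 1) A B) ∧ (∃ A B, Good W (m + 2) A B) := by
    intro m
    induction m with
    | zero => exact ⟨⟨_, _, good_one W⟩, ⟨_, _, good_two W⟩⟩
    | succ m ih =>
      obtain ⟨⟨A', B', h'⟩, ⟨A, B, h⟩⟩ := ih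
      exact ⟨⟨A, B, h⟩, good_step W (m + 2) (by omega) A B A' B' h (by simpa using h')⟩
  obtain ⟨m, rfl⟩ := Nat.exists_eq_add_of_le' hn
  exact (key m).1

/-- `E[n]` is finite. -/
theorem finite_torsion (n : ℕ) (hn : n ≠ 0) : {P : W.toAffine.Point | n • P = 0}.Finite := by
  obtain ⟨A, B, h⟩ := exists_good W n (Nat.one_le_iff_ne_zero.mpr hn)
  have := finite_compl_of_poly W B h.1 {P : W.toAffine.Point | n • P ≠ 0} (fun x y hxy hx ↦ by
    obtain ⟨y', h', hs⟩ := h.2 x y hxy hx
    simp only [Set.mem_ofPred_eq, hs]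
    exact some_ne_zero _)
  refine this.subset fun P hP ↦ ?_
  simpa using hP

/-- multiplication by `n` is surjective on points over an algebraically closed field. -/
theorem smul_surjective (n : ℕ) (hn : n ≠ 0) (Q : W.toAffine.Point) :
    ∃ P : W.toAffine.Point, n • P = Q := by
  obtain ⟨A, B, h⟩ := exists_good W n (Nat.one_le_iff_ne_zero.mpr hn)
  suffices hr : (nsmulAddMonoidHom (α := W.toAffine.Point) n).range = ⊤ by
    have : Q ∈ (nsmulAddMonoidHom (α := W.toAffine.Point) n).range := by rw [hr]; trivial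
    obtain ⟨P, hP⟩ := this
    exact ⟨P, by simpa using hP⟩
  apply subgroup_eq_top_of_finite_compl
  have hg0 : EuclideanDomain.gcd A B ≠ 0 := fun h0 ↦ h.1 (EuclideanDomain.gcd_eq_zero_iff.mp h0).2
  obtain ⟨A₁, hA₁⟩ := EuclideanDomain.gcd_dvd_left A B
  obtain ⟨B₁, hB₁⟩ := EuclideanDomain.gcd_dvd_right A B
  have hcop : IsCoprime A₁ B₁ := by
    have hab := EuclideanDomain.gcd_eq_gcd_ab A B
    generalize EuclideanDomain.gcdA A B = p₁ at hab
    generalize EuclideanDomain.gcdB A B = p₂ at hab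
    generalize EuclideanDomain.gcd A B = g at hab hg0 hA₁ hB₁
    refine ⟨p₁, p₂, ?_⟩
    apply mul_left_cancel₀ hg0
    rw [mul_one]
    nth_rewrite 2 [hab]
    rw [hA₁, hB₁]
    ring
  set g := EuclideanDomain.gcd A B with hg
  have hB₁0 : B₁ ≠ 0 := by rintro rfl; exact h.1 (by rw [hB₁, mul_zero])
  have hnc : ¬ (A₁.natDegree = 0 ∧ B₁.natDegree = 0) := by
    rintro ⟨ha, hb⟩
    obtain ⟨a, rfl⟩ := natDegree_eq_zero.mp ha
    obtain ⟨b, rfl⟩ := natDegree_eq_zero.mp hb
    have hb0 : b ≠ 0 := by rintro rfl; exact hB₁0 (by simp)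
    -- the image of `n` lies in a finite set up to finitely many points
    have hfin : ((nsmulAddMonoidHom (α := W.toAffine.Point) n) ⁻¹' {P : W.toAffine.Point | P = 0 ∨
        ∃ x y h, P = Point.some x y h ∧ x ∈ ({a / b} : Set F)}).Finite := by
      refine Set.Finite.preimage' (finite_points_of_finite_x W _ (Set.finite_singleton _))
        fun R _ ↦ ?_
      by_cases hR : ∃ P : W.toAffine.Point, n • P = R
      · obtain ⟨P, rfl⟩ := hR
        refine ((finite_torsion W n hn).image (fun T ↦ P + T)).subset fun P' hP' ↦ ?_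
        refine ⟨P' - P, ?_, add_sub_cancel P P'⟩
        have : n • P' = n • P := hP'
        show n • (P' - P) = 0
        rw [smul_sub, this, sub_self]
      · refine Set.finite_empty.subset fun P hP ↦ ?_
        exact hR ⟨P, hP⟩
    have hfin2 : ((nsmulAddMonoidHom (α := W.toAffine.Point) n) ⁻¹' {P : W.toAffine.Point | P = 0 ∨
        ∃ x y h, P = Point.some x y h ∧ x ∈ ({a / b} : Set F)})ᶜ.Finite := by
      apply finite_compl_of_poly W B h.1
      intro x y hxy hx
      obtain ⟨y', h', hs⟩ := h.2 x y hxy hx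
      right
      refine ⟨_, _, h', hs, ?_⟩
      have hgx : g.eval x ≠ 0 := fun h0 ↦ hx (by rw [hB₁, eval_mul, h0, zero_mul])
      rw [Set.mem_singleton_iff, hA₁, hB₁, eval_mul, eval_mul, eval_C, eval_C]
      field_simp
    have : (Set.univ : Set W.toAffine.Point).Finite := by
      rw [← Set.union_compl_self ((nsmulAddMonoidHom (α := W.toAffine.Point) n) ⁻¹'
        {P : W.toAffine.Point | P = 0 ∨
        ∃ x y h, P = Point.some x y h ∧ x ∈ ({a / b} : Set F)})]
      exact hfin.union hfin2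
    exact Set.infinite_univ this
  have hbad : ({c : F | (A₁ - C c * B₁).natDegree = 0} ∪
      (fun x ↦ A₁.eval x / B₁.eval x) '' {x | g.eval x = 0}).Finite := by
    refine Set.Finite.union ?_ (Set.Finite.image _ ?_)
    · apply Set.Subsingleton.finite
      intro c hc c' hc'
      by_contra hcc
      apply hnc
      simp only [Set.mem_ofPred_eq] at hc hc'
      obtain ⟨d, hd⟩ := natDegree_eq_zero.mp hc
      obtain ⟨d', hd'⟩ := natDegree_eq_zero.mp hc'
      have hcc' : c' - c ≠ 0 := sub_ne_zero.mpr (Ne.symm hcc)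
      have e1 : B₁ = C ((d - d') / (c' - c)) := by
        apply mul_left_cancel₀ (C_ne_zero.mpr hcc')
        rw [← C_mul, mul_div_cancel₀ _ hcc', C_sub, C_sub, hd, hd']
        ring
      have e2 : A₁ = C (d + c * ((d - d') / (c' - c))) := by
        rw [C_add, hd, C_mul, ← e1]
        ring
      constructor
      · rw [e2]; exact natDegree_C _
      · rw [e1]; exact natDegree_C _
    · refine (g.roots.toFinset.finite_toSet).subset fun x hx ↦ ?_
      simp only [Finset.mem_coe, Multiset.mem_toFinset, mem_roots', ne_eq, IsRoot.def]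
      exact ⟨hg0, hx⟩
  refine (finite_points_of_finite_x W _ hbad).subset fun P hP ↦ ?_
  by_cases h0 : P = 0
  · exact Or.inl h0
  obtain ⟨r, s, hrs, rfl⟩ := exists_x_eq W P h0
  refine Or.inr ⟨r, s, hrs, rfl, ?_⟩
  by_contra hr
  apply hP
  simp only [Set.mem_union, not_or] at hr
  obtain ⟨hr1, hr2⟩ := hr
  obtain ⟨x, hx⟩ := IsAlgClosed.exists_root (A₁ - C r * B₁) (by
    intro hd
    exact hr1 (natDegree_eq_of_degree_eq_some hd))
  simp only [IsRoot.def, eval_sub, eval_mul, eval_C] at hx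
  have hBx : B₁.eval x ≠ 0 := by
    intro hBx
    obtain ⟨u, v, huv⟩ := hcop
    have := congrArg (eval x) huv
    rw [hBx, mul_zero, sub_zero] at hx
    rw [eval_add, eval_mul, eval_mul, hx, hBx] at this
    simp at this
  have hgx : g.eval x ≠ 0 := by
    intro hgx
    apply hr2
    refine ⟨x, hgx, ?_⟩
    show A₁.eval x / B₁.eval x = r
    rw [div_eq_iff hBx]
    linear_combination hx
  have hB : B.eval x ≠ 0 := by rw [hB₁, eval_mul]; exact mul_ne_zero hgx hBx
  obtain ⟨y, hxy⟩ := exists_point_of_x W x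
  obtain ⟨y', h', hs⟩ := h.2 x y hxy hB
  have hreq : A.eval x / B.eval x = r := by
    rw [div_eq_iff hB, hA₁, hB₁, eval_mul, eval_mul]
    linear_combination g.eval x * hx
  rcases (X_eq_iff (h₁ := h') (h₂ := hrs)).mp hreq with h3 | h3
  · exact ⟨Point.some x y hxy, by simp only [nsmulAddMonoidHom_apply]; rw [hs, h3]⟩
  · exact ⟨-Point.some x y hxy, by
      simp only [nsmulAddMonoidHom_apply]; rw [smul_neg, hs, h3, neg_neg]⟩

end Pool.Agent.H11
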