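import Mathlib

set_option autoImplicit false

namespace Pool.Agent.H11

open IsDedekindDomain

section

variable {A F L : Type*} [CommRing A] [IsDomain A] [IsDiscreteValuationRing A] [Field F]
  [Algebra A F] [IsFractionRing A F] [Field L] [Algebra A L] [Algebra F L] [IsScalarTower A F L]
  [FiniteDimensional F L] [Algebra.IsSeparable F L]

variable (A F L) in
include F in
lemma ic_dedekind : IsDedekindDomain (integralClosure A L) :=
  integralClosure.isDedekindDomain A F L

variable (A F L) in
omit [Algebra.IsSeparable F L] in
include F in
lemma ic_frac : IsFractionRing (integralClosure A L) L :=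
  integralClosure.isFractionRing_of_finite_extension F L

variable (A F L) in
omit [IsDiscreteValuationRing A] [Algebra.IsSeparable F L] [FiniteDimensional F L] in
include F in
lemma alg_inj : Function.Injective (algebraMap A L) := by
  rw [IsScalarTower.algebraMap_eq A F L]
  exact (algebraMap F L).injective.comp (IsFractionRing.injective _ _)

variable (A F L) in
omit [Algebra.IsSeparable F L] [FiniteDimensional F L] in
include F in
/-- there is a nonzero prime of the integral closure. -/
lemma exists_prime : Nonempty (HeightOneSpectrum (integralClosure A L)) := by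
  obtain ⟨P, hP⟩ := Ideal.exists_maximal (integralClosure A L)
  refine ⟨⟨P, hP.isPrime, ?_⟩⟩
  rintro rfl
  have h1 := Ideal.isMaximal_comap_of_isIntegral_of_isMaximal (R := A)
    (⊥ : Ideal (integralClosure A L))
  have h2 : Ideal.comap (algebraMap A (integralClosure A L)) ⊥ = ⊥ := by
    apply Ideal.comap_bot_of_injective
    intro x y hxy
    exact alg_inj A F L (congrArg Subtype.val hxy)
  rw [h2] at h1
  have h3 := IsDiscreteValuationRing.not_a_field A
  exact h3 (IsLocalRing.eq_maximalIdeal h1).symm

variable [IsDedekindDomain (integralClosure A L)] [IsFractionRing (integralClosure A L) L]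
  (w : HeightOneSpectrum (integralClosure A L))

omit [Algebra.IsSeparable F L] [FiniteDimensional F L] [IsDomain A] [IsDiscreteValuationRing A]
  [IsFractionRing A F] [Algebra F L] [IsScalarTower A F L] [Algebra A F] in
lemma w_le_of_mem (a : A) : w.valuation L (algebraMap A L a) ≤ 1 := by
  rw [IsScalarTower.algebraMap_apply A (integralClosure A L) L]
  exact w.valuation_le_one _

omit [Algebra.IsSeparable F L] [FiniteDimensional F L]
  [IsFractionRing A F] [Algebra F L] [IsScalarTower A F L] [Algebra A F] in
lemma w_lt_of_mem (a : A) (ha : a ∈ IsLocalRing.maximalIdeal A) :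
    w.valuation L (algebraMap A L a) < 1 := by
  have hp : w.asIdeal.IsPrime := w.isPrime
  have h1 : w.asIdeal.comap (algebraMap A (integralClosure A L)) =
      IsLocalRing.maximalIdeal A := by
    apply IsLocalRing.eq_maximalIdeal
    have hmax := w.isMaximal
    exact Ideal.isMaximal_comap_of_isIntegral_of_isMaximal (R := A) w.asIdeal
  have h2 : algebraMap A (integralClosure A L) a ∈ w.asIdeal := by
    rw [← h1] at ha
    exact ha
  rw [IsScalarTower.algebraMap_apply A (integralClosure A L) L]
  exact (w.valuation_lt_one_iff_mem _).mpr h2

omit [Algebra.IsSeparable F L] [FiniteDimensional F L]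
  [IsFractionRing A F] [Algebra F L] [IsScalarTower A F L] [Algebra A F] in
lemma w_eq_one_of_unit (a : A) (ha : IsUnit a) :
    w.valuation L (algebraMap A L a) = 1 := by
  obtain ⟨b, hb⟩ := ha.exists_right_inv
  apply le_antisymm (w_le_of_mem w a)
  have h1 := w_le_of_mem w b
  have h2 : w.valuation L (algebraMap A L a) * w.valuation L (algebraMap A L b) = 1 := by
    rw [← map_mul, ← map_mul, hb, map_one, map_one]
  by_contra h
  push Not at h
  have : w.valuation L (algebraMap A L a) * w.valuation L (algebraMap A L b) < 1 :=
    mul_lt_one_of_lt_of_le h h1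
  exact absurd h2 this.ne

omit [Algebra.IsSeparable F L] [FiniteDimensional F L] in
lemma w_le_iff (x : F) :
    w.valuation L (algebraMap F L x) ≤ 1 ↔ ∃ a : A, algebraMap A F a = x := by
  constructor
  · intro h
    by_contra hx
    have hx0 : x ≠ 0 := by rintro rfl; exact hx ⟨0, map_zero _⟩
    have : ∃ a : A, algebraMap A F a = x⁻¹ := by
      rcases ValuationRing.isInteger_or_isInteger A x with h1 | h1
      · exact absurd h1 hx
      · exact h1
    obtain ⟨a, ha⟩ := this
    have hau : a ∈ IsLocalRing.maximalIdeal A := by
      rw [IsLocalRing.mem_maximalIdeal, mem_nonunits_iff]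
      intro hu
      obtain ⟨b, hb⟩ := hu.exists_right_inv
      apply hx
      refine ⟨b, ?_⟩
      have := congrArg (algebraMap A F) hb
      rw [map_mul, map_one, ha] at this
      field_simp at this
      exact this
    have h2 := w_lt_of_mem w a hau
    rw [IsScalarTower.algebraMap_apply A F L, ha, map_inv₀, map_inv₀] at h2
    have h4 : w.valuation L (algebraMap F L x) ≠ 0 := by
      rw [Valuation.ne_zero_iff]
      exact (map_ne_zero _).mpr hx0
    exact absurd h (not_le.mpr ((inv_lt_one₀ (zero_lt_iff.mpr h4)).mp h2))
  · rintro ⟨a, rfl⟩
    rw [← IsScalarTower.algebraMap_apply A F L]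
    exact w_le_of_mem w a

end

end Pool.Agent.H11
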