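import Mathlib

set_option autoImplicit false

namespace Pool.Agent.H11

open IsDedekindDomain Ideal

section

variable {B L G : Type*} [CommRing B] [IsDedekindDomain B] [Field L] [Algebra B L]
  [IsFractionRing B L] [Group G] [MulSemiringAction G B] [MulSemiringAction G L]
  [SMulDistribClass G B L]

theorem inertia_sub_lt (w : HeightOneSpectrum B) (g : G) (hg : g ∈ w.asIdeal.inertia G) (x : L)
    (hx : w.valuation L x ≤ 1) : w.valuation L (g • x - x) < 1 := by
  have hg' : ∀ b : B, g • b - b ∈ w.asIdeal := hg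
  obtain ⟨n, d, hnd⟩ := w.exists_primeCompl_mul_eq_of_integer x hx
  have hd : (d : B) ∉ w.asIdeal := d.2
  have hd' : g • (d : B) ∉ w.asIdeal := by
    intro h
    apply hd
    have := w.asIdeal.sub_mem h (hg' d)
    rwa [sub_sub_cancel] at this
  have h1 : w.valuation L (algebraMap B L d) = 1 := w.valuation_eq_one_iff_notMem.mpr hd
  have h2 : w.valuation L (algebraMap B L (g • (d : B))) = 1 :=
    w.valuation_eq_one_iff_notMem.mpr hd'
  have h3 : g • x * algebraMap B L (g • (d : B)) = algebraMap B L (g • n) := by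
    rw [algebraMap.smul', algebraMap.smul', ← hnd, smul_mul']
  have h4 : (g • x - x) * algebraMap B L d * algebraMap B L (g • (d : B)) =
      algebraMap B L ((g • n - n) * d - n * (g • (d : B) - d)) := by
    simp only [map_sub, map_mul]
    rw [← h3, ← hnd]
    ring
  have h5 : ((g • n - n) * d - n * (g • (d : B) - d)) ∈ w.asIdeal :=
    w.asIdeal.sub_mem (w.asIdeal.mul_mem_right _ (hg' n)) (w.asIdeal.mul_mem_left _ (hg' d))
  have h6 : w.valuation L (g • x - x) =
      w.valuation L ((g • x - x) * algebraMap B L d * algebraMap B L (g • (d : B))) := by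
    rw [map_mul, map_mul, h1, h2, mul_one, mul_one]
  rw [h6, h4]
  exact (w.valuation_lt_one_iff_mem _).mpr h5

theorem inertia_not_le (w : HeightOneSpectrum B) (g : G) (hg : g ∈ w.asIdeal.inertia G) (x : L)
    (hx : ¬ w.valuation L x ≤ 1) : ¬ w.valuation L (g • x) ≤ 1 := by
  push Not at hx ⊢
  have hx0 : x ≠ 0 := by
    rintro rfl
    simp at hx
  have h1 : w.valuation L x⁻¹ < 1 := by
    rw [map_inv₀]
    exact inv_lt_one_of_one_lt₀ hx
  have h2 := inertia_sub_lt w g hg x⁻¹ h1.le
  have h3 : w.valuation L (g • x⁻¹) < 1 := by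
    have := (w.valuation L).map_add_lt h2 h1
    rwa [sub_add_cancel] at this
  rw [smul_inv'', map_inv₀] at h3
  have h4 : w.valuation L (g • x) ≠ 0 := by
    rw [Valuation.ne_zero_iff]
    exact (smul_ne_zero_iff_ne g).mpr hx0
  exact (inv_lt_one₀ (zero_lt_iff.mpr h4)).mp h3

end

end Pool.Agent.H11
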