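import Mathlib
import Pool.Agent.H11.AddSub

set_option autoImplicit false

namespace Pool.Agent.H11

open WeierstrassCurve WeierstrassCurve.Affine WeierstrassCurve.Affine.Point

variable {L : Type*} [Field L] [DecidableEq L] (A : ValuationSubring L)

omit [DecidableEq L] in
lemma nu_mul {a m : L} (ha : a ∈ A) (hm : A.valuation m < 1) : A.valuation (a * m) < 1 := by
  rw [map_mul]
  calc A.valuation a * A.valuation m ≤ 1 * A.valuation m :=
        mul_le_mul_left ((A.valuation_le_one_iff a).mpr ha) _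
    _ < 1 := by rwa [one_mul]

omit [DecidableEq L] in
lemma nu_mem {m : L} (hm : A.valuation m < 1) : m ∈ A := (A.valuation_le_one_iff m).mp hm.le

omit [DecidableEq L] in
lemma nu_add {a b : L} (ha : A.valuation a < 1) (hb : A.valuation b < 1) :
    A.valuation (a + b) < 1 := A.valuation.map_add_lt ha hb

omit [DecidableEq L] in
lemma nu_neg {a : L} (ha : A.valuation a < 1) : A.valuation (-a) < 1 := by
  rwa [Valuation.map_neg]

omit [DecidableEq L] in
lemma nu_sub {a b : L} (ha : A.valuation a < 1) (hb : A.valuation b < 1) :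
    A.valuation (a - b) < 1 := A.valuation.map_sub_lt ha hb

omit [DecidableEq L] in
lemma nu_one_add {a : L} (ha : A.valuation a < 1) : A.valuation (1 + a) = 1 := by
  exact A.valuation.map_one_add_of_lt ha

omit [DecidableEq L] in
/-- coefficients of `W` are integral. -/
structure Integral (W : WeierstrassCurve L) : Prop where
  a₁ : W.a₁ ∈ A
  a₂ : W.a₂ ∈ A
  a₃ : W.a₃ ∈ A
  a₄ : W.a₄ ∈ A
  a₆ : W.a₆ ∈ A

variable {A}

omit [DecidableEq L] in
lemma Integral.b₂ {W : WeierstrassCurve L} (h : Integral A W) : W.b₂ ∈ A := by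
  have := h.a₁; have := h.a₂
  rw [WeierstrassCurve.b₂]
  exact add_mem (pow_mem h.a₁ 2) (mul_mem (ofNat_mem A 4) h.a₂)

omit [DecidableEq L] in
lemma Integral.b₄ {W : WeierstrassCurve L} (h : Integral A W) : W.b₄ ∈ A := by
  rw [WeierstrassCurve.b₄]
  exact add_mem (mul_mem (ofNat_mem A 2) h.a₄) (mul_mem h.a₁ h.a₃)

omit [DecidableEq L] in
lemma Integral.b₆ {W : WeierstrassCurve L} (h : Integral A W) : W.b₆ ∈ A := by
  rw [WeierstrassCurve.b₆]
  exact add_mem (pow_mem h.a₃ 2) (mul_mem (ofNat_mem A 4) h.a₆)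

omit [DecidableEq L] in
lemma Integral.b₈ {W : WeierstrassCurve L} (h : Integral A W) : W.b₈ ∈ A := by
  rw [WeierstrassCurve.b₈]
  have h1 := h.a₁; have h2 := h.a₂; have h3 := h.a₃; have h4 := h.a₄; have h6 := h.a₆
  exact sub_mem (add_mem (sub_mem (add_mem (mul_mem (pow_mem h1 2) h6)
    (mul_mem (mul_mem (ofNat_mem A 4) h2) h6)) (mul_mem (mul_mem h1 h3) h4))
    (mul_mem h2 (pow_mem h3 2))) (pow_mem h4 2)

variable (A) in
/-- the point reduces to the origin. -/
def InE1 (W : WeierstrassCurve L) (P : W.toAffine.Point) : Prop :=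
  P = 0 ∨ ∃ x y h, P = Point.some x y h ∧ x ∉ A

/-- the parameter `1 / x`. -/
def zc (W : WeierstrassCurve L) (P : W.toAffine.Point) : L :=
  match P with
  | 0 => 0
  | Point.some x _ _ => x⁻¹

omit [DecidableEq L] in
@[simp] lemma zc_zero (W : WeierstrassCurve L) : zc W (0 : W.toAffine.Point) = 0 := rfl

omit [DecidableEq L] in
@[simp] lemma zc_some (W : WeierstrassCurve L) {x y : L} (h : W.toAffine.Nonsingular x y) :
  zc W (Point.some x y h : W.toAffine.Point) = x⁻¹ := rfl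

omit [DecidableEq L] in
lemma InE1.nu {W : WeierstrassCurve L} {P : W.toAffine.Point} (h : InE1 A W P) :
    A.valuation (zc W P) < 1 := by
  rcases h with rfl | ⟨x, y, h, rfl, hx⟩
  · simp
  · rw [zc_some, ← ValuationSubring.mem_nonunits_iff, ValuationSubring.mem_nonunits_iff_or, inv_inv]
    exact Or.inr hx

omit [DecidableEq L] in
lemma InE1.xRep {W : WeierstrassCurve L} {P : W.toAffine.Point} (h : InE1 A W P) :
    ∃ c : L, c ≠ 0 ∧ P.xRep = c • ![1, zc W P] := by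
  rcases h with rfl | ⟨x, y, h, rfl, hx⟩
  · exact ⟨1, one_ne_zero, by simp [Point.xRep]⟩
  · have hx0 : x ≠ 0 := by rintro rfl; exact hx A.zero_mem
    exact ⟨x, hx0, by simp [Point.xRep, hx0]⟩

omit [DecidableEq L] in
lemma exists_rep (W : WeierstrassCurve L) (P : W.toAffine.Point) :
    (∃ X Z : L, P.xRep = ![X, Z] ∧ (X ≠ 0 → zc W P = Z / X ∧
      (A.valuation (zc W P) < 1 → InE1 A W P))) := by
  match P with
  | 0 => exact ⟨1, 0, rfl, fun _ ↦ ⟨by simp, fun _ ↦ Or.inl rfl⟩⟩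
  | Point.some x y h =>
    refine ⟨x, 1, rfl, fun hx ↦ ⟨by simp, fun hv ↦ Or.inr ⟨x, y, h, rfl, ?_⟩⟩⟩
    rw [zc_some, ← ValuationSubring.mem_nonunits_iff, ValuationSubring.mem_nonunits_iff_or, inv_inv]
      at hv
    rcases hv with hv | hv
    · exact absurd (inv_eq_zero.mp hv) hx
    · exact hv

/-- addition of two points reducing to the origin. -/
lemma InE1.add_sub {W : WeierstrassCurve L} [W.IsElliptic] (hW : Integral A W)
    {P Q : W.toAffine.Point} (hP : InE1 A W P) (hQ : InE1 A W Q) :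
    InE1 A W (P + Q) ∧ InE1 A W (P - Q) ∧
    (zc W (P + Q) + zc W (P - Q)) * (1 - W.b₄ * (zc W P * zc W Q) -
      W.b₆ * (zc W P + zc W Q) * (zc W P * zc W Q) - W.b₈ * (zc W P * zc W Q) ^ 2) =
      2 * (zc W P + zc W Q) + W.b₂ * (zc W P * zc W Q) +
        W.b₄ * (zc W P + zc W Q) * (zc W P * zc W Q) + W.b₆ * (zc W P * zc W Q) ^ 2 := by
  obtain ⟨cP, hcP, eP⟩ := hP.xRep
  obtain ⟨cQ, hcQ, eQ⟩ := hQ.xRep
  have hs := hP.nu
  have ht := hQ.nu
  set s := zc W P + zc W Q with hsdef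
  set t := zc W P * zc W Q with htdef
  obtain ⟨c, hc, e⟩ := addSubMap_sym2x W P Q
  rw [addSubMap_eval] at e
  obtain ⟨X₁, Z₁, e₁, h₁⟩ := exists_rep (A := A) W (P + Q)
  obtain ⟨X₂, Z₂, e₂, h₂⟩ := exists_rep (A := A) W (P - Q)
  have hsym : P.sym2x Q = (cP * cQ) • ![1, s, t] := by
    rw [Point.sym2x, eP, eQ]
    ext i; fin_cases i <;> simp [hsdef, htdef] <;> ring
  have hsym2 : (P + Q).sym2x (P - Q) = ![X₁ * X₂, X₁ * Z₂ + Z₁ * X₂, Z₁ * Z₂] := by
    rw [Point.sym2x, e₁, e₂]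
    ext i; fin_cases i <;> simp <;> ring
  rw [hsym, hsym2] at e
  have g0 := congrFun e 0
  have g1 := congrFun e 1
  have g2 := congrFun e 2
  simp only [smul_eq_mul, mul_one, Matrix.cons_val_zero,
    Matrix.cons_val_one, Matrix.cons_val, Pi.smul_apply, Fin.isValue] at g0 g1 g2
  have hk : cP * cQ ≠ 0 := mul_ne_zero hcP hcQ
  have hsA : s ∈ A := nu_mem A (nu_add A hs ht)
  have htv : A.valuation t < 1 := nu_mul A (nu_mem A hs) ht
  have htA : t ∈ A := nu_mem A htv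
  have hsv : A.valuation s < 1 := nu_add A hs ht
  -- the value F0
  have hF0 : A.valuation (1 - W.b₄ * t - W.b₆ * s * t - W.b₈ * t ^ 2) = 1 := by
    have : (1 - W.b₄ * t - W.b₆ * s * t - W.b₈ * t ^ 2) =
      1 + (- W.b₄ - W.b₆ * s - W.b₈ * t) * t := by ring
    rw [this]
    apply nu_one_add
    apply nu_mul A _ htv
    exact sub_mem (sub_mem (neg_mem hW.b₄) (mul_mem hW.b₆ hsA)) (mul_mem hW.b₈ htA)
  have hF0' : (1 - W.b₄ * t - W.b₆ * s * t - W.b₈ * t ^ 2) ≠ 0 := by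
    intro h0; rw [h0, _root_.map_zero] at hF0; exact zero_ne_one hF0
  have k0 : (cP * cQ) ^ 2 * (1 - W.b₄ * t - W.b₆ * s * t - W.b₈ * t ^ 2) = c * (X₁ * X₂) := by
    rw [← g0]; ring
  have k1 : (cP * cQ) ^ 2 * (2 * s + W.b₂ * t + W.b₄ * s * t + W.b₆ * t ^ 2) =
      c * (X₁ * Z₂ + Z₁ * X₂) := by
    rw [← g1]; ring
  have k2 : (cP * cQ) ^ 2 * (s ^ 2 - 4 * t) = c * (Z₁ * Z₂) := by
    rw [← g2]; ring
  have hX : c * (X₁ * X₂) ≠ 0 := by
    rw [← k0]; exact mul_ne_zero (pow_ne_zero 2 hk) hF0'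
  have hX1 : X₁ ≠ 0 := by rintro rfl; simp at hX
  have hX2 : X₂ ≠ 0 := by rintro rfl; simp at hX
  obtain ⟨z₁, hz₁⟩ : ∃ z, z = zc W (P + Q) := ⟨_, rfl⟩
  obtain ⟨z₂, hz₂⟩ : ∃ z, z = zc W (P - Q) := ⟨_, rfl⟩
  have hZ1 : Z₁ = z₁ * X₁ := by rw [hz₁, (h₁ hX1).1]; field_simp
  have hZ2 : Z₂ = z₂ * X₂ := by rw [hz₂, (h₂ hX2).1]; field_simp
  have r1 : (z₁ + z₂) * (1 - W.b₄ * t - W.b₆ * s * t - W.b₈ * t ^ 2) =
      2 * s + W.b₂ * t + W.b₄ * s * t + W.b₆ * t ^ 2 := by
    apply mul_left_cancel₀ (pow_ne_zero 2 hk)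
    rw [k1, hZ1, hZ2]
    linear_combination (z₁ + z₂) * k0
  have r2 : (z₁ * z₂) * (1 - W.b₄ * t - W.b₆ * s * t - W.b₈ * t ^ 2) = s ^ 2 - 4 * t := by
    apply mul_left_cancel₀ (pow_ne_zero 2 hk)
    rw [k2, hZ1, hZ2]
    linear_combination (z₁ * z₂) * k0
  have v1 : A.valuation (z₁ + z₂) < 1 := by
    have : A.valuation (z₁ + z₂) = A.valuation ((z₁ + z₂) *
      (1 - W.b₄ * t - W.b₆ * s * t - W.b₈ * t ^ 2)) := by rw [map_mul, hF0, mul_one]
    rw [this, r1]
    have e1 : 2 * s + W.b₂ * t + W.b₄ * s * t + W.b₆ * t ^ 2 =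
      2 * s + (W.b₂ + W.b₄ * s + W.b₆ * t) * t := by ring
    rw [e1]
    apply nu_add A (nu_mul A (ofNat_mem A 2) hsv)
    apply nu_mul A _ htv
    exact add_mem (add_mem hW.b₂ (mul_mem hW.b₄ hsA)) (mul_mem hW.b₆ htA)
  have v2 : A.valuation (z₁ * z₂) < 1 := by
    have : A.valuation (z₁ * z₂) = A.valuation ((z₁ * z₂) *
      (1 - W.b₄ * t - W.b₆ * s * t - W.b₈ * t ^ 2)) := by
      rw [map_mul A.valuation (z₁ * z₂) _, hF0, mul_one]
    rw [this, r2, sq]
    exact nu_sub A (nu_mul A hsA hsv) (nu_mul A (ofNat_mem A 4) htv)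
  have v3 : A.valuation z₁ < 1 := by
    by_contra hcon
    push Not at hcon
    have : A.valuation z₂ < 1 := by
      by_contra hcon2
      push Not at hcon2
      rw [map_mul] at v2
      exact absurd v2 (not_lt.mpr (one_le_mul hcon hcon2))
    have h3 := nu_sub A v1 this
    rw [add_sub_cancel_right] at h3
    exact absurd h3 (not_lt.mpr hcon)
  have v4 : A.valuation z₂ < 1 := by
    have h3 := nu_sub A v1 v3
    rwa [add_sub_cancel_left] at h3
  refine ⟨(h₁ hX1).2 (hz₁ ▸ v3), (h₂ hX2).2 (hz₂ ▸ v4), ?_⟩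
  rw [← hz₁, ← hz₂]
  exact r1

/-- `z(kT) ≡ k² z(T)` to first order. -/
lemma InE1.smul {W : WeierstrassCurve L} [W.IsElliptic] (hW : Integral A W)
    {T : W.toAffine.Point} (hT : InE1 A W T) (k : ℕ) :
    InE1 A W (k • T) ∧ ∃ w, zc W (k • T) = zc W T * w ∧ A.valuation (w - (k : L) ^ 2) < 1 := by
  have key : ∀ k : ℕ, (InE1 A W (k • T) ∧ ∃ w, zc W (k • T) = zc W T * w ∧
      A.valuation (w - (k : L) ^ 2) < 1) ∧ (InE1 A W ((k + 1) • T) ∧ ∃ w,
      zc W ((k + 1) • T) = zc W T * w ∧ A.valuation (w - ((k + 1 : ℕ) : L) ^ 2) < 1) := by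
    intro k
    induction k with
    | zero =>
      refine ⟨⟨Or.inl (by simp), 0, by simp, by simp⟩, ⟨by simpa using hT, 1, by simp, by simp⟩⟩
    | succ k ih =>
      refine ⟨ih.2, ?_⟩
      obtain ⟨⟨h0, w₀, hw₀, hv₀⟩, ⟨h1, w₁, hw₁, hv₁⟩⟩ := ih
      obtain ⟨a1, a2, a3⟩ := InE1.add_sub hW h1 hT
      have e1 : (k + 1) • T + T = (k + 1 + 1) • T := by rw [add_smul (k + 1), one_smul]
      have e2 : (k + 1) • T - T = k • T := by rw [add_smul, one_smul, add_sub_cancel_right]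
      rw [e1] at a1 a3
      rw [e2] at a3
      refine ⟨a1, ?_⟩
      rw [hw₀, hw₁] at a3
      have hz := hT.nu
      set z := zc W T with hzdef
      have hzA := nu_mem A hz
      have hw₁A : w₁ ∈ A := by
        have := add_mem (nu_mem A hv₁) (pow_mem (natCast_mem A (k + 1)) 2)
        rwa [sub_add_cancel] at this
      have hw₀A : w₀ ∈ A := by
        have := add_mem (nu_mem A hv₀) (pow_mem (natCast_mem A k) 2)
        rwa [sub_add_cancel] at this
      have hb₄ := hW.b₄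
      have hb₂ := hW.b₂
      have hb₆ := hW.b₆
      have hb₈ := hW.b₈
      generalize hz₂ : zc W ((k + 1 + 1) • T) = z₂ at a3 ⊢
      by_cases hz0 : z = 0
      · rw [hz0] at a3 ⊢
        refine ⟨((k + 1 + 1 : ℕ) : L) ^ 2, ?_, by simp⟩
        rw [zero_mul] at a3 ⊢
        linear_combination a3
      obtain ⟨w₂, hw₂⟩ : ∃ w, z₂ = z * w := ⟨z₂ / z, by field_simp⟩
      refine ⟨w₂, hw₂, ?_⟩
      set F0 := 1 - W.b₄ * (z * w₁ * z) - W.b₆ * (z * w₁ + z) * (z * w₁ * z) -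
        W.b₈ * (z * w₁ * z) ^ 2 with hF0def
      have hF0 : A.valuation F0 = 1 := by
        have : F0 = 1 + (-(W.b₄ * w₁ * z) - W.b₆ * (z * w₁ + z) * w₁ * z -
          W.b₈ * (z * w₁ * z) * w₁ * z) * z := by rw [hF0def]; ring
        rw [this]
        apply nu_one_add
        apply nu_mul A _ hz
        refine sub_mem (sub_mem (neg_mem ?_) ?_) ?_
        · exact mul_mem (mul_mem hb₄ hw₁A) hzA
        · exact mul_mem (mul_mem (mul_mem hb₆ (add_mem (mul_mem hzA hw₁A) hzA)) hw₁A) hzA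
        · exact mul_mem (mul_mem (mul_mem hb₈ (mul_mem (mul_mem hzA hw₁A) hzA)) hw₁A) hzA
      have e3 : (w₂ + w₀ - 2 * (w₁ + 1)) * F0 = (2 * (w₁ + 1) * (W.b₄ * w₁ +
          W.b₆ * (z * w₁ + z) * w₁ + W.b₈ * (z * w₁ * z) * w₁) * z + W.b₂ * w₁ +
          W.b₄ * (z * w₁ + z) * w₁ + W.b₆ * (z * w₁ * z) * w₁) * z := by
        apply mul_left_cancel₀ hz0
        rw [hw₂] at a3
        rw [hF0def] at a3 ⊢
        linear_combination a3
      have v3 : A.valuation (w₂ + w₀ - 2 * (w₁ + 1)) < 1 := by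
        have : A.valuation (w₂ + w₀ - 2 * (w₁ + 1)) =
            A.valuation ((w₂ + w₀ - 2 * (w₁ + 1)) * F0) := by
          rw [map_mul A.valuation _ F0, hF0, mul_one]
        rw [this, e3]
        apply nu_mul A _ hz
        have h1w := add_mem hw₁A (one_mem A)
        have h2w := mul_mem (ofNat_mem A 2) h1w
        have hzw := mul_mem hzA hw₁A
        have hzwz := mul_mem hzw hzA
        have hzz := add_mem hzw hzA
        exact add_mem (add_mem (add_mem (mul_mem (mul_mem h2w (add_mem (add_mem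
          (mul_mem hb₄ hw₁A) (mul_mem (mul_mem hb₆ hzz) hw₁A)) (mul_mem (mul_mem hb₈ hzwz) hw₁A)))
          hzA) (mul_mem hb₂ hw₁A)) (mul_mem (mul_mem hb₄ hzz) hw₁A))
          (mul_mem (mul_mem hb₆ hzwz) hw₁A)
      have e4 : w₂ - ((k + 1 + 1 : ℕ) : L) ^ 2 = (w₂ + w₀ - 2 * (w₁ + 1)) - (w₀ - (k : L) ^ 2) +
          2 * (w₁ - ((k + 1 : ℕ) : L) ^ 2) := by push_cast; ring
      rw [e4]
      exact nu_add A (nu_sub A v3 hv₀) (nu_mul A (ofNat_mem A 2) hv₁)
  exact (key k).1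

/-- a torsion point of order prime to the residue characteristic which reduces to the origin
is the origin. -/
lemma InE1.eq_zero {W : WeierstrassCurve L} [W.IsElliptic] (hW : Integral A W)
    {T : W.toAffine.Point} (hT : InE1 A W T) (n : ℕ) (hn : A.valuation (n : L) = 1)
    (h : n • T = 0) : T = 0 := by
  obtain ⟨-, w, hw, hv⟩ := hT.smul hW n
  rw [h, zc_zero] at hw
  have hw0 : w ≠ 0 := by
    rintro rfl
    rw [zero_sub, Valuation.map_neg, map_pow, hn, one_pow] at hv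
    exact lt_irrefl _ hv
  have hz : zc W T = 0 := by
    rcases mul_eq_zero.mp hw.symm with h | h
    · exact h
    · exact absurd h hw0
  rcases hT with rfl | ⟨x, y, h, rfl, hx⟩
  · rfl
  · rw [zc_some, inv_eq_zero] at hz
    exact absurd (hz ▸ A.zero_mem) hx

omit [DecidableEq L] in
/-- the reduced curve is nonsingular. -/
lemma not_both {W : WeierstrassCurve L} (hW : Integral A W) (hΔ : A.valuation W.Δ = 1)
    {x y : L} (hx : x ∈ A) (hy : y ∈ A) (h : W.toAffine.Equation x y)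
    (h1 : A.valuation (y - W.toAffine.negY x y) < 1)
    (h2 : A.valuation (3 * x ^ 2 + 2 * W.a₂ * x + W.a₄ - W.a₁ * y) < 1) : False := by
  obtain ⟨WA, hWA⟩ : ∃ WA : WeierstrassCurve A, WA.map (algebraMap A L) = W :=
    ⟨⟨⟨_, hW.a₁⟩, ⟨_, hW.a₂⟩, ⟨_, hW.a₃⟩, ⟨_, hW.a₄⟩, ⟨_, hW.a₆⟩⟩, rfl⟩
  subst hWA
  obtain ⟨x, rfl⟩ : ∃ x' : A, algebraMap A L x' = x := ⟨⟨x, hx⟩, rfl⟩
  obtain ⟨y, rfl⟩ : ∃ y' : A, algebraMap A L y' = y := ⟨⟨y, hy⟩, rfl⟩
  set Wk := WA.map (IsLocalRing.residue A) with hWk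
  have hΔ' : Wk.Δ ≠ 0 := by
    rw [hWk, WeierstrassCurve.map_Δ]
    rw [WeierstrassCurve.map_Δ] at hΔ
    intro h0
    rw [IsLocalRing.residue_eq_zero_iff, A.valuation_lt_one_iff] at h0
    exact absurd hΔ h0.ne
  have hEll : Wk.IsElliptic := ⟨isUnit_iff_ne_zero.mpr hΔ'⟩
  have hA : WA.toAffine.Equation x y := by
    exact (map_equation WA (IsFractionRing.injective A L) x y).mp h
  have hek : Wk.toAffine.Equation (IsLocalRing.residue A x) (IsLocalRing.residue A y) :=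
    hA.map (IsLocalRing.residue A)
  have hns := equation_iff_nonsingular.mp hek
  rw [nonsingular_iff'] at hns
  rcases hns.2 with h3 | h3
  · apply h3
    have : A.valuation (algebraMap A L (3 * x ^ 2 + 2 * WA.a₂ * x + WA.a₄ - WA.a₁ * y)) < 1 := by
      have e : algebraMap A L (3 * x ^ 2 + 2 * WA.a₂ * x + WA.a₄ - WA.a₁ * y) =
        3 * algebraMap A L x ^ 2 + 2 * (WA.map (algebraMap A L)).a₂ * algebraMap A L x +
        (WA.map (algebraMap A L)).a₄ - (WA.map (algebraMap A L)).a₁ * algebraMap A L y := by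
        simp only [WeierstrassCurve.map, _root_.map_add, map_sub, map_mul, map_pow, map_ofNat]
      rw [e]; exact h2
    rw [ValuationSubring.algebraMap_apply, ← A.valuation_lt_one_iff, ← IsLocalRing.residue_eq_zero_iff] at this
    simp only [_root_.map_add, map_sub, map_mul, map_pow, map_ofNat] at this
    simp only [hWk, WeierstrassCurve.map]
    linear_combination - this
  · apply h3
    have : A.valuation (algebraMap A L (2 * y + WA.a₁ * x + WA.a₃)) < 1 := by
      have e : algebraMap A L (2 * y + WA.a₁ * x + WA.a₃) =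
        algebraMap A L y - (WA.map (algebraMap A L)).toAffine.negY (algebraMap A L x)
          (algebraMap A L y) := by
        simp only [WeierstrassCurve.map, _root_.map_add, map_mul, map_ofNat, negY]
        ring
      rw [e]; exact h1
    rw [ValuationSubring.algebraMap_apply, ← A.valuation_lt_one_iff, ← IsLocalRing.residue_eq_zero_iff] at this
    simp only [_root_.map_add, map_mul, map_ofNat] at this
    simp only [hWk, WeierstrassCurve.map]
    linear_combination this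

omit [DecidableEq L] in
lemma y_mem {W : WeierstrassCurve L} (hW : Integral A W) {x y : L} (hx : x ∈ A)
    (h : W.toAffine.Equation x y) : y ∈ A := by
  rcases A.mem_or_inv_mem y with hy | hy
  · exact hy
  · by_cases hy0 : y = 0
    · rw [hy0]; exact A.zero_mem
    · rw [equation_iff] at h
      have e : y = -(W.a₁ * x + W.a₃) + (x ^ 3 + W.a₂ * x ^ 2 + W.a₄ * x + W.a₆) * y⁻¹ := by
        rw [← h]; field_simp; ring
      rw [e]
      exact add_mem (neg_mem (add_mem (mul_mem hW.a₁ hx) hW.a₃)) (mul_mem (add_mem (add_mem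
        (add_mem (pow_mem hx 3) (mul_mem hW.a₂ (pow_mem hx 2))) (mul_mem hW.a₄ hx)) hW.a₆) hy)

omit [DecidableEq L] in
lemma addX_not_mem {W : WeierstrassCurve L} (hW : Integral A W) {x₁ x₂ l : L} (hx₁ : x₁ ∈ A)
    (hx₂ : x₂ ∈ A) (hl : l ∉ A) : W.toAffine.addX x₁ x₂ l ∉ A := by
  intro hmem
  apply hl
  have hl' : l⁻¹ ∈ A := (A.mem_or_inv_mem l).resolve_left hl
  have hl0 : l ≠ 0 := by rintro rfl; exact hl A.zero_mem
  have e : l = -W.a₁ + (W.toAffine.addX x₁ x₂ l + W.a₂ + x₁ + x₂) * l⁻¹ := by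
    rw [addX]; field_simp; ring
  rw [e]
  exact add_mem (neg_mem hW.a₁) (mul_mem (add_mem (add_mem (add_mem hmem hW.a₂) hx₁) hx₂) hl')

/-- two distinct integral points with the same reduction differ by a point reducing to the
origin. -/
lemma inE1_sub {W : WeierstrassCurve L} (hW : Integral A W) (hΔ : A.valuation W.Δ = 1)
    {x₁ y₁ x₂ y₂ : L} (h₁ : W.toAffine.Nonsingular x₁ y₁) (h₂ : W.toAffine.Nonsingular x₂ y₂)
    (hx₁ : x₁ ∈ A) (hx₂ : x₂ ∈ A) (hx : A.valuation (x₁ - x₂) < 1)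
    (hy : A.valuation (y₁ - y₂) < 1) :
    InE1 A W (Point.some x₁ y₁ h₁ - Point.some x₂ y₂ h₂) := by
  by_cases hne : x₁ = x₂ ∧ y₁ = y₂
  · obtain ⟨rfl, rfl⟩ := hne
    left; simp
  have hy₁ := y_mem hW hx₁ h₁.1
  have hy₂ := y_mem hW hx₂ h₂.1
  have hne' : ¬ (x₁ = x₂ ∧ y₁ = W.toAffine.negY x₂ (W.toAffine.negY x₂ y₂)) := by
    rwa [negY_negY]
  rw [sub_eq_add_neg, neg_some, add_some hne']
  right
  refine ⟨_, _, _, rfl, ?_⟩
  apply addX_not_mem hW hx₁ hx₂
  intro hl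
  by_cases hxx : x₁ = x₂
  · subst hxx
    have hyy : y₁ ≠ y₂ := fun h ↦ hne ⟨rfl, h⟩
    have hyn : y₁ = W.toAffine.negY x₁ y₂ := (Y_eq_of_X_eq h₁.1 h₂.1 rfl).resolve_left hyy
    have hyn' : W.toAffine.negY x₁ y₁ = y₂ := by rw [hyn, negY_negY]
    rw [← hyn] at hl
    have hyy' : y₁ ≠ W.toAffine.negY x₁ y₁ := by rw [hyn']; exact hyy
    rw [slope_of_Y_ne rfl hyy'] at hl
    apply not_both hW hΔ hx₁ hy₁ h₁.1 (by rw [hyn']; exact hy)
    have hd : y₁ - W.toAffine.negY x₁ y₁ ≠ 0 := sub_ne_zero.mpr hyy'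
    have := nu_mul A hl (m := y₁ - W.toAffine.negY x₁ y₁) (by rw [hyn']; exact hy)
    rwa [div_mul_cancel₀ _ hd] at this
  · rw [slope_of_X_ne hxx] at hl
    have hd : x₁ - x₂ ≠ 0 := sub_ne_zero.mpr hxx
    obtain ⟨l, hldef⟩ : ∃ l, l = (y₁ - W.toAffine.negY x₂ y₂) / (x₁ - x₂) := ⟨_, rfl⟩
    rw [← hldef] at hl
    have e1 : y₁ - W.toAffine.negY x₂ y₂ = l * (x₁ - x₂) := by rw [hldef]; field_simp
    have e2 : x₁ ^ 2 + x₁ * x₂ + x₂ ^ 2 + W.a₂ * (x₁ + x₂) + W.a₄ - W.a₁ * y₁ =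
        l * (y₁ - y₂) := by
      apply mul_left_cancel₀ hd
      have q1 := h₁.1
      have q2 := h₂.1
      rw [equation_iff] at q1 q2
      rw [negY] at e1
      linear_combination - q1 + q2 + (y₁ - y₂) * e1
    have e3 : A.valuation (l * (x₁ - x₂)) < 1 := nu_mul A hl hx
    have e4 : A.valuation (l * (y₁ - y₂)) < 1 := nu_mul A hl hy
    apply not_both hW hΔ hx₁ hy₁ h₁.1
    · have : y₁ - W.toAffine.negY x₁ y₁ = l * (x₁ - x₂) + ((y₁ - y₂) + W.a₁ * (x₁ - x₂)) := by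
        rw [← e1, negY, negY]; ring
      rw [this]
      exact nu_add A e3 (nu_add A hy (nu_mul A hW.a₁ hx))
    · have : 3 * x₁ ^ 2 + 2 * W.a₂ * x₁ + W.a₄ - W.a₁ * y₁ = l * (y₁ - y₂) +
        (2 * x₁ + x₂ + W.a₂) * (x₁ - x₂) := by
        rw [← e2]; ring
      rw [this]
      exact nu_add A e4 (nu_mul A (add_mem (add_mem (mul_mem (ofNat_mem A 2) hx₁) hx₂) hW.a₂) hx)

instance instEllBaseChange {K F : Type*} [Field K] [Field F] [Algebra K F]
    (W : WeierstrassCurve K) [W.IsElliptic] : (W.baseChange F).IsElliptic :=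
  inferInstanceAs (W.map (algebraMap K F)).IsElliptic

/-- an automorphism in the inertia group fixes every point `P` such that `tP - P` is killed
by a number prime to the residue characteristic. -/
theorem map_eq_self_of_inertia {K : Type*} [Field K] [Algebra K L] (W : WeierstrassCurve K)
    [W.IsElliptic] (hW : Integral A (W.baseChange L)) (hΔ : A.valuation (W.baseChange L).Δ = 1)
    (t : L →ₐ[K] L) (ht : ∀ a ∈ A, A.valuation (t a - a) < 1) (ht' : ∀ a ∉ A, t a ∉ A)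
    (n : ℕ) (hn : A.valuation (n : L) = 1) (P : (W.baseChange L).toAffine.Point)
    (h : n • ((WeierstrassCurve.Affine.Point.map t :
      (W.baseChange L).toAffine.Point →+ (W.baseChange L).toAffine.Point) P - P) = 0) :
    (WeierstrassCurve.Affine.Point.map t :
      (W.baseChange L).toAffine.Point →+ (W.baseChange L).toAffine.Point) P = P := by
  rw [← sub_eq_zero]
  refine InE1.eq_zero (W := W.baseChange L) hW ?_ n hn h
  match P with
  | 0 => left; simp
  | Point.some x y hxy =>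
    rw [Point.map_some]
    by_cases hx : x ∈ A
    · have hy := y_mem hW hx hxy.1
      have h1 := ht x hx
      have h2 := ht y hy
      have hx' : t x ∈ A := by
        have := add_mem (nu_mem A h1) hx
        rwa [sub_add_cancel] at this
      exact inE1_sub hW hΔ _ _ hx' hx h1 h2
    · have e1 : InE1 A (W.baseChange L) (Point.some x y hxy) := Or.inr ⟨x, y, hxy, rfl, hx⟩
      have e2 : InE1 A (W.baseChange L) (Point.map t (Point.some x y hxy)) := by
        rw [Point.map_some]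
        exact Or.inr ⟨_, _, _, rfl, ht' x hx⟩
      exact (InE1.add_sub hW e2 e1).2.1

end Pool.Agent.H11
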