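import Mathlib

set_option autoImplicit false

namespace Pool.Agent.H11

open IsDedekindDomain Ideal

section general

variable {A K : Type*} (L : Type*) {B : Type*}
variable [CommRing A] [IsDedekindDomain A] [CommRing B] [IsDedekindDomain B] [Algebra A B]
  [Module.Finite A B] [Module.IsTorsionFree A B]
variable [Field K] [Field L] [Algebra K L]
variable [Algebra A K] [IsFractionRing A K] [Algebra A L] [IsScalarTower A K L]
variable [Algebra B L] [IsFractionRing B L] [IsScalarTower A B L]
variable (v : HeightOneSpectrum A) (w : HeightOneSpectrum B) [w.asIdeal.LiesOver v.asIdeal]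

/-- the valuation of an element of the base in terms of the order of the inertia group. -/
theorem valuation_pow_card_inertia (G : Type*) [Group G] [Finite G] [MulSemiringAction G B]
    [IsGaloisGroup G A B] (hfin : Finite (A ⧸ v.asIdeal)) (x : K) :
    v.valuation K x ^ (Nat.card (w.asIdeal.inertia G)) = w.valuation L (algebraMap K L x) := by
  have : v.asIdeal.IsPrime := v.isPrime
  have : w.asIdeal.IsPrime := w.isPrime
  have : v.asIdeal.IsMaximal := v.isMaximal
  rw [card_inertia_eq_ramificationIdxIn v.asIdeal w.asIdeal,
    ramificationIdxIn_eq_ramificationIdx v.asIdeal w.asIdeal G,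
    ← HeightOneSpectrum.valuation_liesOver L v w,
    ramificationIdx'_eq_ramificationIdx]
  exact v.ne_bot

end general

end Pool.Agent.H11
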