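import Mathlib
import Pool.Agent.H11.Ramif

set_option autoImplicit false

namespace Pool.Agent.H11

open IsDedekindDomain Ideal

section inertia

variable {A K L : Type*} [CommRing A] [IsDedekindDomain A] [Ring.HasFiniteQuotients A]
variable [Field K] [Field L] [Algebra K L] [Algebra A K] [IsFractionRing A K] [Algebra A L]
  [IsScalarTower A K L] [FiniteDimensional K L] [IsGalois K L]

omit [IsDedekindDomain A] [Ring.HasFiniteQuotients A] [IsFractionRing A K]
  [FiniteDimensional K L] [IsGalois K L] in
lemma tower_mid (E : IntermediateField K L) : IsScalarTower A E L :=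
  IsScalarTower.of_algebraMap_eq fun _ ↦ rfl

variable (A) in
/-- the inclusion of the integral closures. -/
noncomputable def icMap (E : IntermediateField K L) :
    integralClosure A E →+* integralClosure A L where
  toFun c := ⟨algebraMap E L c, by
    have := tower_mid (A := A) E
    exact c.2.map (IsScalarTower.toAlgHom A E L)⟩
  map_one' := by ext; simp
  map_mul' x y := by ext; simp
  map_zero' := by ext; simp
  map_add' x y := by ext; simp

omit [Ring.HasFiniteQuotients A] in
lemma exists_of_val (v : HeightOneSpectrum A) (g : WithZero (Multiplicative ℤ)) (hg : g ≠ 0) :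
    ∃ c : K, c ≠ 0 ∧ v.valuation K c = g := by
  obtain ⟨π, hπ⟩ := v.valuation_exists_uniformizer K
  have hπ0 : π ≠ 0 := by
    rintro rfl
    rw [map_zero] at hπ
    exact WithZero.exp_ne_zero hπ.symm
  refine ⟨π ^ (-(WithZero.log g)), zpow_ne_zero _ hπ0, ?_⟩
  rw [map_zpow₀, hπ, ← WithZero.exp_zsmul]
  simp [WithZero.exp_log hg]

theorem exists_val_eq [IsDedekindDomain (integralClosure A L)]
    [IsFractionRing (integralClosure A L) L]
    (w : HeightOneSpectrum (integralClosure A L)) (α : L) (hα : α ≠ 0)
    (h : ∀ σ ∈ w.asIdeal.inertia Gal(L/K), σ α = α) :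
    ∃ c : K, c ≠ 0 ∧ w.valuation L α = w.valuation L (algebraMap K L c) := by
  classical
  have hAL : FaithfulSMul A L := by
    rw [faithfulSMul_iff_algebraMap_injective, IsScalarTower.algebraMap_eq A K L]
    exact (algebraMap K L).injective.comp (IsFractionRing.injective A K)
  let I := w.asIdeal.inertia Gal(L/K)
  let E : IntermediateField K L := FixedPoints.intermediateField I
  have tAE : IsScalarTower A E L := tower_mid E
  have hsepE : Algebra.IsSeparable K E := inferInstance
  let C := integralClosure A E
  let B := integralClosure A L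
  have hCfin : Module.Finite A C := IsIntegralClosure.finite A K E C
  have hBfin : Module.Finite A B := IsIntegralClosure.finite A K L B
  have hCD : IsDedekindDomain C := integralClosure.isDedekindDomain A K E
  have hCF : IsFractionRing C E := integralClosure.isFractionRing_of_finite_extension K E
  let algCB : Algebra C B := (icMap A E).toAlgebra
  have t1 : IsScalarTower A C B := IsScalarTower.of_algebraMap_eq fun a ↦ rfl
  have t2 : IsScalarTower C B L := IsScalarTower.of_algebraMap_eq fun a ↦ rfl
  have t3 : IsScalarTower C E L := IsScalarTower.of_algebraMap_eq fun a ↦ rfl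
  have hCBfin : Module.Finite C B := Module.Finite.right A C B
  have hCBint : Algebra.IsIntegral C B := Algebra.IsIntegral.of_finite C B
  have hABint : Algebra.IsIntegral A B := Algebra.IsIntegral.of_finite A B
  have hCBf : FaithfulSMul C B := by
    rw [faithfulSMul_iff_algebraMap_injective]
    intro x y hxy
    have := congrArg (algebraMap B L) hxy
    rw [← IsScalarTower.algebraMap_apply C B L, ← IsScalarTower.algebraMap_apply C B L,
      IsScalarTower.algebraMap_apply C E L, IsScalarTower.algebraMap_apply C E L] at this
    exact IsFractionRing.injective C E ((algebraMap E L).injective this)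
  have hABf : FaithfulSMul A B := by
    rw [faithfulSMul_iff_algebraMap_injective]
    intro x y hxy
    have := congrArg (algebraMap B L) hxy
    exact (FaithfulSMul.algebraMap_injective A L) this
  have tfCB : Module.IsTorsionFree C B := Module.isTorsionFree_iff_faithfulSMul.mpr hCBf
  have tfAB : Module.IsTorsionFree A B := Module.isTorsionFree_iff_faithfulSMul.mpr hABf
  have hG1 : IsGaloisGroup Gal(L/K) A B := IsGaloisGroup.of_isFractionRing _ A B K L
  have hG0 : IsGaloisGroup I E L := IsGaloisGroup.subgroup Gal(L/K) K L I
  have hG2 : IsGaloisGroup I C B := IsGaloisGroup.of_isFractionRing _ C B E L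
  have : w.asIdeal.IsPrime := w.isPrime
  let v : HeightOneSpectrum A := ⟨w.asIdeal.under A, inferInstance, Ideal.under_ne_bot A w.ne_bot⟩
  let u : HeightOneSpectrum C := ⟨w.asIdeal.under C, inferInstance, Ideal.under_ne_bot C w.ne_bot⟩
  have hFC : Ring.HasFiniteQuotients C := Ring.HasFiniteQuotients.of_module_finite A C
  have l1 : w.asIdeal.LiesOver v.asIdeal := ⟨rfl⟩
  have l2 : w.asIdeal.LiesOver u.asIdeal := ⟨rfl⟩
  have f1 := Ring.HasFiniteQuotients.finiteQuotient v.ne_bot
  have f2 := Ring.HasFiniteQuotients.finiteQuotient u.ne_bot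
  have k1 := fun x : K ↦ valuation_pow_card_inertia L v w Gal(L/K) f1 x
  have k2 := fun x : E ↦ valuation_pow_card_inertia L u w I f2 x
  have hcard : Nat.card (w.asIdeal.inertia I) = Nat.card (w.asIdeal.inertia Gal(L/K)) := by
    have htop : w.asIdeal.inertia I = ⊤ := by
      rw [eq_top_iff]
      intro σ _
      exact Ideal.coe_mem_inertia.mp σ.2
    rw [htop]
    exact Nat.card_congr Subgroup.topEquiv.toEquiv
  have hαE : α ∈ E := fun g ↦ h g.1 g.2
  obtain ⟨c, hc0, hc⟩ : ∃ c : K, c ≠ 0 ∧ v.valuation K c = u.valuation E ⟨α, hαE⟩ :=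
    exists_of_val v _ ((Valuation.ne_zero_iff _).mpr fun h0 ↦ hα (congrArg Subtype.val h0))
  refine ⟨c, hc0, ?_⟩
  rw [← k1 c, hc, ← hcard, k2 ⟨α, hαE⟩]
  rfl

end inertia

end Pool.Agent.H11
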