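import Mathlib
import Pool.Agent.H11.Local
import Pool.Agent.H11.Ramif2
import Pool.Agent.H11.Inert
import Pool.Agent.H11.DVR

set_option autoImplicit false

open scoped Classical

namespace Pool.Agent.H11

open IsDedekindDomain

variable {K F A : Type*} [Field K] [Field F] [Algebra K F] [CharZero F]
  [CommRing A] [IsDomain A] [IsDiscreteValuationRing A] [Ring.HasFiniteQuotients A]
  [Algebra A F] [IsFractionRing A F]

omit [CharZero F] in
/-- a root of unity congruent to `1` is `1`. -/
lemma root_one {L : Type*} [Field L] (V : Valuation L (WithZero (Multiplicative ℤ))) (n : ℕ)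
    (hn : V (n : L) = 1) (ξ : L) (hξ : ξ ^ n = 1) (h : V (ξ - 1) < 1) : ξ = 1 := by
  by_contra hne
  have h1 : ∑ i ∈ Finset.range n, ξ ^ i = 0 := by
    have := mul_geom_sum ξ n
    rw [hξ, sub_self] at this
    exact (mul_eq_zero.mp this).resolve_left (sub_ne_zero.mpr hne)
  have h2 : ∀ i, V (ξ ^ i - 1) < 1 := by
    intro i
    have hξ1 : V ξ ≤ 1 := by
      have : ξ = (ξ - 1) + 1 := by ring
      rw [this]
      exact (V.map_add _ _).trans (max_le h.le (by simp))
    rw [← mul_geom_sum, map_mul]
    have : V (∑ i ∈ Finset.range i, ξ ^ i) ≤ 1 := by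
      apply V.map_sum_le
      intro j _
      rw [map_pow]
      exact pow_le_one' hξ1 j
    exact mul_lt_one_of_lt_of_le h this
  have h3 : V (∑ i ∈ Finset.range n, (ξ ^ i - 1)) < 1 :=
    V.map_sum_lt one_ne_zero fun i _ ↦ h2 i
  rw [Finset.sum_sub_distrib, h1, zero_sub, Valuation.map_neg] at h3
  simp at h3
  rw [hn] at h3
  exact lt_irrefl _ h3

/-- the coordinates of a point. -/
def coordSet {L : Type*} [Field L] {W : WeierstrassCurve L} (P : W.toAffine.Point) : Set L :=
  match P with
  | 0 => ∅
  | WeierstrassCurve.Affine.Point.some x y _ => {x, y}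

lemma coordSet_finite {L : Type*} [Field L] {W : WeierstrassCurve L} (P : W.toAffine.Point) :
    (coordSet P).Finite := by
  match P with
  | 0 => exact Set.finite_empty
  | WeierstrassCurve.Affine.Point.some x y _ => exact Set.toFinite {x, y}

lemma exists_point_of_coords {k E E' : Type*} [Field k] [Field E] [Field E'] [Algebra k E]
    [Algebra k E'] [DecidableEq E] [DecidableEq E'] (W : WeierstrassCurve k) (g : E →ₐ[k] E')
    (P : (W.baseChange E').toAffine.Point) (h : coordSet P ⊆ Set.range g) :
    ∃ P' : (W.baseChange E).toAffine.Point, WeierstrassCurve.Affine.Point.map g P' = P := by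
  match P with
  | 0 => exact ⟨0, rfl⟩
  | WeierstrassCurve.Affine.Point.some x y hxy =>
    obtain ⟨x', rfl⟩ := h (show x ∈ ({x, y} : Set E') by simp)
    obtain ⟨y', rfl⟩ := h (show y ∈ ({g x', y} : Set E') by simp)
    exact ⟨WeierstrassCurve.Affine.Point.some x' y'
      ((WeierstrassCurve.Affine.baseChange_nonsingular W g.injective x' y').mp hxy), rfl⟩

section main

variable (K F A)

theorem loc_main (hKF : ∀ x : F, x ≠ 0 → ∃ k : K, k ≠ 0 ∧ ∃ u : A, IsUnit u ∧
      x = algebraMap K F k * algebraMap A F u)
    (W : WeierstrassCurve K) [W.IsElliptic]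
    (WA : WeierstrassCurve A) (hWA : WA.map (algebraMap A F) = W.map (algebraMap K F))
    (hΔ : IsUnit WA.Δ) (n : ℕ) (hn : IsUnit (n : A))
    (ι : AlgebraicClosure K →ₐ[K] AlgebraicClosure F)
    (M : IntermediateField K (AlgebraicClosure K)) [FiniteDimensional K M]
    (hMT : ∀ T : (W.baseChange (AlgebraicClosure K)).toAffine.Point, n • T = 0 →
      ∃ T' : (W.baseChange M).toAffine.Point, WeierstrassCurve.Affine.Point.map M.val T' = T)
    (hMζ : ∀ ζ : AlgebraicClosure K, ζ ^ n = 1 → ζ ∈ M)
    (f : (AlgebraicClosure K ≃ₐ[K] AlgebraicClosure K) →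
      (W.baseChange (AlgebraicClosure K)).toAffine.Point) (hf : ∀ σ, n • f σ = 0)
    (P : (W.baseChange (AlgebraicClosure F)).toAffine.Point)
    (hP : ∀ (τ : AlgebraicClosure F ≃ₐ[F] AlgebraicClosure F)
      (σ : AlgebraicClosure K ≃ₐ[K] AlgebraicClosure K),
      (τ.toAlgHom.restrictScalars K).comp ι = ι.comp σ.toAlgHom →
      (WeierstrassCurve.Affine.Point.map ι :
        (W.baseChange (AlgebraicClosure K)).toAffine.Point →+
          (W.baseChange (AlgebraicClosure F)).toAffine.Point) (f σ) =
        (WeierstrassCurve.Affine.Point.map (τ.toAlgHom.restrictScalars K) :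
          (W.baseChange (AlgebraicClosure F)).toAffine.Point →+
            (W.baseChange (AlgebraicClosure F)).toAffine.Point) P - P) :
    ∃ V : ValuationSubring M, (∀ x : K, algebraMap K M x ∈ V ↔
        ∃ a : A, algebraMap A F a = algebraMap K F x) ∧
      ∀ α : M, α ≠ 0 → (∀ σ : AlgebraicClosure K ≃ₐ[K] AlgebraicClosure K,
        (∀ T : (W.baseChange (AlgebraicClosure K)).toAffine.Point, n • T = 0 →
          (WeierstrassCurve.Affine.Point.map σ.toAlgHom :
            (W.baseChange (AlgebraicClosure K)).toAffine.Point →+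
              (W.baseChange (AlgebraicClosure K)).toAffine.Point) T = T) →
        (∀ ζ : AlgebraicClosure K, ζ ^ n = 1 → σ ζ = ζ) → f σ = 0 →
        σ (α : AlgebraicClosure K) = α) →
        ∃ c : K, c ≠ 0 ∧ α / algebraMap K M c ∈ V ∧ (α / algebraMap K M c)⁻¹ ∈ V := by
  -- the finite Galois extension `L` of `F`
  let b := Module.finBasis K M
  let S : Set (AlgebraicClosure F) := Set.range (fun i ↦ ι (b i)) ∪ coordSet P
  have hSfin : Finite S := (Set.finite_range _).union (coordSet_finite P)
  let F₀ : IntermediateField F (AlgebraicClosure F) := IntermediateField.adjoin F S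
  have hF₀ : FiniteDimensional F F₀ :=
    IntermediateField.finiteDimensional_adjoin fun x _ ↦ Algebra.IsIntegral.isIntegral x
  let L : IntermediateField F (AlgebraicClosure F) :=
    IntermediateField.normalClosure F F₀ (AlgebraicClosure F)
  have hLle : F₀ ≤ L := IntermediateField.le_normalClosure F₀
  have hLfin : FiniteDimensional F L := normalClosure.is_finiteDimensional F F₀ (AlgebraicClosure F)
  have hLn : Normal F L := normalClosure.normal F F₀ (AlgebraicClosure F)
  have hLgal : IsGalois F L := { }
  have hιM : ∀ m : M, ι m ∈ L := by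
    intro m
    apply hLle
    have : (m : AlgebraicClosure K) = ∑ i, (b.repr m i) • (b i : AlgebraicClosure K) := by
      have h := congrArg M.val (b.sum_repr m)
      rw [map_sum] at h
      rw [← IntermediateField.coe_val, ← h]
      rfl
    rw [this, map_sum]
    apply sum_mem
    intro i _
    rw [map_smul, Algebra.smul_def, IsScalarTower.algebraMap_apply K F (AlgebraicClosure F)]
    exact mul_mem (F₀.algebraMap_mem _)
      (IntermediateField.subset_adjoin F S (Or.inl ⟨i, rfl⟩))
  let j : M →ₐ[K] L :=
    { toFun := fun m ↦ ⟨ι m, hιM m⟩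
      map_one' := by ext; simp
      map_mul' := fun x y ↦ by ext; simp
      map_zero' := by ext; simp
      map_add' := fun x y ↦ by ext; simp
      commutes' := fun x ↦ by
        ext
        exact ι.commutes x }
  let g : L →ₐ[K] AlgebraicClosure F := L.val.restrictScalars K
  obtain ⟨P', hP'⟩ := exists_point_of_coords W g P (by
    intro x hx
    exact ⟨⟨x, hLle (IntermediateField.subset_adjoin F S (Or.inr hx))⟩, rfl⟩)
  -- the local ring
  have tAL : IsScalarTower A F L := IsScalarTower.of_algebraMap_eq fun _ ↦ rfl
  have hD : IsDedekindDomain (integralClosure A L) := ic_dedekind A F L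
  have hFr : IsFractionRing (integralClosure A L) L := ic_frac A F L
  obtain ⟨w⟩ := exists_prime A F L
  let AV : ValuationSubring L := (w.valuation L).valuationSubring
  have hAVeq : (w.valuation L).IsEquiv AV.valuation :=
    Valuation.isEquiv_valuation_valuationSubring _
  have hmemA : ∀ a : A, algebraMap A L a ∈ AV := fun a ↦ w_le_of_mem w a
  have hbc : W.baseChange L = WA.map (algebraMap A L) := by
    have : algebraMap K L = (algebraMap F L).comp (algebraMap K F) :=
      IsScalarTower.algebraMap_eq K F L
    rw [WeierstrassCurve.baseChange, this, ← WeierstrassCurve.map_map, ← hWA,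
      WeierstrassCurve.map_map, ← IsScalarTower.algebraMap_eq A F L]
  have hWI : Integral AV (W.baseChange L) := by
    rw [hbc]
    exact ⟨hmemA _, hmemA _, hmemA _, hmemA _, hmemA _⟩
  have hWΔ : AV.valuation (W.baseChange L).Δ = 1 := by
    rw [hbc, WeierstrassCurve.map_Δ, ← hAVeq.eq_one_iff_eq_one]
    exact w_eq_one_of_unit w _ hΔ
  have hnw : w.valuation L (n : L) = 1 := by
    rw [← map_natCast (algebraMap A L) n]
    exact w_eq_one_of_unit w _ hn
  have hnV : AV.valuation (n : L) = 1 := by
    rw [← hAVeq.eq_one_iff_eq_one]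
    exact hnw
  refine ⟨AV.comap (j : M →+* L), fun x ↦ ?_, fun α hα hα2 ↦ ?_⟩
  · rw [← w_le_iff w, ValuationSubring.mem_comap]
    have : (j : M →+* L) (algebraMap K M x) = algebraMap F L (algebraMap K F x) := by
      rw [← IsScalarTower.algebraMap_apply K F L]
      exact j.commutes x
    rw [this]
    exact Iff.rfl
  have key : ∀ τ₀ ∈ w.asIdeal.inertia Gal(L/F), τ₀ (j α) = j α := by
    intro τ₀ hτ₀
    let t : L →ₐ[K] L := (τ₀ : L →ₐ[F] L).restrictScalars K
    have ht : ∀ a ∈ AV, AV.valuation (t a - a) < 1 := fun a ha ↦ by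
      rw [← hAVeq.lt_one_iff_lt_one]
      exact inertia_sub_lt w τ₀ hτ₀ a ha
    have ht' : ∀ a ∉ AV, t a ∉ AV := fun a ha ↦ inertia_not_le w τ₀ hτ₀ a ha
    let τ : AlgebraicClosure F ≃ₐ[F] AlgebraicClosure F := τ₀.liftNormal (AlgebraicClosure F)
    have hτ : ∀ x : L, τ x = τ₀ x := AlgEquiv.liftNormal_commutes τ₀ (AlgebraicClosure F)
    let algι : Algebra (AlgebraicClosure K) (AlgebraicClosure F) := ι.toRingHom.toAlgebra
    have towι : IsScalarTower K (AlgebraicClosure K) (AlgebraicClosure F) :=
      IsScalarTower.of_algebraMap_eq' ι.comp_algebraMap.symm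
    let σ : AlgebraicClosure K ≃ₐ[K] AlgebraicClosure K :=
      (τ.restrictScalars K).restrictNormal (AlgebraicClosure K)
    have hσ : ∀ x, ι (σ x) = τ (ι x) := fun x ↦
      AlgEquiv.restrictNormal_commutes (τ.restrictScalars K) (AlgebraicClosure K) x
    have hcomp : (τ.toAlgHom.restrictScalars K).comp ι = ι.comp σ.toAlgHom := by
      ext x; exact (hσ x).symm
    have hfix : ∀ Q : (W.baseChange L).toAffine.Point,
        n • ((WeierstrassCurve.Affine.Point.map t :
          (W.baseChange L).toAffine.Point →+ (W.baseChange L).toAffine.Point) Q - Q) = 0 →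
        (WeierstrassCurve.Affine.Point.map t :
          (W.baseChange L).toAffine.Point →+ (W.baseChange L).toAffine.Point) Q = Q :=
      fun Q ↦ map_eq_self_of_inertia W hWI hWΔ t ht ht' n hnV Q
    have hgt : (τ.toAlgHom.restrictScalars K).comp g = g.comp t := by
      ext x; exact hτ x
    have hmap : ∀ Q : (W.baseChange L).toAffine.Point,
        (WeierstrassCurve.Affine.Point.map (τ.toAlgHom.restrictScalars K) :
          (W.baseChange (AlgebraicClosure F)).toAffine.Point →+
            (W.baseChange (AlgebraicClosure F)).toAffine.Point)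
          ((WeierstrassCurve.Affine.Point.map g : (W.baseChange L).toAffine.Point →+
            (W.baseChange (AlgebraicClosure F)).toAffine.Point) Q) =
        (WeierstrassCurve.Affine.Point.map g : (W.baseChange L).toAffine.Point →+
            (W.baseChange (AlgebraicClosure F)).toAffine.Point)
          ((WeierstrassCurve.Affine.Point.map t :
            (W.baseChange L).toAffine.Point →+ (W.baseChange L).toAffine.Point) Q) := by
      intro Q
      rw [WeierstrassCurve.Affine.Point.map_map, WeierstrassCurve.Affine.Point.map_map, hgt]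
    have hinjg := WeierstrassCurve.Affine.Point.map_injective (W' := W) (f := g)
    have hinjι := WeierstrassCurve.Affine.Point.map_injective (W' := W) (f := ι)
    have hf0 : f σ = 0 := by
      have h1 := hP τ σ hcomp
      rw [← hP', hmap, ← map_sub] at h1
      have h2 : n • ((WeierstrassCurve.Affine.Point.map t :
          (W.baseChange L).toAffine.Point →+ (W.baseChange L).toAffine.Point) P' - P') = 0 := by
        apply hinjg
        rw [map_nsmul, ← h1, ← map_nsmul, hf σ, map_zero, map_zero]
      rw [hfix P' h2, sub_self, map_zero] at h1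
      exact hinjι (h1.trans (map_zero _).symm)
    have hT : ∀ T : (W.baseChange (AlgebraicClosure K)).toAffine.Point, n • T = 0 →
          (WeierstrassCurve.Affine.Point.map σ.toAlgHom :
            (W.baseChange (AlgebraicClosure K)).toAffine.Point →+
              (W.baseChange (AlgebraicClosure K)).toAffine.Point) T = T := by
      intro T hT
      obtain ⟨T', hT'⟩ := hMT T hT
      have hinjM := WeierstrassCurve.Affine.Point.map_injective (W' := W) (f := M.val)
      have hnT' : n • T' = 0 := by
        apply hinjM
        rw [map_nsmul, hT', hT, map_zero]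
      let T'' : (W.baseChange L).toAffine.Point := WeierstrassCurve.Affine.Point.map j T'
      have hnT'' : n • T'' = 0 := by
        show n • (WeierstrassCurve.Affine.Point.map j T' : (W.baseChange L).toAffine.Point) = 0
        rw [← map_nsmul, hnT', map_zero]
      have h5 := hfix T'' (by rw [smul_sub, ← map_nsmul, hnT'', map_zero, sub_zero])
      have h6 : (WeierstrassCurve.Affine.Point.map ι :
        (W.baseChange (AlgebraicClosure K)).toAffine.Point →+
          (W.baseChange (AlgebraicClosure F)).toAffine.Point) T =
          (WeierstrassCurve.Affine.Point.map g : (W.baseChange L).toAffine.Point →+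
            (W.baseChange (AlgebraicClosure F)).toAffine.Point) T'' := by
        rw [← hT']
        show _ = WeierstrassCurve.Affine.Point.map g (WeierstrassCurve.Affine.Point.map j T')
        rw [WeierstrassCurve.Affine.Point.map_map, WeierstrassCurve.Affine.Point.map_map]
        rfl
      apply hinjι
      rw [WeierstrassCurve.Affine.Point.map_map, ← hcomp, ← WeierstrassCurve.Affine.Point.map_map,
        h6, hmap, h5]
    have hζ : ∀ ζ : AlgebraicClosure K, ζ ^ n = 1 → σ ζ = ζ := by
      intro ζ hζ
      let z : L := j ⟨ζ, hMζ ζ hζ⟩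
      have hzn : z ^ n = 1 := by
        have : (⟨ζ, hMζ ζ hζ⟩ : M) ^ n = 1 := by ext; exact hζ
        show (j ⟨ζ, hMζ ζ hζ⟩) ^ n = 1
        rw [← map_pow, this, map_one]
      have hn0 : n ≠ 0 := by
        rintro rfl
        simp at hn
      have hz0 : z ≠ 0 := by
        intro h0
        rw [h0, zero_pow hn0] at hzn
        exact zero_ne_one hzn
      have hwz : w.valuation L z = 1 := by
        have h7 := congrArg (w.valuation L) hzn
        rw [map_pow, map_one] at h7
        exact (pow_eq_one_iff.mp h7).resolve_right hn0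
      have h8 : τ₀ z / z = 1 := by
        apply root_one (w.valuation L) n hnw
        · rw [div_pow, ← map_pow, hzn, map_one, div_one]
        · have h9 := inertia_sub_lt w τ₀ hτ₀ z hwz.le
          rw [AlgEquiv.smul_def] at h9
          have : τ₀ z / z - 1 = (τ₀ z - z) / z := by field_simp
          rw [this, map_div₀, hwz, div_one]
          exact h9
      rw [div_eq_one_iff_eq hz0] at h8
      have h11 := hτ z
      rw [h8] at h11
      have h12 : ι (σ ζ) = ι ζ := (hσ ζ).trans h11
      exact ι.injective h12
    have h3 := hα2 σ hT hζ hf0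
    have h4 : τ (ι α) = ι α := by rw [← hσ, h3]
    apply L.val.injective
    exact (hτ (j α)).symm.trans h4
  obtain ⟨c, hc0, hc⟩ := exists_val_eq w (j α) (by simpa using hα) key
  obtain ⟨k, hk0, u, hu, rfl⟩ := hKF c hc0
  have h10 : w.valuation L (j (α / algebraMap K M k)) = 1 := by
    rw [map_mul, ← IsScalarTower.algebraMap_apply A F L, ← IsScalarTower.algebraMap_apply K F L,
      map_mul, w_eq_one_of_unit w u hu, mul_one] at hc
    have hne : w.valuation L (algebraMap K L k) ≠ 0 := by
      rw [Valuation.ne_zero_iff]
      exact (map_ne_zero _).mpr hk0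
    rw [map_div₀, j.commutes, map_div₀, hc, div_self hne]
  refine ⟨k, hk0, ?_, ?_⟩
  · rw [ValuationSubring.mem_comap]
    exact h10.le
  · rw [ValuationSubring.mem_comap]
    have : w.valuation L (j (α / algebraMap K M k)⁻¹) = 1 := by
      rw [map_inv₀, map_inv₀, h10, inv_one]
    exact this.le

end main

end Pool.Agent.H11
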