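import Mathlib
import Pool.Agent.H11.Divis2
import Pool.Agent.H11.Local
import Pool.Agent.H11.LocMain

set_option autoImplicit false

open scoped Classical

namespace Pool.Agent.H11

open IsDedekindDomain NumberField WeierstrassCurve

variable {K : Type} [Field K] (W : WeierstrassCurve K)

/-- the Galois group. -/
abbrev Gam (K : Type) [Field K] := AlgebraicClosure K ≃ₐ[K] AlgebraicClosure K

/-- geometric points. -/
abbrev Pts (W : WeierstrassCurve K) := (W.baseChange (AlgebraicClosure K)).toAffine.Point

/-- the Galois action on geometric points. -/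
noncomputable def act (σ : Gam K) : Pts W →+ Pts W :=
  WeierstrassCurve.Affine.Point.map σ.toAlgHom

lemma act_mul (σ τ : Gam K) (P : Pts W) : act W (σ * τ) P = act W σ (act W τ P) := by
  rw [act, act, act, WeierstrassCurve.Affine.Point.map_map]
  rfl

lemma act_one (P : Pts W) : act W 1 P = P := by
  match P with
  | 0 => exact map_zero _
  | WeierstrassCurve.Affine.Point.some x y h => rfl

lemma act_inv (σ : Gam K) (P : Pts W) : act W σ⁻¹ (act W σ P) = P := by
  rw [← act_mul, inv_mul_cancel, act_one]

lemma act_inv' (σ : Gam K) (P : Pts W) : act W σ (act W σ⁻¹ P) = P := by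
  rw [← act_mul, mul_inv_cancel, act_one]

lemma act_some (σ : Gam K) {x y : AlgebraicClosure K} (h) :
    act W σ (WeierstrassCurve.Affine.Point.some x y h) =
      WeierstrassCurve.Affine.Point.some (σ x) (σ y)
        ((WeierstrassCurve.Affine.baseChange_nonsingular W σ.toAlgHom.injective x y).mpr h) := rfl

/-- the coordinates of the `n`-torsion and the `n`-th roots of unity. -/
def Sn (n : ℕ) : Set (AlgebraicClosure K) :=
  (⋃ T ∈ {T : Pts W | n • T = 0}, coordSet T) ∪ {ζ | ζ ^ n = 1}

lemma Sn_finite [CharZero K] [W.IsElliptic] (n : ℕ) (hn : n ≠ 0) : (Sn W n).Finite := by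
  apply Set.Finite.union
  · apply Set.Finite.biUnion
    · exact finite_torsion (W.baseChange (AlgebraicClosure K)) n hn
    · exact fun T _ ↦ coordSet_finite T
  · have := (Polynomial.nthRoots n (1 : AlgebraicClosure K)).toFinset.finite_toSet
    refine this.subset fun ζ hζ ↦ ?_
    simp only [Finset.mem_coe, Multiset.mem_toFinset]
    rw [Polynomial.mem_nthRoots (Nat.pos_of_ne_zero hn)]
    exact hζ

/-- the splitting field of the `n`-torsion, with the `n`-th roots of unity. -/
noncomputable def Kn (n : ℕ) : IntermediateField K (AlgebraicClosure K) :=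
  IntermediateField.adjoin K (Sn W n)

lemma Kn_finite [CharZero K] [W.IsElliptic] (n : ℕ) (hn : n ≠ 0) : FiniteDimensional K (Kn W n) := by
  have := (Sn_finite W n hn).to_subtype
  exact IntermediateField.finiteDimensional_adjoin fun x _ ↦ Algebra.IsIntegral.isIntegral x

lemma map_Sn (σ : Gam K) (n : ℕ) : ∀ x ∈ Sn W n, σ x ∈ Sn W n := by
  intro x hx
  rcases hx with hx | hx
  · left
    simp only [Set.mem_iUnion] at hx ⊢
    obtain ⟨T, hT, hx⟩ := hx
    refine ⟨act W σ T, ?_, ?_⟩
    · show n • act W σ T = 0
      rw [← map_nsmul, hT, map_zero]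
    · match T, hx with
      | WeierstrassCurve.Affine.Point.some a b h, hx =>
        rw [act_some]
        rcases hx with rfl | rfl
        · exact Or.inl rfl
        · exact Or.inr rfl
  · right
    show (σ x) ^ n = 1
    rw [← map_pow, hx, map_one]

lemma Kn_normal (n : ℕ) : Normal K (Kn W n) := by
  rw [IntermediateField.normal_iff_forall_map_le']
  intro σ
  rw [Kn, IntermediateField.adjoin_map]
  apply IntermediateField.adjoin_le_iff.mpr
  rintro _ ⟨x, hx, rfl⟩
  exact IntermediateField.subset_adjoin K _ (map_Sn W σ n x hx)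

lemma exists_descend {M : IntermediateField K (AlgebraicClosure K)} {n : ℕ} (hM : Kn W n ≤ M)
    (T : Pts W) (hT : n • T = 0) :
    ∃ T' : (W.baseChange M).toAffine.Point, WeierstrassCurve.Affine.Point.map M.val T' = T := by
  apply exists_point_of_coords W M.val T
  intro x hx
  have h1 : x ∈ Sn W n := Or.inl (by
    simp only [Set.mem_iUnion]
    exact ⟨T, hT, hx⟩)
  exact ⟨⟨x, hM (IntermediateField.subset_adjoin K _ h1)⟩, rfl⟩

lemma zeta_mem {n : ℕ} (ζ : AlgebraicClosure K) (hζ : ζ ^ n = 1) : ζ ∈ Kn W n :=
  IntermediateField.subset_adjoin K _ (Or.inr hζ)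

lemma act_of_fix {n : ℕ} (σ : Gam K) (hσ : ∀ x ∈ Kn W n, σ x = x) (T : Pts W) (hT : n • T = 0) :
    act W σ T = T := by
  match T with
  | 0 => exact map_zero _
  | WeierstrassCurve.Affine.Point.some x y h =>
    have hx : ∀ z ∈ ({x, y} : Set (AlgebraicClosure K)), σ z = z := by
      intro z hz
      apply hσ
      apply IntermediateField.subset_adjoin K _
      left
      simp only [Set.mem_iUnion]
      exact ⟨_, hT, hz⟩
    rw [act_some]
    have h1 := hx x (by simp)
    have h2 := hx y (by simp)
    simp only [h1, h2]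

lemma fix_of_act {n : ℕ} (σ : Gam K) (h1 : ∀ T : Pts W, n • T = 0 → act W σ T = T)
    (h2 : ∀ ζ : AlgebraicClosure K, ζ ^ n = 1 → σ ζ = ζ) : ∀ x ∈ Kn W n, σ x = x := by
  have hle : Kn W n ≤ IntermediateField.fixedField (Subgroup.zpowers σ) := by
    apply IntermediateField.adjoin_le_iff.mpr
    intro x hx
    have hσx : σ x = x := by
      rcases hx with hx | hx
      · simp only [Set.mem_iUnion] at hx
        obtain ⟨T, hT, hx⟩ := hx
        match T, hT, hx with
        | WeierstrassCurve.Affine.Point.some a b h, hT, hx =>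
          have h3 := h1 _ hT
          rw [act_some] at h3
          obtain ⟨ha, hb⟩ := WeierstrassCurve.Affine.Point.some.inj h3
          rcases hx with rfl | rfl
          · exact ha
          · exact hb
      · exact h2 x hx
    intro g
    obtain ⟨m, hm⟩ := g.2
    have : Subgroup.zpowers σ ≤ MulAction.stabilizer (Gam K) x := by
      rw [Subgroup.zpowers_le]
      exact hσx
    exact this g.2
  intro x hx
  exact hle hx ⟨σ, Subgroup.mem_zpowers σ⟩

end Pool.Agent.H11
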