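import Mathlib
import Pool.Agent.H11.Split
import Pool.Agent.H11.LocFin

set_option autoImplicit false

open scoped Classical

namespace Pool.Agent.H11

open IsDedekindDomain NumberField WeierstrassCurve

/-- the valuation is good for the curve and for `n`. -/
def GoodVal {F : Type*} [Field F] (w : Valuation F (WithZero (Multiplicative ℤ)))
    (W : WeierstrassCurve F) (n : ℕ) : Prop :=
  w W.a₁ ≤ 1 ∧ w W.a₂ ≤ 1 ∧ w W.a₃ ≤ 1 ∧ w W.a₄ ≤ 1 ∧ w W.a₆ ≤ 1 ∧ w W.Δ = 1 ∧ w (n : F) = 1

lemma finite_ne_one {F : Type*} [Field F] [NumberField F] (x : F) (hx : x ≠ 0) :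
    {q : HeightOneSpectrum (𝓞 F) | q.valuation F x ≠ 1}.Finite := by
  refine ((HeightOneSpectrum.Support.finite (𝓞 F) x).union
    (HeightOneSpectrum.Support.finite (𝓞 F) x⁻¹)).subset fun q hq ↦ ?_
  rcases lt_or_gt_of_ne hq with h | h
  · right
    show 1 < q.valuation F x⁻¹
    rw [map_inv₀]
    exact (one_lt_inv₀ (zero_lt_iff.mpr ((Valuation.ne_zero_iff _).mpr hx))).mpr h
  · exact Or.inl h

lemma bad_finite {F : Type*} [Field F] [NumberField F] (W : WeierstrassCurve F) [W.IsElliptic]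
    (n : ℕ) (hn : n ≠ 0) :
    {q : HeightOneSpectrum (𝓞 F) | ¬ GoodVal (q.valuation F) W n}.Finite := by
  have hΔ : W.Δ ≠ 0 := W.isUnit_Δ.ne_zero
  have hnF : (n : F) ≠ 0 := Nat.cast_ne_zero.mpr hn
  have h1 := HeightOneSpectrum.Support.finite (𝓞 F) W.a₁
  have h2 := HeightOneSpectrum.Support.finite (𝓞 F) W.a₂
  have h3 := HeightOneSpectrum.Support.finite (𝓞 F) W.a₃
  have h4 := HeightOneSpectrum.Support.finite (𝓞 F) W.a₄
  have h6 := HeightOneSpectrum.Support.finite (𝓞 F) W.a₆
  refine ((((((h1.union h2).union h3).union h4).union h6).union (finite_ne_one _ hΔ)).union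
    (finite_ne_one _ hnF)).subset fun q hq ↦ ?_
  by_contra hcon
  apply hq
  simp only [Set.mem_union, not_or] at hcon
  obtain ⟨⟨⟨⟨⟨⟨c1, c2⟩, c3⟩, c4⟩, c6⟩, cΔ⟩, cn⟩ := hcon
  exact ⟨not_lt.mp c1, not_lt.mp c2, not_lt.mp c3, not_lt.mp c4, not_lt.mp c6,
    not_not.mp cΔ, not_not.mp cn⟩

variable {K : Type} [Field K] [NumberField K] (W : WeierstrassCurve K) [W.IsElliptic]

omit [W.IsElliptic] in
lemma good_under {F : Type*} [Field F] [NumberField F] [Algebra K F]
    (v : HeightOneSpectrum (𝓞 K)) (q : HeightOneSpectrum (𝓞 F)) [q.asIdeal.LiesOver v.asIdeal]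
    (n : ℕ) (h : GoodVal (q.valuation F) (W.baseChange F) n) : GoodVal (v.valuation K) W n := by
  have key := HeightOneSpectrum.valuation_liesOver (K := K) F v q
  set e := v.asIdeal.ramificationIdx' q.asIdeal
  have he : e ≠ 0 := Ideal.IsDedekindDomain.ramificationIdx'_ne_zero_of_liesOver q.asIdeal v.ne_bot
  have k1 : ∀ x : K, q.valuation F (algebraMap K F x) ≤ 1 → v.valuation K x ≤ 1 := by
    intro x hx
    rw [← key] at hx
    by_contra hcon
    push Not at hcon
    exact absurd hx (not_le.mpr (one_lt_pow' hcon he))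
  have k2 : ∀ x : K, q.valuation F (algebraMap K F x) = 1 → v.valuation K x = 1 := by
    intro x hx
    rw [← key] at hx
    exact (pow_eq_one_iff.mp hx).resolve_right he
  obtain ⟨h1, h2, h3, h4, h6, hΔ, hn⟩ := h
  refine ⟨k1 _ h1, k1 _ h2, k1 _ h3, k1 _ h4, k1 _ h6, k2 _ ?_, k2 _ ?_⟩
  · rw [← WeierstrassCurve.map_Δ]; exact hΔ
  · rw [map_natCast]; exact hn

/-- `f` is a coboundary over the completion at `v` for the embedding `ι`. -/
def LocTriv (W : WeierstrassCurve K) (f : Gam K → Pts W) (v : HeightOneSpectrum (𝓞 K))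
    (ι : AlgebraicClosure K →ₐ[K] AlgebraicClosure (v.adicCompletion K)) : Prop :=
  ∃ P : (W.baseChange (AlgebraicClosure (v.adicCompletion K))).toAffine.Point,
    ∀ τ : AlgebraicClosure (v.adicCompletion K) ≃ₐ[v.adicCompletion K]
              AlgebraicClosure (v.adicCompletion K),
    ∀ σ : AlgebraicClosure K ≃ₐ[K] AlgebraicClosure K,
      (τ.toAlgHom.restrictScalars K).comp ι = ι.comp σ.toAlgHom →
      (WeierstrassCurve.Affine.Point.map ι :
        (W.baseChange (AlgebraicClosure K)).toAffine.Point →+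
          (W.baseChange (AlgebraicClosure (v.adicCompletion K))).toAffine.Point) (f σ) =
        (WeierstrassCurve.Affine.Point.map (τ.toAlgHom.restrictScalars K) :
          (W.baseChange (AlgebraicClosure (v.adicCompletion K))).toAffine.Point →+
            (W.baseChange (AlgebraicClosure (v.adicCompletion K))).toAffine.Point) P - P

theorem loc_apply (v : HeightOneSpectrum (𝓞 K)) (n : ℕ) (hg : GoodVal (v.valuation K) W n)
    (ι : AlgebraicClosure K →ₐ[K] AlgebraicClosure (v.adicCompletion K))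
    (M : IntermediateField K (AlgebraicClosure K)) [FiniteDimensional K M] (hM : Kn W n ≤ M)
    (f : Gam K → Pts W) (hf : ∀ σ, n • f σ = 0) (hloc : LocTriv W f v ι) :
    ∃ V : ValuationSubring M, (∀ x : K, algebraMap K M x ∈ V ↔ v.valuation K x ≤ 1) ∧
      ∀ α : M, α ≠ 0 → (∀ σ : Gam K, (∀ x ∈ Kn W n, σ x = x) → f σ = 0 →
        σ (α : AlgebraicClosure K) = α) →
        ∃ c : K, c ≠ 0 ∧ α / algebraMap K M c ∈ V ∧ (α / algebraMap K M c)⁻¹ ∈ V := by
  obtain ⟨P, hP⟩ := hloc
  obtain ⟨h1, h2, h3, h4, h6, hΔ, hn⟩ := hg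
  have hch : CharZero (v.adicCompletion K) :=
    charZero_of_injective_algebraMap (algebraMap K (v.adicCompletion K)).injective
  have mem : ∀ x : K, v.valuation K x ≤ 1 →
      algebraMap K (v.adicCompletion K) x ∈ v.adicCompletionIntegers K := by
    intro x hx
    rw [HeightOneSpectrum.mem_adicCompletionIntegers, valued_alg]
    exact hx
  let WA : WeierstrassCurve (v.adicCompletionIntegers K) :=
    ⟨⟨_, mem _ h1⟩, ⟨_, mem _ h2⟩, ⟨_, mem _ h3⟩, ⟨_, mem _ h4⟩, ⟨_, mem _ h6⟩⟩
  have hWA : WA.map (algebraMap (v.adicCompletionIntegers K) (v.adicCompletion K)) =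
      W.map (algebraMap K (v.adicCompletion K)) := rfl
  have hΔ' : IsUnit WA.Δ := by
    rw [HeightOneSpectrum.adicCompletionIntegers.isUnit_iff_valued_eq_one]
    have : ((WA.Δ : v.adicCompletionIntegers K) : v.adicCompletion K) =
        algebraMap K (v.adicCompletion K) W.Δ := by
      rw [← WeierstrassCurve.map_Δ, ← hWA, WeierstrassCurve.map_Δ]
      rfl
    rw [this, valued_alg]
    exact hΔ
  have hn' : IsUnit (n : v.adicCompletionIntegers K) := by
    rw [HeightOneSpectrum.adicCompletionIntegers.isUnit_iff_valued_eq_one]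
    have : (((n : v.adicCompletionIntegers K)) : v.adicCompletion K) =
        algebraMap K (v.adicCompletion K) n := by
      rw [map_natCast]
      rfl
    rw [this, valued_alg]
    exact hn
  have hKF : ∀ x : v.adicCompletion K, x ≠ 0 → ∃ k : K, k ≠ 0 ∧
      ∃ u : v.adicCompletionIntegers K, IsUnit u ∧
        x = algebraMap K (v.adicCompletion K) k *
          algebraMap (v.adicCompletionIntegers K) (v.adicCompletion K) u := by
    intro x hx
    obtain ⟨k, hk⟩ := v.valuation_surjective K (Valued.v x)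
    have hvx : Valued.v x ≠ 0 := (Valuation.ne_zero_iff _).mpr hx
    have hk0 : k ≠ 0 := by
      rintro rfl
      rw [map_zero] at hk
      exact hvx hk.symm
    have hk0' : algebraMap K (v.adicCompletion K) k ≠ 0 := (map_ne_zero _).mpr hk0
    have hu : Valued.v (x / algebraMap K (v.adicCompletion K) k) = 1 := by
      rw [map_div₀, valued_alg, hk, div_self hvx]
    refine ⟨k, hk0, ⟨x / algebraMap K (v.adicCompletion K) k, hu.le⟩, ?_, ?_⟩
    · rw [HeightOneSpectrum.adicCompletionIntegers.isUnit_iff_valued_eq_one]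
      exact hu
    · show x = algebraMap K (v.adicCompletion K) k * (x / algebraMap K (v.adicCompletion K) k)
      field_simp
  obtain ⟨V, hV1, hV2⟩ := loc_main K (v.adicCompletion K) (v.adicCompletionIntegers K) hKF W WA hWA
    hΔ' n hn' ι M (fun T hT ↦ exists_descend W hM T hT) (fun ζ hζ ↦ hM (zeta_mem W ζ hζ))
    f hf P hP
  refine ⟨V, fun x ↦ ?_, fun α hα h ↦ hV2 α hα fun σ hσ1 hσ2 hσ3 ↦ ?_⟩
  · rw [hV1]
    constructor
    · rintro ⟨a, ha⟩
      rw [← valued_alg, ← ha]
      exact a.2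
    · intro hx
      exact ⟨⟨_, mem x hx⟩, rfl⟩
  · exact h σ (fix_of_act W σ hσ1 hσ2) hσ3

end Pool.Agent.H11
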