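import Mathlib

set_option autoImplicit false

open scoped Classical

namespace Pool.Agent.H11

open IsDedekindDomain NumberField UniqueFactorizationMonoid

variable {F : Type*} [Field F] [NumberField F]

/-- an element whose valuation is an `n`-th power off `S` generates (as an ideal) an `n`-th power
times one of finitely many ideals. -/
lemma exists_ideal_decomp (S : Set (HeightOneSpectrum (𝓞 F))) (hS : S.Finite) (n : ℕ) (hn : n ≠ 0) :
    ∃ T : Set (Ideal (𝓞 F)), T.Finite ∧ ∀ a : 𝓞 F, a ≠ 0 →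
      (∀ w ∉ S, ∃ c : F, c ≠ 0 ∧ w.valuation F (algebraMap (𝓞 F) F a) = (w.valuation F c) ^ n) →
      ∃ I ∈ T, ∃ J : Ideal (𝓞 F), J ≠ ⊥ ∧ Ideal.span {a} = I * J ^ n := by
  lift S to Finset (HeightOneSpectrum (𝓞 F)) using hS
  refine ⟨Set.range (fun e : S → Fin n ↦ ∏ w : S, w.1.asIdeal ^ (e w : ℕ)), Set.finite_range _,
    fun a ha h ↦ ?_⟩
  have hspan : Ideal.span {a} ≠ ⊥ := by simpa using ha
  set s := normalizedFactors (Ideal.span {a}) with hs
  have hprod : Ideal.span {a} = ∏ q ∈ s.toFinset, q ^ (s.count q) := by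
    rw [← Finset.prod_multiset_count]
    exact (associated_iff_eq.mp (prod_normalizedFactors hspan)).symm
  have hpr : ∀ q ∈ s.toFinset, q.IsPrime ∧ q ≠ ⊥ := by
    intro q hq
    have := prime_of_normalized_factor q (Multiset.mem_toFinset.mp hq)
    exact ⟨Ideal.isPrime_of_prime this, this.ne_zero⟩
  have hdvd : ∀ q ∈ s.toFinset, q ∉ S.image HeightOneSpectrum.asIdeal → s.count q % n = 0 := by
    intro q hq hqS
    let w : HeightOneSpectrum (𝓞 F) := ⟨q, (hpr q hq).1, (hpr q hq).2⟩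
    have hw : w ∉ S := fun hw ↦ hqS (Finset.mem_image.mpr ⟨w, hw, rfl⟩)
    obtain ⟨c, hc0, hc⟩ := h w hw
    have hvc : w.valuation F c ≠ 0 := (Valuation.ne_zero_iff _).mpr hc0
    rw [HeightOneSpectrum.valuation_of_algebraMap, w.intValuation_if_neg ha,
      Ideal.count_associates_factors_eq hspan (hpr q hq).1 (hpr q hq).2,
      ← WithZero.exp_log hvc, ← WithZero.exp_nsmul, WithZero.exp_inj] at hc
    have : (n : ℤ) ∣ (s.count q : ℤ) := ⟨-WithZero.log (w.valuation F c), by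
      rw [nsmul_eq_mul] at hc
      linarith⟩
    exact Nat.mod_eq_zero_of_dvd (Int.natCast_dvd_natCast.mp this)
  refine ⟨_, ⟨fun w ↦ ⟨s.count w.1.asIdeal % n, Nat.mod_lt _ (Nat.pos_of_ne_zero hn)⟩, rfl⟩,
    ∏ q ∈ s.toFinset, q ^ (s.count q / n), ?_, ?_⟩
  · rw [← Ideal.zero_eq_bot, Finset.prod_ne_zero_iff]
    exact fun q hq ↦ pow_ne_zero _ (hpr q hq).2
  · have e1 : ∏ w : S, w.1.asIdeal ^ (s.count w.1.asIdeal % n) =
        ∏ q ∈ S.image HeightOneSpectrum.asIdeal, q ^ (s.count q % n) := by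
      rw [Finset.prod_image (fun x _ y _ h ↦ HeightOneSpectrum.ext h)]
      exact Finset.prod_coe_sort S (fun w ↦ w.asIdeal ^ (s.count w.asIdeal % n))
    have e2 : ∏ q ∈ s.toFinset ∩ S.image HeightOneSpectrum.asIdeal, q ^ (s.count q % n) =
        ∏ q ∈ S.image HeightOneSpectrum.asIdeal, q ^ (s.count q % n) := by
      apply Finset.prod_subset Finset.inter_subset_right
      intro q hq hq'
      have : q ∉ s := fun h ↦ hq' (Finset.mem_inter.mpr ⟨Multiset.mem_toFinset.mpr h, hq⟩)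
      rw [Multiset.count_eq_zero_of_notMem this, Nat.zero_mod, pow_zero]
    have e3 : ∏ q ∈ s.toFinset ∩ S.image HeightOneSpectrum.asIdeal, q ^ (s.count q % n) =
        ∏ q ∈ s.toFinset, q ^ (s.count q % n) := by
      apply Finset.prod_subset Finset.inter_subset_left
      intro q hq hq'
      rw [hdvd q hq (fun h ↦ hq' (Finset.mem_inter.mpr ⟨hq, h⟩)), pow_zero]
    show _ = (∏ w : S, w.1.asIdeal ^ (s.count w.1.asIdeal % n)) * _
    rw [e1, ← e2, e3, hprod, ← Finset.prod_pow, ← Finset.prod_mul_distrib]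
    refine Finset.prod_congr rfl fun q _ ↦ ?_
    rw [← pow_mul, ← pow_add, Nat.mod_add_div' ]

/-- units modulo `n`-th powers. -/
lemma units_mod_powers (n : ℕ) (hn : n ≠ 0) :
    ∃ U : Set (𝓞 F)ˣ, U.Finite ∧ ∀ u : (𝓞 F)ˣ, ∃ u₀ ∈ U, ∃ u', u = u₀ * u' ^ n := by
  have hfg : Group.FG (𝓞 F)ˣ := Group.fg_iff_monoid_fg.mpr inferInstance
  let Q := (𝓞 F)ˣ ⧸ (powMonoidHom (α := (𝓞 F)ˣ) n).range
  have hQfg : Group.FG Q := QuotientGroup.fg _
  have htor : IsMulTorsion Q := by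
    intro q
    obtain ⟨u, rfl⟩ := QuotientGroup.mk_surjective q
    rw [isOfFinOrder_iff_pow_eq_one]
    refine ⟨n, Nat.pos_of_ne_zero hn, ?_⟩
    rw [← QuotientGroup.mk_pow, QuotientGroup.eq_one_iff]
    exact ⟨u, rfl⟩
  have hfin : Finite Q := CommGroup.finite_of_fg_isMulTorsion Q htor
  refine ⟨Set.range (fun q : Q ↦ q.out), Set.finite_range _, fun u ↦
    ⟨_, ⟨(u : Q), rfl⟩, ?_⟩⟩
  have : ((u : Q).out : Q) = (u : Q) := Quotient.out_eq _
  rw [QuotientGroup.eq] at this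
  obtain ⟨u', hu'⟩ := this
  refine ⟨u', ?_⟩
  have h2 : u' ^ n = ((u : Q).out)⁻¹ * u := hu'
  rw [h2, mul_inv_cancel_left]

/-- finiteness of the group of elements of `F` modulo `n`-th powers whose valuation off `S` is
divisible by `n`. -/
theorem kSn_finite (S : Set (HeightOneSpectrum (𝓞 F))) (hS : S.Finite) (n : ℕ) (hn : n ≠ 0) :
    ∃ R : Set F, R.Finite ∧ (∀ r ∈ R, r ≠ 0) ∧ ∀ a : F, a ≠ 0 →
      (∀ w ∉ S, ∃ c : F, c ≠ 0 ∧ w.valuation F a = (w.valuation F c) ^ n) →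
      ∃ r ∈ R, ∃ b : F, b ≠ 0 ∧ a = r * b ^ n := by
  obtain ⟨T, hT, hTdec⟩ := exists_ideal_decomp S hS n hn
  obtain ⟨U, hU, hUdec⟩ := units_mod_powers (F := F) n hn
  let Q : Ideal (𝓞 F) × ClassGroup (𝓞 F) → 𝓞 F → Prop := fun p a₀ ↦
    a₀ ≠ 0 ∧ ∃ (J : Ideal (𝓞 F)) (hJ : J ≠ ⊥), Ideal.span {a₀} = p.1 * J ^ n ∧
      ClassGroup.mk0 ⟨J, mem_nonZeroDivisors_iff_ne_zero.mpr hJ⟩ = p.2
  let rep : Ideal (𝓞 F) × ClassGroup (𝓞 F) → 𝓞 F := fun p ↦
    if h : ∃ a₀, Q p a₀ then h.choose else 1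
  have hrep0 : ∀ p, rep p ≠ 0 := by
    intro p
    by_cases h : ∃ a₀, Q p a₀
    · simp only [rep, dif_pos h]
      exact h.choose_spec.1
    · simp only [rep, dif_neg h]
      exact one_ne_zero
  refine ⟨(fun q : (𝓞 F)ˣ × (Ideal (𝓞 F) × ClassGroup (𝓞 F)) ↦
      algebraMap (𝓞 F) F (q.1 * rep q.2)) '' (U ×ˢ (T ×ˢ Set.univ)), ?_, ?_, ?_⟩
  · exact (hU.prod (hT.prod Set.finite_univ)).image _
  · rintro _ ⟨q, -, rfl⟩
    rw [Ne, FaithfulSMul.algebraMap_eq_zero_iff]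
    exact mul_ne_zero q.1.ne_zero (hrep0 _)
  intro a ha h
  -- reduction to an integral element
  obtain ⟨x, y, hy, rfl⟩ := IsFractionRing.div_surjective (A := 𝓞 F) a
  have hy0 : y ≠ 0 := nonZeroDivisors.ne_zero hy
  have hyF : algebraMap (𝓞 F) F y ≠ 0 := by
    rwa [Ne, FaithfulSMul.algebraMap_eq_zero_iff]
  have hx0 : x ≠ 0 := by rintro rfl; simp at ha
  obtain ⟨a', ha'⟩ : ∃ a' : 𝓞 F, a' = x * y ^ (n - 1) := ⟨_, rfl⟩
  have ha'0 : a' ≠ 0 := ha' ▸ mul_ne_zero hx0 (pow_ne_zero _ hy0)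
  have ha'F : algebraMap (𝓞 F) F a' = algebraMap (𝓞 F) F x / algebraMap (𝓞 F) F y *
      (algebraMap (𝓞 F) F y) ^ n := by
    obtain ⟨m, rfl⟩ := Nat.exists_eq_succ_of_ne_zero hn
    rw [ha', map_mul, map_pow, Nat.succ_eq_add_one, Nat.add_sub_cancel, pow_succ]
    field_simp
  obtain ⟨I, hIT, J, hJ, hIJ⟩ := hTdec a' ha'0 (fun w hw ↦ by
    obtain ⟨c, hc0, hc⟩ := h w hw
    refine ⟨c * algebraMap (𝓞 F) F y, mul_ne_zero hc0 hyF, ?_⟩
    rw [ha'F, map_mul, hc, map_pow, map_mul, mul_pow])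
  set p : Ideal (𝓞 F) × ClassGroup (𝓞 F) :=
    (I, ClassGroup.mk0 ⟨J, mem_nonZeroDivisors_iff_ne_zero.mpr hJ⟩) with hp
  have hex : ∃ a₀, Q p a₀ := ⟨a', ha'0, J, hJ, hIJ, rfl⟩
  have hrepp : Q p (rep p) := by
    simp only [rep, dif_pos hex]
    exact hex.choose_spec
  obtain ⟨h0, J₀, hJ₀, hIJ₀, hcl⟩ := hrepp
  rw [hp] at hcl
  obtain ⟨s, t, hs, ht, hst⟩ := ClassGroup.mk0_eq_mk0_iff.mp hcl
  simp only at hst
  have hideal : Ideal.span {t ^ n * a'} = Ideal.span {s ^ n * rep p} := by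
    rw [← Ideal.span_singleton_mul_span_singleton, ← Ideal.span_singleton_mul_span_singleton,
      ← Ideal.span_singleton_pow, ← Ideal.span_singleton_pow, hIJ, hIJ₀]
    have e1 : Ideal.span {t} ^ n * (I * J ^ n) = I * (Ideal.span {t} * J) ^ n := by
      rw [mul_pow]; ring
    have e2 : Ideal.span {s} ^ n * (p.1 * J₀ ^ n) = I * (Ideal.span {s} * J₀) ^ n := by
      rw [mul_pow]; ring
    rw [e1, e2, hst]
  rw [Ideal.span_singleton_eq_span_singleton] at hideal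
  obtain ⟨u, hu⟩ := hideal.symm
  obtain ⟨u₀, hu₀, u', rfl⟩ := hUdec u
  refine ⟨_, ⟨(u₀, p), ⟨hu₀, hIT, Set.mem_univ _⟩, rfl⟩,
    algebraMap (𝓞 F) F (u' * s) / algebraMap (𝓞 F) F (t * y), ?_, ?_⟩
  · apply div_ne_zero
    · rw [Ne, FaithfulSMul.algebraMap_eq_zero_iff]
      exact mul_ne_zero u'.ne_zero hs
    · rw [Ne, FaithfulSMul.algebraMap_eq_zero_iff]
      exact mul_ne_zero ht hy0
  · have htF : algebraMap (𝓞 F) F t ≠ 0 := by
      rwa [Ne, FaithfulSMul.algebraMap_eq_zero_iff]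
    have hu2 := congrArg (algebraMap (𝓞 F) F) hu
    simp only [map_mul, map_pow, Units.val_mul, Units.val_pow_eq_pow_val] at hu2 ⊢
    rw [ha'F] at hu2
    rw [div_pow, mul_pow, mul_pow, ← mul_div_assoc, eq_div_iff (by positivity)]
    linear_combination - hu2

end Pool.Agent.H11
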