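import Mathlib

set_option autoImplicit false

open scoped Classical

namespace Pool.Agent.H11

variable {k kb : Type*} [Field k] [Field kb] [Algebra k kb] [IsGalois k kb]

/-- a continuous character with values in the base field is given by Kummer theory. -/
theorem kummer (χ : (kb ≃ₐ[k] kb) → kbˣ) (hmul : ∀ σ τ, χ (σ * τ) = χ σ * χ τ)
    (hfix : ∀ σ τ : kb ≃ₐ[k] kb, σ (χ τ : kb) = χ τ)
    (M₀ : IntermediateField k kb) [FiniteDimensional k M₀]
    (h0 : ∀ σ : kb ≃ₐ[k] kb, (∀ x ∈ M₀, σ x = x) → χ σ = 1) :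
    ∃ α : kb, α ≠ 0 ∧ ∀ σ : kb ≃ₐ[k] kb, σ α = χ σ * α := by
  let M : IntermediateField k kb := IntermediateField.normalClosure k M₀ kb
  have hle : M₀ ≤ M := IntermediateField.le_normalClosure M₀
  have hfin : FiniteDimensional k M := normalClosure.is_finiteDimensional k M₀ kb
  have hn : Normal k M := normalClosure.normal k M₀ kb
  have hsep : Algebra.IsSeparable k M := inferInstance
  have hgal : IsGalois k M := { }
  have hc : ∀ τ : kb ≃ₐ[k] kb, ∃ c : k, algebraMap k kb c = χ τ := by
    intro τ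
    have := (InfiniteGalois.mem_bot_iff_fixed (k := k) (χ τ : kb)).mpr (fun σ ↦ hfix σ τ)
    obtain ⟨c, hc⟩ := IntermediateField.mem_bot.mp this
    exact ⟨c, hc⟩
  choose c hc using hc
  have hc0 : ∀ τ, c τ ≠ 0 := by
    intro τ h
    have := hc τ
    rw [h, map_zero] at this
    exact (χ τ).ne_zero this.symm
  have hχ : ∀ σ τ : kb ≃ₐ[k] kb, (∀ x : M, σ x = τ x) → χ σ = χ τ := by
    intro σ τ h
    have h1 : χ (τ⁻¹ * σ) = 1 := by
      apply h0
      intro x hx
      have := h ⟨x, hle hx⟩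
      simp only at this
      rw [AlgEquiv.mul_apply, this]
      exact τ.symm_apply_apply x
    have h2 : σ = τ * (τ⁻¹ * σ) := by group
    rw [h2, hmul, h1, mul_one]
  have hlift : ∀ (s : M ≃ₐ[k] M) (x : M), s.liftNormal kb x = s x := fun s x ↦
    AlgEquiv.liftNormal_commutes s kb x
  let f : (M ≃ₐ[k] M) → Mˣ := fun s ↦
    Units.mk0 (algebraMap k M (c (s.liftNormal kb))) ((map_ne_zero _).mpr (hc0 _))
  have hf : groupCohomology.IsMulCocycle₁ f := by
    intro g h
    have h1 : χ ((g * h).liftNormal kb) = χ (g.liftNormal kb) * χ (h.liftNormal kb) := by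
      rw [← hmul]
      apply hχ
      intro x
      rw [hlift, AlgEquiv.mul_apply, AlgEquiv.mul_apply, hlift, hlift]
    have h2 : c ((g * h).liftNormal kb) = c (g.liftNormal kb) * c (h.liftNormal kb) := by
      apply (algebraMap k kb).injective
      rw [map_mul, hc, hc, hc, h1]
      rfl
    ext
    show ((algebraMap k M (c ((g * h).liftNormal kb)) : M) : kb) =
      ((g (algebraMap k M (c (h.liftNormal kb))) * algebraMap k M (c (g.liftNormal kb)) : M) : kb)
    rw [h2, g.commutes, map_mul, mul_comm]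
  obtain ⟨β, hβ⟩ := groupCohomology.isMulCoboundary₁_of_isMulCocycle₁_of_aut_to_units f hf
  refine ⟨((β : M) : kb), fun h ↦ β.ne_zero (Subtype.ext h), fun σ ↦ ?_⟩
  have h1 : ∀ x : M, ((σ.restrictNormal M x : M) : kb) = σ x := fun x ↦
    AlgEquiv.restrictNormal_commutes σ M x
  have h2 := hβ (σ.restrictNormal M)
  have h3 : σ.restrictNormal M (β : M) = f (σ.restrictNormal M) * β := by
    rw [← h2, Units.val_div_eq_div_val]
    have h5 : (β : M) ≠ 0 := β.ne_zero
    field_simp
    rfl
  rw [← h1, h3]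
  have h4 : χ σ = χ ((σ.restrictNormal M).liftNormal kb) := by
    apply hχ
    intro x
    rw [hlift, h1]
  rw [h4, ← hc]
  rfl

end Pool.Agent.H11
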