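import Mathlib
import Pool.Agent.H11.Good
import Pool.Agent.H11.KSn
import Pool.Agent.H11.Global2
import Pool.Agent.H11.Kummer

set_option autoImplicit false

open scoped Classical

namespace Pool.Agent.H11

open IsDedekindDomain NumberField WeierstrassCurve

variable {K : Type} [Field K] [NumberField K] (W : WeierstrassCurve K) [W.IsElliptic]

/-- cocycles with values in geometric points. -/
def Coc (W : WeierstrassCurve K) (f : Gam K → Pts W) : Prop :=
  ∀ σ τ : Gam K, f (σ * τ) = f σ + act W σ (f τ)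

/-- continuous `n`-torsion valued cocycles which are coboundaries at the places outside a set. -/
def SelSet (n : ℕ) : Set (Gam K → Pts W) :=
  {f | IsLocallyConstant f ∧ Coc W f ∧ (∀ σ, n • f σ = 0) ∧
    ∀ v : HeightOneSpectrum (𝓞 K), GoodVal (v.valuation K) W n →
      ∀ ι : AlgebraicClosure K →ₐ[K] AlgebraicClosure (v.adicCompletion K), LocTriv W f v ι}

omit [NumberField K] [W.IsElliptic] in
lemma Coc.one {f : Gam K → Pts W} (hf : Coc W f) : f 1 = 0 := by
  have := hf 1 1
  rw [mul_one, act_one] at this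
  simpa using this

omit [NumberField K] [W.IsElliptic] in
/-- conjugation. -/
lemma Coc.conj {f : Gam K → Pts W} (hf : Coc W f) {n : ℕ} (hn : ∀ σ, n • f σ = 0) (s σ : Gam K)
    (hσ : ∀ x ∈ Kn W n, σ x = x) (h0 : f σ = 0) : f (s⁻¹ * σ * s) = 0 := by
  rw [hf, hf, h0, map_zero, add_zero, act_mul, act_of_fix W σ hσ (f s) (hn s), ← hf,
    inv_mul_cancel, Coc.one W hf]

/-- an element of `Gal(Kb/K')` as an element of `Gal(Kb/K)`. -/
noncomputable def up (K' : IntermediateField K (AlgebraicClosure K))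
    (s : AlgebraicClosure K ≃ₐ[K'] AlgebraicClosure K) : Gam K := s.restrictScalars K

/-- an element of `Gal(Kb/K)` fixing `K'` as an element of `Gal(Kb/K')`. -/
noncomputable def down (K' : IntermediateField K (AlgebraicClosure K)) (σ : Gam K)
    (h : ∀ x ∈ K', σ x = x) : AlgebraicClosure K ≃ₐ[K'] AlgebraicClosure K :=
  AlgEquiv.ofRingEquiv (f := σ.toRingEquiv) fun x ↦ h x x.2

omit [NumberField K] [W.IsElliptic] in
lemma exists_open {f : Gam K → Pts W} (hf : IsLocallyConstant f) (h1 : f 1 = 0) :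
    ∃ M : IntermediateField K (AlgebraicClosure K), FiniteDimensional K M ∧
      ∀ σ : Gam K, (∀ x ∈ M, σ x = x) → f σ = 0 := by
  have hopen : IsOpen (f ⁻¹' {0}) := hf.isOpen_fiber 0
  have hnhds : f ⁻¹' {0} ∈ nhds (1 : Gam K) := hopen.mem_nhds h1
  rw [krullTopology_mem_nhds_one_iff] at hnhds
  obtain ⟨M, hM, hsub⟩ := hnhds
  exact ⟨M, hM, fun σ hσ ↦ hsub ((IntermediateField.mem_fixingSubgroup_iff M σ).mpr hσ)⟩

/-- the `n`-torsion subgroup. -/
noncomputable def TG (W : WeierstrassCurve K) (n : ℕ) : AddSubgroup (Pts W) :=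
  (nsmulAddMonoidHom (α := Pts W) n).ker

/-- `f` at an element as an element of the `n`-torsion. -/
noncomputable def tf {n : ℕ} (f : Gam K → Pts W) (hn : ∀ σ, n • f σ = 0) (σ : Gam K) :
    Multiplicative (TG W n) := Multiplicative.ofAdd ⟨f σ, hn σ⟩

omit [NumberField K] [W.IsElliptic] in
lemma psi_pow {n : ℕ} (ψ : Multiplicative (TG W n) →* (AlgebraicClosure K)ˣ)
    (x : Multiplicative (TG W n)) : ((ψ x : (AlgebraicClosure K)ˣ) : AlgebraicClosure K) ^ n = 1 := by
  have hx : x ^ n = 1 := by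
    apply Multiplicative.toAdd.injective
    rw [toAdd_pow, toAdd_one]
    ext1
    exact x.toAdd.2
  rw [← Units.val_pow_eq_pow_val, ← map_pow, hx, map_one, Units.val_one]

omit [W.IsElliptic] in
theorem kummer_f {n : ℕ} {f : Gam K → Pts W} (hlc : IsLocallyConstant f)
    (hf : Coc W f) (hn : ∀ σ, n • f σ = 0)
    (ψ : Multiplicative (TG W n) →* (AlgebraicClosure K)ˣ) :
    ∃ α : AlgebraicClosure K, α ≠ 0 ∧ ∀ s : AlgebraicClosure K ≃ₐ[Kn W n] AlgebraicClosure K,
      s α = ψ (tf W f hn (up (Kn W n) s)) * α := by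
  obtain ⟨M₁, hM₁, hM₁f⟩ := exists_open W hlc (Coc.one W hf)
  let S : Set (AlgebraicClosure K) := Set.range (fun i ↦ ((Module.finBasis K M₁ i : M₁) :
    AlgebraicClosure K))
  have hSfin : Finite S := Set.finite_range _
  let M₀ : IntermediateField (Kn W n) (AlgebraicClosure K) := IntermediateField.adjoin (Kn W n) S
  have hM₀ : FiniteDimensional (Kn W n) M₀ :=
    IntermediateField.finiteDimensional_adjoin fun x _ ↦ Algebra.IsIntegral.isIntegral x
  have hgal : IsGalois (Kn W n) (AlgebraicClosure K) := inferInstance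
  apply kummer (fun s ↦ ψ (tf W f hn (up (Kn W n) s))) ?_ ?_ M₀ ?_
  · intro σ τ
    rw [← map_mul]
    congr 1
    apply Multiplicative.toAdd.injective
    ext1
    show f (up _ (σ * τ)) = f (up _ σ) + f (up _ τ)
    have : up (Kn W n) (σ * τ) = up _ σ * up _ τ := rfl
    rw [this, hf, act_of_fix W _ _ _ (hn _)]
    intro x hx
    exact σ.commutes ⟨x, hx⟩
  · intro σ τ
    have := zeta_mem W _ (psi_pow W ψ (tf W f hn (up (Kn W n) τ)))
    exact σ.commutes ⟨_, this⟩
  · intro σ hσ
    have h1 : f (up (Kn W n) σ) = 0 := by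
      apply hM₁f
      intro x hx
      have : x = ∑ i, ((Module.finBasis K M₁).repr ⟨x, hx⟩ i) •
          ((Module.finBasis K M₁ i : M₁) : AlgebraicClosure K) := by
        have h := congrArg M₁.val ((Module.finBasis K M₁).sum_repr ⟨x, hx⟩)
        rw [map_sum] at h
        exact h.symm
      rw [this, map_sum]
      refine Finset.sum_congr rfl fun i _ ↦ ?_
      rw [Algebra.smul_def, map_mul, (up (Kn W n) σ).commutes]
      congr 1
      exact hσ _ (IntermediateField.subset_adjoin _ _ ⟨i, rfl⟩)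
    have h2 : tf W f hn (up (Kn W n) σ) = 1 := by
      apply Multiplicative.toAdd.injective
      ext1
      exact h1
    show ψ _ = 1
    rw [h2, map_one]

omit [W.IsElliptic] in
/-- the `n`-th power of the Kummer generator lies in the splitting field. -/
lemma pow_mem_Kn {n : ℕ} {f : Gam K → Pts W} (hn : ∀ σ, n • f σ = 0)
    (ψ : Multiplicative (TG W n) →* (AlgebraicClosure K)ˣ) (α : AlgebraicClosure K)
    (hα : ∀ s : AlgebraicClosure K ≃ₐ[Kn W n] AlgebraicClosure K,
      s α = ψ (tf W f hn (up (Kn W n) s)) * α) :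
    ∃ a : Kn W n, α ^ n = a := by
  have h := (InfiniteGalois.mem_bot_iff_fixed (k := Kn W n) (α ^ n)).mpr (fun s ↦ by
    rw [map_pow, hα, mul_pow, psi_pow, one_mul])
  obtain ⟨a, ha⟩ := IntermediateField.mem_bot.mp h
  exact ⟨a, ha.symm⟩

theorem cond_q {n : ℕ} (hn0 : n ≠ 0) {f : Gam K → Pts W}
    (hf : Coc W f) (hn : ∀ σ, n • f σ = 0)
    (hloc : ∀ v : HeightOneSpectrum (𝓞 K), GoodVal (v.valuation K) W n →
      ∀ ι : AlgebraicClosure K →ₐ[K] AlgebraicClosure (v.adicCompletion K), LocTriv W f v ι)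
    (ψ : Multiplicative (TG W n) →* (AlgebraicClosure K)ˣ) (α : AlgebraicClosure K) (hα0 : α ≠ 0)
    (hα : ∀ s : AlgebraicClosure K ≃ₐ[Kn W n] AlgebraicClosure K,
      s α = ψ (tf W f hn (up (Kn W n) s)) * α) [NumberField (Kn W n)] (a : Kn W n)
    (ha : α ^ n = a) (q : HeightOneSpectrum (𝓞 (Kn W n)))
    (hq : GoodVal (q.valuation (Kn W n)) (W.baseChange (Kn W n)) n) :
    ∃ c : Kn W n, c ≠ 0 ∧ q.valuation (Kn W n) a = (q.valuation (Kn W n) c) ^ n := by
  have hfin := Kn_finite W n hn0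
  have hnorm := Kn_normal W n
  have hgal : IsGalois K (Kn W n) := { }
  have hqp := q.isPrime
  let v : HeightOneSpectrum (𝓞 K) :=
    ⟨q.asIdeal.under (𝓞 K), inferInstance, Ideal.under_ne_bot (𝓞 K) q.ne_bot⟩
  have hover : q.asIdeal.LiesOver v.asIdeal := ⟨rfl⟩
  have hv : GoodVal (v.valuation K) W n := good_under W v q n hq
  -- a finite normal extension containing everything
  let M₁ : IntermediateField K (AlgebraicClosure K) :=
    IntermediateField.adjoin K (Sn W n ∪ {α})
  have hSf : Finite (Sn W n ∪ {α} : Set (AlgebraicClosure K)) :=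
    ((Sn_finite W n hn0).union (Set.finite_singleton α)).to_subtype
  have hM₁ : FiniteDimensional K M₁ :=
    IntermediateField.finiteDimensional_adjoin fun x _ ↦ Algebra.IsIntegral.isIntegral x
  let M : IntermediateField K (AlgebraicClosure K) :=
    IntermediateField.normalClosure K M₁ (AlgebraicClosure K)
  have hle : M₁ ≤ M := IntermediateField.le_normalClosure M₁
  have hMfin : FiniteDimensional K M := normalClosure.is_finiteDimensional K M₁ (AlgebraicClosure K)
  have hMn : Normal K M := normalClosure.normal K M₁ (AlgebraicClosure K)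
  have hKM : Kn W n ≤ M := by
    refine le_trans ?_ hle
    exact IntermediateField.adjoin.mono K _ _ Set.subset_union_left
  have hαM : α ∈ M := hle (IntermediateField.subset_adjoin K _ (Or.inr rfl))
  have hsM : ∀ s : Gam K, s α ∈ M := by
    intro s
    have := AlgEquiv.restrictNormal_commutes s M ⟨α, hαM⟩
    have h2 : s α = ((s.restrictNormal M ⟨α, hαM⟩ : M) : AlgebraicClosure K) := this.symm
    rw [h2]
    exact (s.restrictNormal M ⟨α, hαM⟩).2
  let ι : AlgebraicClosure K →ₐ[K] AlgebraicClosure (v.adicCompletion K) :=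
    IsAlgClosed.lift
  obtain ⟨V, hV1, hV2⟩ := loc_apply W v n hv ι M hKM f hn (hloc v hv ι)
  have ha0 : a ≠ 0 := by
    rintro rfl
    have : α ^ n ≠ 0 := pow_ne_zero n hα0
    exact this ha
  apply prime_power v (Kn W n) M hKM V hV1 n a ha0 α ha ?_ q
  intro s
  refine ⟨⟨s α, hsM s⟩, rfl, hV2 ⟨s α, hsM s⟩ ?_ ?_⟩
  · intro h
    exact (map_ne_zero s).mpr hα0 (congrArg Subtype.val h)
  · intro σ hσ hfσ
    have hσ' : ∀ x ∈ Kn W n, (s⁻¹ * σ * s) x = x := by
      intro x hx
      have h1 : s x ∈ Kn W n := by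
        have h2 : s x = ((s.restrictNormal (Kn W n) ⟨x, hx⟩ : Kn W n) : AlgebraicClosure K) :=
          (AlgEquiv.restrictNormal_commutes s (Kn W n) ⟨x, hx⟩).symm
        rw [h2]
        exact (s.restrictNormal (Kn W n) ⟨x, hx⟩).2
      rw [AlgEquiv.mul_apply, AlgEquiv.mul_apply, hσ _ h1]
      exact s.symm_apply_apply x
    have h3 := hα (down (Kn W n) (s⁻¹ * σ * s) hσ')
    have h4 : tf W f hn (up (Kn W n) (down (Kn W n) (s⁻¹ * σ * s) hσ')) = 1 := by
      apply Multiplicative.toAdd.injective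
      ext1
      exact Coc.conj W hf hn s σ hσ hfσ
    rw [h4, map_one, Units.val_one, one_mul] at h3
    have h5 : (s⁻¹ * σ * s) α = α := h3
    rw [AlgEquiv.mul_apply, AlgEquiv.mul_apply] at h5
    have h6 := congrArg s h5
    rw [← AlgEquiv.mul_apply, mul_inv_cancel, AlgEquiv.one_apply] at h6
    exact h6

lemma TG_finite (n : ℕ) (hn : n ≠ 0) : Finite (TG W n) :=
  (finite_torsion (W.baseChange (AlgebraicClosure K)) n hn).to_subtype

/-- **Finiteness of the Selmer set.** -/
theorem selSet_finite (n : ℕ) (hn0 : n ≠ 0) : (SelSet W n).Finite := by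
  have hfin := Kn_finite W n hn0
  have hnorm := Kn_normal W n
  have hNF : NumberField (Kn W n) := NumberField.of_module_finite K (Kn W n)
  have hTG := TG_finite W n hn0
  obtain ⟨R, hR, hR0, hRdec⟩ := kSn_finite (F := Kn W n)
    {q | ¬ GoodVal (q.valuation (Kn W n)) (W.baseChange (Kn W n)) n}
    (bad_finite (W.baseChange (Kn W n)) n hn0) n hn0
  have hβ : ∀ r : Kn W n, ∃ β : AlgebraicClosure K, β ^ n = r := fun r ↦
    IsAlgClosed.exists_pow_nat_eq (r : AlgebraicClosure K) (Nat.pos_of_ne_zero hn0)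
  choose β hβ using hβ
  have key : ∀ f : SelSet W n, ∀ ψ : Multiplicative (TG W n) →* (AlgebraicClosure K)ˣ,
      ∃ r : R, ∀ s : AlgebraicClosure K ≃ₐ[Kn W n] AlgebraicClosure K,
        ((ψ (tf W f.1 f.2.2.2.1 (up (Kn W n) s)) : (AlgebraicClosure K)ˣ) : AlgebraicClosure K) =
          s (β r) / β r := by
    rintro ⟨f, hlc, hf, hn, hloc⟩ ψ
    obtain ⟨α, hα0, hα⟩ := kummer_f W hlc hf hn ψ
    obtain ⟨a, ha⟩ := pow_mem_Kn W hn ψ α hα
    have ha0 : a ≠ 0 := by
      rintro rfl
      have : α ^ n ≠ 0 := pow_ne_zero n hα0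
      exact this ha
    obtain ⟨r, hr, b, hb0, hab⟩ := hRdec a ha0 (fun q hq ↦
      cond_q W hn0 hf hn hloc ψ α hα0 hα a ha q (by simpa using hq))
    refine ⟨⟨r, hr⟩, fun s ↦ ?_⟩
    have hr0 : ((r : Kn W n) : AlgebraicClosure K) ≠ 0 := fun h ↦ hR0 r hr (Subtype.ext h)
    have hb0' : ((b : Kn W n) : AlgebraicClosure K) ≠ 0 := fun h ↦ hb0 (Subtype.ext h)
    have hβ0 : β r ≠ 0 := by
      intro h
      have := hβ r
      rw [h, zero_pow hn0] at this
      exact hr0 this.symm
    have hζ : (α / (β r * b)) ^ n = 1 := by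
      rw [div_pow, mul_pow, hβ, ha, hab]
      push_cast
      exact div_self (mul_ne_zero hr0 (pow_ne_zero n hb0'))
    have hζmem := zeta_mem W _ hζ
    have h1 : s (α / (β r * b)) = α / (β r * b) := s.commutes ⟨_, hζmem⟩
    have h2 : s (b : AlgebraicClosure K) = b := s.commutes b
    rw [map_div₀, map_mul, h2, hα] at h1
    have hsβ : s (β r) ≠ 0 := (map_ne_zero s).mpr hβ0
    have h3 := (div_eq_div_iff (mul_ne_zero hsβ hb0') (mul_ne_zero hβ0 hb0')).mp h1
    rw [eq_div_iff hβ0]
    apply mul_right_cancel₀ (mul_ne_zero hα0 hb0')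
    linear_combination h3
  choose ρ hρ using key
  have hΨ : Finite (Multiplicative (TG W n) →* (AlgebraicClosure K)ˣ) := by
    obtain ⟨e⟩ := CommGroup.monoidHom_mulEquiv_of_hasEnoughRootsOfUnity
      (Multiplicative (TG W n)) (AlgebraicClosure K)
    exact Finite.of_equiv _ e.symm.toEquiv
  have hRf : Finite R := hR.to_subtype
  let Φ : SelSet W n → ((Multiplicative (TG W n) →* (AlgebraicClosure K)ˣ) → R) ×
      ((Kn W n ≃ₐ[K] Kn W n) → TG W n) := fun f ↦
    (ρ f, fun t ↦ ⟨f.1 (t.liftNormal (AlgebraicClosure K)), f.2.2.2.1 _⟩)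
  have hΦ : Function.Injective Φ := by
    intro f g hfg
    have h1 : ρ f = ρ g := congrArg Prod.fst hfg
    have h2 : ∀ t : Kn W n ≃ₐ[K] Kn W n, f.1 (t.liftNormal (AlgebraicClosure K)) =
        g.1 (t.liftNormal (AlgebraicClosure K)) := fun t ↦
      congrArg Subtype.val (congrFun (congrArg Prod.snd hfg) t)
    -- agreement on the subgroup
    have h3 : ∀ s : AlgebraicClosure K ≃ₐ[Kn W n] AlgebraicClosure K,
        f.1 (up _ s) = g.1 (up _ s) := by
      intro s
      by_contra hne
      have hne' : tf W f.1 f.2.2.2.1 (up (Kn W n) s) / tf W g.1 g.2.2.2.1 (up (Kn W n) s) ≠ 1 := by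
        intro h
        rw [div_eq_one] at h
        exact hne (congrArg (fun x ↦ ((Multiplicative.toAdd x : TG W n) : Pts W)) h)
      obtain ⟨ψ, hψ⟩ := CommGroup.exists_apply_ne_one_of_hasEnoughRootsOfUnity
        (Multiplicative (TG W n)) (AlgebraicClosure K) hne'
      apply hψ
      rw [map_div, div_eq_one]
      ext
      rw [hρ f ψ s, hρ g ψ s, h1]
    apply Subtype.ext
    funext σ
    have h4 : ∀ x ∈ Kn W n, (((σ.restrictNormal (Kn W n)).liftNormal (AlgebraicClosure K))⁻¹ *
        σ) x = x := by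
      intro x hx
      have h5 : σ x = ((σ.restrictNormal (Kn W n)).liftNormal (AlgebraicClosure K)) x := by
        have e1 := AlgEquiv.restrictNormal_commutes σ (Kn W n) ⟨x, hx⟩
        have e2 := AlgEquiv.liftNormal_commutes (σ.restrictNormal (Kn W n)) (AlgebraicClosure K)
          ⟨x, hx⟩
        exact e1.symm.trans e2.symm
      rw [AlgEquiv.mul_apply, h5]
      exact AlgEquiv.symm_apply_apply _ x
    have h6 : σ = ((σ.restrictNormal (Kn W n)).liftNormal (AlgebraicClosure K)) *
        (((σ.restrictNormal (Kn W n)).liftNormal (AlgebraicClosure K))⁻¹ * σ) := by group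
    rw [h6, f.2.2.1, g.2.2.1, h2]
    congr 2
    exact h3 (down (Kn W n) _ h4)
  have : Finite (SelSet W n) := Finite.of_injective Φ hΦ
  exact Set.toFinite _

end Pool.Agent.H11
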