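import Mathlib
import Pool.Agent.H11.Sel
import Pool.Agent.H10.Sha
import Pool.Agent.H12.Gal

set_option autoImplicit false

open scoped Classical

namespace Pool.Agent.H11

open IsDedekindDomain NumberField WeierstrassCurve

open Pool.Agent.H10 (IsCocycle IsLocTriv IsCobound)

section basic

variable {K : Type} [Field K] (W : WeierstrassCurve K)

/-- the coboundary of a point. -/
noncomputable def cob (Q : Pts W) : Gam K → Pts W := fun σ ↦ act W σ Q - Q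

lemma cob_coc (Q : Pts W) : Coc W (cob W Q) := by
  intro σ τ
  simp only [cob]
  rw [act_mul, map_sub]
  abel

lemma act_nhds (Q : Pts W) : {σ : Gam K | act W σ Q = Q} ∈ nhds (1 : Gam K) :=
  Pool.Agent.H12.fix_nhds W Q

lemma lc_of_coc {f : Gam K → Pts W} (hf : Coc W f) (h : {σ : Gam K | f σ = 0} ∈ nhds (1 : Gam K)) :
    IsLocallyConstant f := by
  rw [IsLocallyConstant.iff_eventually_eq]
  intro σ
  have h2 : Filter.Tendsto (fun τ : Gam K ↦ σ⁻¹ * τ) (nhds σ) (nhds 1) := by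
    have : Continuous (fun τ : Gam K ↦ σ⁻¹ * τ) := continuous_const.mul continuous_id
    have h3 := this.tendsto σ
    simpa using h3
  have h4 := h2.eventually h
  filter_upwards [h4] with τ hτ
  have hτ' : f (σ⁻¹ * τ) = 0 := hτ
  have : τ = σ * (σ⁻¹ * τ) := by group
  rw [this, hf, hτ', map_zero, add_zero]

lemma cob_lc (Q : Pts W) : IsLocallyConstant (cob W Q) := by
  apply lc_of_coc W (cob_coc W Q)
  filter_upwards [act_nhds W Q] with σ hσ
  simp only [cob]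
  have : act W σ Q = Q := hσ
  rw [this, sub_self]

lemma cob_add (P Q : Pts W) (σ : Gam K) : cob W (P + Q) σ = cob W P σ + cob W Q σ := by
  simp only [cob, map_add]
  abel

lemma cob_sub (P Q : Pts W) (σ : Gam K) : cob W (P - Q) σ = cob W P σ - cob W Q σ := by
  simp only [cob, map_sub]
  abel

lemma cob_nsmul (n : ℕ) (P : Pts W) (σ : Gam K) : cob W (n • P) σ = n • cob W P σ := by
  simp only [cob, map_nsmul, nsmul_sub]

lemma Coc.add {f g : Gam K → Pts W} (hf : Coc W f) (hg : Coc W g) : Coc W (fun σ ↦ f σ + g σ) := by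
  intro σ τ
  simp only
  rw [hf, hg, map_add]
  abel

lemma Coc.sub {f g : Gam K → Pts W} (hf : Coc W f) (hg : Coc W g) : Coc W (fun σ ↦ f σ - g σ) := by
  intro σ τ
  simp only
  rw [hf, hg, map_sub]
  abel

lemma Coc.nsmul {f : Gam K → Pts W} (hf : Coc W f) (n : ℕ) : Coc W (fun σ ↦ n • f σ) := by
  intro σ τ
  simp only
  rw [hf, map_nsmul, nsmul_add]

end basic

variable {K : Type} [Field K] [NumberField K] (W : WeierstrassCurve K)

/-- cocycles of the frozen statement. -/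
def IsSha (W : WeierstrassCurve K) (f : Gam K → Pts W) : Prop :=
  IsCocycle K W f ∧ IsLocTriv K W f

lemma isCocycle_iff {f : Gam K → Pts W} : IsCocycle K W f ↔ IsLocallyConstant f ∧ Coc W f :=
  Iff.rfl

lemma IsSha.coc {f : Gam K → Pts W} (h : IsSha W f) : Coc W f := h.1.2

lemma IsSha.lc {f : Gam K → Pts W} (h : IsSha W f) : IsLocallyConstant f := h.1.1

lemma locTriv_sub {f g : Gam K → Pts W} (hf : IsLocTriv K W f) (hg : IsLocTriv K W g) :
    IsLocTriv K W (fun σ ↦ f σ - g σ) := by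
  constructor
  · intro v ι
    obtain ⟨P, hP⟩ := hf.1 v ι
    obtain ⟨Q, hQ⟩ := hg.1 v ι
    refine ⟨P - Q, fun τ σ h ↦ ?_⟩
    rw [map_sub, map_sub, hP τ σ h, hQ τ σ h]
    abel
  · intro v ι
    obtain ⟨P, hP⟩ := hf.2 v ι
    obtain ⟨Q, hQ⟩ := hg.2 v ι
    refine ⟨P - Q, fun τ σ h ↦ ?_⟩
    rw [map_sub, map_sub, hP τ σ h, hQ τ σ h]
    abel

lemma locTriv_add {f g : Gam K → Pts W} (hf : IsLocTriv K W f) (hg : IsLocTriv K W g) :
    IsLocTriv K W (fun σ ↦ f σ + g σ) := by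
  constructor
  · intro v ι
    obtain ⟨P, hP⟩ := hf.1 v ι
    obtain ⟨Q, hQ⟩ := hg.1 v ι
    refine ⟨P + Q, fun τ σ h ↦ ?_⟩
    rw [map_add, map_add, hP τ σ h, hQ τ σ h]
    abel
  · intro v ι
    obtain ⟨P, hP⟩ := hf.2 v ι
    obtain ⟨Q, hQ⟩ := hg.2 v ι
    refine ⟨P + Q, fun τ σ h ↦ ?_⟩
    rw [map_add, map_add, hP τ σ h, hQ τ σ h]
    abel

lemma locTriv_nsmul {f : Gam K → Pts W} (hf : IsLocTriv K W f) (n : ℕ) :
    IsLocTriv K W (fun σ ↦ n • f σ) := by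
  constructor
  · intro v ι
    obtain ⟨P, hP⟩ := hf.1 v ι
    refine ⟨n • P, fun τ σ h ↦ ?_⟩
    rw [map_nsmul, map_nsmul, hP τ σ h, nsmul_sub]
  · intro v ι
    obtain ⟨P, hP⟩ := hf.2 v ι
    refine ⟨n • P, fun τ σ h ↦ ?_⟩
    rw [map_nsmul, map_nsmul, hP τ σ h, nsmul_sub]

lemma cob_locTriv (Q : Pts W) : IsLocTriv K W (cob W Q) := by
  constructor
  · intro v ι
    refine ⟨WeierstrassCurve.Affine.Point.map ι Q, fun τ σ h ↦ ?_⟩
    simp only [cob, act]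
    rw [map_sub, WeierstrassCurve.Affine.Point.map_map, ← h, WeierstrassCurve.Affine.Point.map_map]
  · intro v ι
    refine ⟨WeierstrassCurve.Affine.Point.map ι Q, fun τ σ h ↦ ?_⟩
    simp only [cob, act]
    rw [map_sub, WeierstrassCurve.Affine.Point.map_map, ← h, WeierstrassCurve.Affine.Point.map_map]

lemma cob_isSha (Q : Pts W) : IsSha W (cob W Q) :=
  ⟨⟨cob_lc W Q, cob_coc W Q⟩, cob_locTriv W Q⟩

lemma IsSha.sub {f g : Gam K → Pts W} (hf : IsSha W f) (hg : IsSha W g) :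
    IsSha W (fun σ ↦ f σ - g σ) :=
  ⟨⟨hf.lc.sub hg.lc, hf.coc.sub W hg.coc⟩, locTriv_sub W hf.2 hg.2⟩

lemma IsSha.add {f g : Gam K → Pts W} (hf : IsSha W f) (hg : IsSha W g) :
    IsSha W (fun σ ↦ f σ + g σ) :=
  ⟨⟨hf.lc.add hg.lc, hf.coc.add W hg.coc⟩, locTriv_add W hf.2 hg.2⟩

lemma IsSha.nsmul {f : Gam K → Pts W} (hf : IsSha W f) (n : ℕ) :
    IsSha W (fun σ ↦ n • f σ) :=
  ⟨⟨hf.lc.comp (fun P ↦ n • P), hf.coc.nsmul W n⟩, locTriv_nsmul W hf.2 n⟩

lemma isCobound_iff {f : Gam K → Pts W} :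
    IsCobound K W f ↔ ∃ Q : Pts W, ∀ σ, f σ = cob W Q σ := Iff.rfl

/-- **Finiteness of the `n`-torsion of Ш**. -/
theorem sha_torsion_finite [W.IsElliptic] (n : ℕ) (hn0 : n ≠ 0) :
    ∃ S : Set (Gam K → Pts W), S.Finite ∧ (∀ g ∈ S, IsSha W g) ∧
      ∀ f : Gam K → Pts W, IsSha W f →
      IsCobound K W (fun σ ↦ n • f σ) → ∃ g ∈ S, ∃ Q : Pts W, ∀ σ, f σ = g σ + cob W Q σ := by
  refine ⟨SelSet W n ∩ {g | IsSha W g}, (selSet_finite W n hn0).subset Set.inter_subset_left,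
    fun g hg ↦ hg.2, ?_⟩
  intro f hf ⟨Q, hQ⟩
  obtain ⟨Q', rfl⟩ := smul_surjective (W.baseChange (AlgebraicClosure K)) n hn0 Q
  have hg : IsSha W (fun σ ↦ f σ - cob W Q' σ) := hf.sub W (cob_isSha W Q')
  refine ⟨fun σ ↦ f σ - cob W Q' σ, ⟨⟨hg.lc, hg.coc, ?_, fun v _ ι ↦ hg.2.1 v ι⟩, hg⟩, Q',
    fun σ ↦ ?_⟩
  · intro σ
    have h := hQ σ
    simp only at h
    rw [nsmul_sub, h, ← cob_nsmul]
    simp only [cob, act]
    abel
  · simp

end Pool.Agent.H11
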