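import Mathlib
import Pool.Agent.H11.ShaN
import Pool.Agent.H11.Heights

set_option autoImplicit false

open scoped Classical

namespace Pool.Agent.H11

open IsDedekindDomain NumberField WeierstrassCurve

open Pool.Agent.H10 (IsCocycle IsLocTriv IsCobound)

section basic

variable {K : Type} [Field K] (W : WeierstrassCurve K)

lemma exists_of_act_eq [PerfectField K] (P : Pts W) (hP : ∀ σ : Gam K, act W σ P = P) :
    ∃ R : (W.baseChange K).toAffine.Point,
      WeierstrassCurve.Affine.Point.map (Algebra.ofId K (AlgebraicClosure K)) R = P := by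
  have hfix : ∀ x : AlgebraicClosure K, (∀ σ : Gam K, σ x = x) →
      x ∈ Set.range (Algebra.ofId K (AlgebraicClosure K)) := by
    intro x hx
    have := (InfiniteGalois.mem_bot_iff_fixed (k := K) x).mpr hx
    obtain ⟨a, ha⟩ := IntermediateField.mem_bot.mp this
    exact ⟨a, ha⟩
  apply exists_point_of_coords W (Algebra.ofId K (AlgebraicClosure K)) P
  match P, hP with
  | 0, _ => intro x hx; exact absurd hx (by simp [coordSet])
  | WeierstrassCurve.Affine.Point.some x y h, hP =>
    have h1 : ∀ σ : Gam K, σ x = x ∧ σ y = y := by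
      intro σ
      have := hP σ
      rw [act_some] at this
      exact WeierstrassCurve.Affine.Point.some.inj this
    intro z hz
    rcases hz with rfl | rfl
    · exact hfix _ fun σ ↦ (h1 σ).1
    · exact hfix _ fun σ ↦ (h1 σ).2

lemma act_of_K (R : (W.baseChange K).toAffine.Point) (σ : Gam K) :
    act W σ (WeierstrassCurve.Affine.Point.map (Algebra.ofId K (AlgebraicClosure K)) R) =
      WeierstrassCurve.Affine.Point.map (Algebra.ofId K (AlgebraicClosure K)) R := by
  have : σ.toAlgHom.comp (Algebra.ofId K (AlgebraicClosure K)) =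
      Algebra.ofId K (AlgebraicClosure K) := Subsingleton.elim _ _
  rw [act, WeierstrassCurve.Affine.Point.map_map, this]

end basic

variable {K : Type} [Field K] [NumberField K] (W : WeierstrassCurve K)

/-- weak Mordell-Weil, injection form. -/
theorem exists_inj [W.IsElliptic] (n : ℕ) (hn0 : n ≠ 0) :
    ∃ φ : (W.baseChange K).toAffine.Point → SelSet W n,
      ∀ P₁ P₂, φ P₁ = φ P₂ → ∃ R, P₁ - P₂ = n • R := by
  have h1 : ∀ P : (W.baseChange K).toAffine.Point, ∃ Q : Pts W, n • Q =
      WeierstrassCurve.Affine.Point.map (Algebra.ofId K (AlgebraicClosure K)) P := fun P ↦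
    smul_surjective (W.baseChange (AlgebraicClosure K)) n hn0 _
  choose Q hQ using h1
  have h2 : ∀ P, cob W (Q P) ∈ SelSet W n := by
    intro P
    refine ⟨cob_lc W _, cob_coc W _, fun σ ↦ ?_, fun v _ ι ↦ (cob_locTriv W (Q P)).1 v ι⟩
    rw [← cob_nsmul, hQ, cob, act_of_K, sub_self]
  refine ⟨fun P ↦ ⟨_, h2 P⟩, fun P₁ P₂ h ↦ ?_⟩
  have h3 : cob W (Q P₁) = cob W (Q P₂) := congrArg Subtype.val h
  obtain ⟨R, hR⟩ := exists_of_act_eq W (Q P₁ - Q P₂) (by
    intro σ
    have := congrFun h3 σ
    simp only [cob] at this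
    rw [map_sub, sub_eq_sub_iff_sub_eq_sub.mp this])
  refine ⟨R, ?_⟩
  apply WeierstrassCurve.Affine.Point.map_injective (f := Algebra.ofId K (AlgebraicClosure K))
  rw [map_sub, map_nsmul, hR, nsmul_sub, hQ, hQ]

lemma finiteIndex_of_inj {G : Type*} [AddCommGroup G] {X : Type*} [Finite X] (n : ℕ) (φ : G → X)
    (h : ∀ P₁ P₂, φ P₁ = φ P₂ → ∃ R, P₁ - P₂ = n • R) :
    (nsmulAddMonoidHom (α := G) n).range.FiniteIndex := by
  have : Finite (G ⧸ (nsmulAddMonoidHom (α := G) n).range) := by
    apply Finite.of_injective (fun q ↦ φ q.out)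
    intro a b hab
    obtain ⟨R, hR⟩ := h _ _ hab
    rw [← QuotientAddGroup.out_eq' a, ← QuotientAddGroup.out_eq' b]
    rw [QuotientAddGroup.eq]
    refine ⟨-R, ?_⟩
    have : -Quotient.out a + Quotient.out b = -(Quotient.out a - Quotient.out b) := by abel
    show n • (-R) = _
    rw [this, hR]
    simp
  exact AddSubgroup.finiteIndex_of_finite_quotient

theorem weak_mordell_weil' [W.IsElliptic] (n : ℕ) (hn0 : n ≠ 0) :
    (nsmulAddMonoidHom (α := (W.baseChange K).toAffine.Point) n).range.FiniteIndex := by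
  have : Finite (SelSet W n) := (selSet_finite W n hn0).to_subtype
  obtain ⟨φ, hφ⟩ := exists_inj W n hn0
  exact finiteIndex_of_inj n φ hφ

/-- **Mordell-Weil**. -/
theorem mordell_weil' [W.IsElliptic] : AddGroup.FG (W.baseChange K).toAffine.Point :=
  fg_of_two_finiteIndex (W.baseChange K) (weak_mordell_weil' W 2 (by norm_num))

/-- **Mordell-Weil**. -/
theorem mordell_weil [inst : DecidableEq K] [W.IsElliptic] :
    AddGroup.FG W.toAffine.Point := by
  have h : inst = Classical.decEq K := Subsingleton.elim _ _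
  subst h
  exact mordell_weil' W

end Pool.Agent.H11
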