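import Mathlib

/-!
Matrices of finite order over the p-adic integers which are congruent to one.
-/

set_option autoImplicit false
set_option linter.style.haveILetI false
open scoped Classical

namespace Pool.Agent.H11.DP

/-- `p` if `p` is odd, `4` if `p = 2`, as a power of `p`. -/
def ex (p : ℕ) : ℕ := if p = 2 then 2 else 1

section

variable {p : ℕ} [hp : Fact p.Prime] {c : ℕ}

/-- An element divisible by all powers of `p` is zero. -/
lemma eq_zero_of_eq_mul {z η : Matrix (Fin c) (Fin c) ℤ_[p]} (h : z = (p : ℤ_[p]) • (z * η)) :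
    z = 0 := by
  have h1 : ∀ k : ℕ, ∃ y : Matrix (Fin c) (Fin c) ℤ_[p], z = (p : ℤ_[p]) ^ k • (z * y) := by
    intro k
    induction k with
    | zero => exact ⟨1, by rw [pow_zero, one_smul, mul_one]⟩
    | succ k ih =>
      obtain ⟨y, hy⟩ := ih
      refine ⟨η * y, ?_⟩
      conv_lhs => rw [hy, h]
      rw [smul_mul_assoc, smul_smul, pow_succ, mul_assoc]
  ext i j
  rw [Matrix.zero_apply, ← PadicInt.ext_of_toZModPow]
  intro n
  obtain ⟨y, hy⟩ := h1 n
  rw [hy, Matrix.smul_apply, smul_eq_mul, map_mul, map_pow, map_natCast, map_zero]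
  have h2 : ((p : ZMod (p ^ n))) ^ n = 0 := by
    rw [← Nat.cast_pow, ZMod.natCast_self]
  rw [h2, zero_mul]

lemma pow_expand {R : Type*} [Ring R] (z : R) (n : ℕ) :
    ∃ t : R, (1 + z) ^ n = 1 + n • z + z * z * t := by
  induction n with
  | zero => exact ⟨0, by simp⟩
  | succ n ih =>
    obtain ⟨t, ht⟩ := ih
    refine ⟨n • 1 + t * (1 + z), ?_⟩
    rw [pow_succ, ht, add_smul, one_smul]
    have h1 : n • z * z = n • (z * z) := smul_mul_assoc _ _ _
    have h2 : z * z * (n • 1) = n • (z * z) := by rw [mul_smul_comm, mul_one]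
    rw [mul_add (z * z), h2, mul_add, mul_one, add_mul, add_mul, one_mul, h1]
    noncomm_ring

lemma geom_expand {R : Type*} [Ring R] (z : R) (n : ℕ) :
    ∃ t : R, ∑ i ∈ Finset.range n, (1 + z) ^ i = n • 1 + (∑ i ∈ Finset.range n, i) • z +
      z * z * t := by
  have h1 : ∀ i : ℕ, ∃ t : R, (1 + z) ^ i = 1 + i • z + z * z * t := fun i => pow_expand z i
  choose t ht using h1
  refine ⟨∑ i ∈ Finset.range n, t i, ?_⟩
  simp_rw [ht]
  rw [Finset.sum_add_distrib, Finset.sum_add_distrib, Finset.sum_const, Finset.card_range,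
    Finset.mul_sum, Finset.sum_smul]

/-- A matrix of prime order which is congruent to one modulo `p` (modulo `4` if `p = 2`) is the
identity. -/
theorem eq_one_of_prime_order {q : ℕ} (hq : q.Prime) {X Y : Matrix (Fin c) (Fin c) ℤ_[p]}
    (hX : X ^ q = 1) (hY : X = 1 + ((p : ℤ_[p]) ^ ex p) • Y) : X = 1 := by
  set z : Matrix (Fin c) (Fin c) ℤ_[p] := ((p : ℤ_[p]) ^ ex p) • Y with hz
  have hX1 : (∑ i ∈ Finset.range q, X ^ i) * (X - 1) = 0 := by
    rw [geom_sum_mul, hX, sub_self]
  obtain ⟨t, ht⟩ := geom_expand z q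
  rw [← hY] at ht
  have hcomm : Commute (∑ i ∈ Finset.range q, X ^ i) (X - 1) := by
    apply Commute.sub_right _ (Commute.one_right _)
    exact Commute.sum_left _ _ _ fun i _ => (Commute.refl X).pow_left i
  have hz1 : X - 1 = z := by rw [hY]; abel
  rw [hcomm.eq, hz1, ht] at hX1
  have hz0 : z = 0 := by
    by_cases hqp : q = p
    · subst hqp
      -- the sum is `q (1 + q η)`
      obtain ⟨η, hη⟩ : ∃ η : Matrix (Fin c) (Fin c) ℤ_[q],
          q • 1 + (∑ i ∈ Finset.range q, i) • z + z * z * t = q • (1 + (q : ℤ_[q]) • η) := by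
        by_cases h2 : q = 2
        · subst h2
          refine ⟨Y + ((2 : ℕ) : ℤ_[2]) ^ 2 • (Y * Y * t), ?_⟩
          rw [hz]
          have : ex 2 = 2 := rfl
          rw [this, smul_mul_smul_comm, smul_mul_assoc]
          have h3 : ∑ i ∈ Finset.range 2, i = 1 := rfl
          rw [h3, one_smul, smul_add, smul_add, smul_add, add_assoc]
          congr 1
          simp only [← Nat.cast_smul_eq_nsmul ℤ_[2], smul_smul]
          congr 2
          · norm_num
          · norm_num
        · have he : ex q = 1 := by unfold ex; rw [if_neg h2]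
          obtain ⟨m, hm⟩ : ∃ m, ∑ i ∈ Finset.range q, i = q * m := by
            have h3 := Finset.sum_range_id q
            obtain ⟨m, hm⟩ := (hp.out.even_sub_one h2)
            refine ⟨m, ?_⟩
            rw [h3, hm, ← two_mul, mul_left_comm]
            exact Nat.mul_div_cancel_left _ two_pos
          refine ⟨(m : ℤ_[q]) • Y + (Y * Y * t), ?_⟩
          rw [hz, he, pow_one, smul_mul_smul_comm, smul_mul_assoc, hm, smul_add, smul_add,
            smul_add, add_assoc]
          congr 1
          simp only [← Nat.cast_smul_eq_nsmul ℤ_[q], smul_smul]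
          congr 2
          push_cast
          ring
      rw [hη, mul_smul_comm] at hX1
      have h4 : z * (1 + (q : ℤ_[q]) • η) = 0 := by
        rw [← Nat.cast_smul_eq_nsmul ℤ_[q], smul_eq_zero] at hX1
        rcases hX1 with h | h
        · exact absurd h (Nat.cast_ne_zero.mpr hp.out.ne_zero)
        · exact h
      rw [mul_add, mul_one, mul_smul_comm] at h4
      have h5 : z = (q : ℤ_[q]) • (z * (-η)) := by
        rw [mul_neg, smul_neg]
        exact eq_neg_of_add_eq_zero_left h4
      exact eq_zero_of_eq_mul h5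
    · -- `q` is a unit
      have hu : IsUnit (q : ℤ_[p]) := by
        rw [PadicInt.isUnit_iff]
        have h1 : ¬ (p : ℤ) ∣ (q : ℤ) := by
          intro h
          have h2 : p ∣ q := by exact_mod_cast h
          exact hqp ((Nat.prime_dvd_prime_iff_eq hp.out hq).mp h2).symm
        by_contra h
        have h3 : ‖((q : ℤ) : ℤ_[p])‖ < 1 := by
          rw [Int.cast_natCast]
          exact lt_of_le_of_ne (PadicInt.norm_le_one _) h
        exact h1 (PadicInt.norm_int_lt_one_iff_dvd _ |>.mp h3)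
      obtain ⟨u, hu⟩ := hu
      have hzz : ∃ y : Matrix (Fin c) (Fin c) ℤ_[p], z = (p : ℤ_[p]) • y := by
        refine ⟨((p : ℤ_[p]) ^ (ex p - 1)) • Y, ?_⟩
        rw [hz, smul_smul, ← pow_succ']
        congr 2
        unfold ex
        split_ifs <;> rfl
      obtain ⟨y, hy⟩ := hzz
      obtain ⟨η, hη⟩ : ∃ η : Matrix (Fin c) (Fin c) ℤ_[p],
          (∑ i ∈ Finset.range q, i) • z + z * z * t = (p : ℤ_[p]) • η := by
        refine ⟨(∑ i ∈ Finset.range q, i) • y + y * z * t, ?_⟩
        rw [smul_add]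
        congr 1
        · rw [smul_comm (p : ℤ_[p]), ← hy]
        · rw [← smul_mul_assoc, ← smul_mul_assoc, ← hy]
      rw [add_assoc, hη, mul_add, mul_smul_comm, mul_one] at hX1
      have h5 : z = (p : ℤ_[p]) • (z * (-((u⁻¹ : ℤ_[p]ˣ) : ℤ_[p]) • η)) := by
        have h6 : q • z = (q : ℤ_[p]) • z := (Nat.cast_smul_eq_nsmul _ _ _).symm
        rw [h6, ← hu] at hX1
        have h7 : ((u⁻¹ : ℤ_[p]ˣ) : ℤ_[p]) • ((u : ℤ_[p]) • z + z * (p : ℤ_[p]) • η) = 0 := by
          rw [hX1, smul_zero]
        rw [smul_add, smul_smul, Units.inv_mul, one_smul] at h7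
        have h8 := eq_neg_of_add_eq_zero_left h7
        rw [mul_smul_comm, smul_smul] at h8
        rw [mul_smul_comm, smul_smul, mul_neg, neg_smul, mul_comm (p : ℤ_[p])]
        exact h8
      exact eq_zero_of_eq_mul h5
  rw [hY, hz0, add_zero]

/-- A matrix of finite order which is congruent to one is the identity. -/
theorem eq_one_of_finite_order {n : ℕ} (hn : n ≠ 0) {X Y : Matrix (Fin c) (Fin c) ℤ_[p]}
    (hX : X ^ n = 1) (hY : X = 1 + ((p : ℤ_[p]) ^ ex p) • Y) : X = 1 := by
  by_contra hne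
  have hfo : IsOfFinOrder X := isOfFinOrder_iff_pow_eq_one.mpr ⟨n, Nat.pos_of_ne_zero hn, hX⟩
  have hpos := hfo.orderOf_pos
  have hne1 : orderOf X ≠ 1 := fun h => hne (orderOf_eq_one_iff.mp h)
  obtain ⟨q, hq, hqd⟩ := Nat.exists_prime_and_dvd hne1
  have h1 : (X ^ (orderOf X / q)) ^ q = 1 := by
    rw [← pow_mul, Nat.div_mul_cancel hqd, pow_orderOf_eq_one]
  have h2 : ∀ m : ℕ, ∃ Y' : Matrix (Fin c) (Fin c) ℤ_[p],
      X ^ m = 1 + ((p : ℤ_[p]) ^ ex p) • Y' := by
    intro m
    induction m with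
    | zero => exact ⟨0, by rw [pow_zero, smul_zero, add_zero]⟩
    | succ m ih =>
      obtain ⟨Y', hY'⟩ := ih
      refine ⟨Y' + X ^ m * Y, ?_⟩
      rw [pow_succ]
      conv_lhs => rw [hY, mul_add, mul_one, mul_smul_comm]
      rw [← hY]
      conv_lhs => rw [hY']
      rw [smul_add, ← add_assoc, ← hY']
  obtain ⟨Y', hY'⟩ := h2 (orderOf X / q)
  have h3 := eq_one_of_prime_order hq h1 hY'
  have h4 := orderOf_dvd_of_pow_eq_one h3
  have h5 := Nat.le_of_dvd (Nat.div_pos (Nat.le_of_dvd hpos hqd) hq.pos) h4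
  exact absurd (Nat.div_lt_self hpos hq.one_lt) (not_lt.mpr h5)

/-- Minkowski's bound: the image of a finite group in the matrices over the p-adic integers embeds
into the matrices modulo `p` (modulo `4` if `p = 2`). -/
theorem index_ker_le {G : Type*} [Group G] [Finite G] (M : G →* Matrix (Fin c) (Fin c) ℤ_[p]) :
    M.ker.index ≤ (p ^ ex p) ^ (c ^ 2) := by
  haveI : NeZero (p ^ ex p) := ⟨pow_ne_zero _ hp.out.ne_zero⟩
  let f : G → Matrix (Fin c) (Fin c) (ZMod (p ^ ex p)) :=
    fun g => (M g).map (PadicInt.toZModPow (ex p))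
  have hf : ∀ g h, f g = f h → M g = M h := by
    intro g h hgh
    have h1 : ∀ i j, ∃ y : ℤ_[p], M h i j - M g i j = (p : ℤ_[p]) ^ ex p * y := by
      intro i j
      have h2 := congrFun (congrFun hgh i) j
      have h3 : M h i j - M g i j ∈
          RingHom.ker (PadicInt.toZModPow (ex p) : ℤ_[p] →+* ZMod (p ^ ex p)) := by
        rw [RingHom.mem_ker, map_sub, sub_eq_zero]
        exact h2.symm
      rw [PadicInt.ker_toZModPow, Ideal.mem_span_singleton] at h3
      exact h3
    choose y hy using h1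
    have h2 : M h = M g + ((p : ℤ_[p]) ^ ex p) • Matrix.of y := by
      ext i j
      rw [Matrix.add_apply, Matrix.smul_apply, Matrix.of_apply, smul_eq_mul, ← hy]
      abel
    have h3 : M (g⁻¹ * h) = 1 + ((p : ℤ_[p]) ^ ex p) • (M g⁻¹ * Matrix.of y) := by
      rw [map_mul, h2, mul_add, ← map_mul, inv_mul_cancel, map_one, mul_smul_comm]
    have h4 : M (g⁻¹ * h) ^ (Nat.card G) = 1 := by
      rw [← map_pow, pow_card_eq_one', map_one]
    have h5 := eq_one_of_finite_order (Nat.card_pos.ne') h4 h3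
    have h6 : M g * M (g⁻¹ * h) = M h := by rw [← map_mul, mul_inv_cancel_left]
    rw [← h6, h5, mul_one]
  have hinj : Function.Injective (fun x : G ⧸ M.ker => f x.out) := by
    intro x y hxy
    have h1 := hf _ _ hxy
    rw [← QuotientGroup.out_eq' x, ← QuotientGroup.out_eq' y, QuotientGroup.eq]
    rw [MonoidHom.mem_ker, map_mul, ← h1, ← map_mul, inv_mul_cancel, map_one]
  have h1 := Nat.card_le_card_of_injective _ hinj
  have h2 : Nat.card (Matrix (Fin c) (Fin c) (ZMod (p ^ ex p))) = (p ^ ex p) ^ (c ^ 2) := by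
    rw [Matrix, Nat.card_fun, Nat.card_fun, Nat.card_zmod, Nat.card_fin, ← pow_mul, sq]
  rw [h2] at h1
  exact h1

end

end Pool.Agent.H11.DP
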