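import Mathlib

/-!
A ring homomorphism to the complex numbers from a product of infinitely many prime fields.
-/

set_option autoImplicit false
set_option linter.style.haveILetI false
open scoped Cardinal

namespace Pool.Agent.H11.DP

/-- A field of characteristic zero of cardinality at most the continuum embeds in the complex
numbers. -/
theorem exists_toComplex (k : Type) [Field k] [CharZero k] (hk : #k ≤ 𝔠) :
    Nonempty (k →+* ℂ) := by
  let P := MvPolynomial ℝ k
  let F := FractionRing P
  let Ω := AlgebraicClosure F
  have hP : #P = 𝔠 := by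
    rw [MvPolynomial.cardinalMk_eq_max, Cardinal.mk_real]
    rw [max_eq_right hk, max_eq_left Cardinal.aleph0_le_continuum]
  have hF : #F = 𝔠 := by rw [← hP]; exact Cardinal.mk_fractionRing P
  have hΩ : #Ω = 𝔠 := by
    apply le_antisymm
    · have h1 := Algebra.IsAlgebraic.cardinalMk_le_max F Ω
      rw [hF, max_eq_left Cardinal.aleph0_le_continuum] at h1
      exact h1
    · rw [← hF]
      exact Cardinal.mk_le_of_injective (algebraMap F Ω).injective
  haveI : CharZero P := MvPolynomial.instCharZero ..
  haveI : CharZero F := charZero_of_injective_algebraMap (IsFractionRing.injective P F)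
  haveI : CharZero Ω := charZero_of_injective_algebraMap (algebraMap F Ω).injective
  have he : Nonempty (Ω ≃ ℂ) := by
    rw [← Cardinal.eq, hΩ, Cardinal.mk_complex]
  obtain ⟨e⟩ := IsAlgClosed.ringEquiv_of_equiv_of_charZero (K := Ω) (L := ℂ) (by
    rw [hΩ]; exact Cardinal.aleph0_lt_continuum) he
  exact ⟨(e : Ω →+* ℂ).comp ((algebraMap F Ω).comp ((algebraMap P F).comp MvPolynomial.C))⟩

/-- A homomorphism from an infinite product of distinct prime fields to the complex numbers,
which kills the elements of finite support. -/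
theorem exists_prodHom (S : Set ℕ) (hS : ∀ p ∈ S, p.Prime) (hinf : S.Infinite) :
    ∃ φ : (∀ p : S, ZMod p) →+* ℂ, ∀ f : ∀ p : S, ZMod p, {p : S | f p ≠ 0}.Finite → φ f = 0 := by
  haveI : ∀ p : S, Fact (p : ℕ).Prime := fun p => ⟨hS p p.2⟩
  haveI : Infinite S := hinf.to_subtype
  let R := ∀ p : S, ZMod p
  let I : Ideal R :=
    { carrier := {f | {p : S | f p ≠ 0}.Finite}
      add_mem' := fun {f g} hf hg => by
        refine (Set.Finite.union hf hg).subset fun p hp => ?_
        by_contra hcon
        rw [Set.mem_union, not_or] at hcon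
        apply hp
        rw [Pi.add_apply, not_not.mp hcon.1, not_not.mp hcon.2, add_zero]
      zero_mem' := by
        refine Set.finite_empty.subset fun p hp => hp rfl
      smul_mem' := fun c f hf => by
        refine Set.Finite.subset hf fun p hp => ?_
        intro h0
        apply hp
        change c p * f p = 0
        rw [h0, mul_zero] }
  have hI : I ≠ ⊤ := by
    rw [Ne, Ideal.eq_top_iff_one]
    intro h
    have h1 : {p : S | (1 : R) p ≠ 0}.Finite := h
    have h2 : {p : S | (1 : R) p ≠ 0} = Set.univ := by
      rw [Set.eq_univ_iff_forall]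
      intro p
      change (1 : ZMod p) ≠ 0
      exact one_ne_zero
    rw [h2] at h1
    exact Set.infinite_univ h1
  obtain ⟨m, hm, hIm⟩ := Ideal.exists_le_maximal I hI
  let k := R ⧸ m
  letI : Field k := Ideal.Quotient.field m
  haveI : CharZero k := by
    apply charZero_of_inj_zero
    intro n hn
    by_contra hn0
    -- an inverse
    let g : R := fun p => ((n : ZMod p))⁻¹
    have h1 : (n : R) * g - 1 ∈ I := by
      have h2 : {p : S | (p : ℕ) ∣ n}.Finite := by
        have h3 : {q : ℕ | q ∣ n}.Finite := (Nat.divisors n).finite_toSet.subset fun q hq => by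
          rw [Finset.mem_coe, Nat.mem_divisors]
          exact ⟨hq, hn0⟩
        exact Set.Finite.preimage (f := (Subtype.val : S → ℕ)) (s := {q : ℕ | q ∣ n})
          (Subtype.val_injective.injOn) h3
      refine h2.subset fun p hp => ?_
      by_contra hdiv
      apply hp
      have h4 : (n : ZMod p) ≠ 0 := by
        rw [Ne, ZMod.natCast_eq_zero_iff]
        exact hdiv
      change (n : R) p * ((n : ZMod p))⁻¹ - 1 = 0
      have h5 : (n : R) p = (n : ZMod p) := rfl
      rw [h5, mul_inv_cancel₀ h4, sub_self]
    have h2 : (n : R) ∈ m := by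
      have h3 : (Ideal.Quotient.mk m (n : R)) = 0 := by
        rw [map_natCast]
        exact hn
      exact Ideal.Quotient.eq_zero_iff_mem.mp h3
    apply hm.ne_top
    rw [Ideal.eq_top_iff_one]
    have h3 : (1 : R) = (n : R) * g - ((n : R) * g - 1) := by ring
    rw [h3]
    exact sub_mem (m.mul_mem_right _ h2) (hIm h1)
  have hcard : #k ≤ 𝔠 := by
    have h1 : #k ≤ #R := Cardinal.mk_le_of_surjective (Ideal.Quotient.mk_surjective)
    refine h1.trans ?_
    have h2 : #R ≤ #(S → ℕ) := by
      apply Cardinal.mk_le_of_injective (f := fun f p => (f p).val)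
      intro f g hfg
      funext p
      exact ZMod.val_injective _ (congrFun hfg p)
    refine h2.trans ?_
    rw [← Cardinal.power_def, Cardinal.mk_nat]
    calc ℵ₀ ^ #S ≤ ℵ₀ ^ ℵ₀ := Cardinal.power_le_power_left Cardinal.aleph0_ne_zero
          (Cardinal.mk_le_aleph0)
      _ = 𝔠 := Cardinal.aleph0_power_aleph0
  obtain ⟨e⟩ := exists_toComplex k hcard
  refine ⟨e.comp (Ideal.Quotient.mk m), fun f hf => ?_⟩
  rw [RingHom.comp_apply, Ideal.Quotient.eq_zero_iff_mem.mpr (hIm hf), map_zero]

end Pool.Agent.H11.DP
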