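import Mathlib

/-!
Irreducible subrepresentations and norm elements.
-/

set_option autoImplicit false
set_option linter.style.haveILetI false
open scoped Classical

namespace Pool.Agent.H11.DP

section rep

variable {k G V : Type*} [Field k] [Group G] [AddCommGroup V] [Module k V]
  [FiniteDimensional k V]

/-- A nonzero representation of finite dimension contains an irreducible one. -/
theorem exists_irred [Nontrivial V] (ρ : Representation k G V) :
    ∃ W : Subrepresentation ρ, W.toRepresentation.IsIrreducible := by
  obtain ⟨m, ⟨W, hW, hWm⟩, hmin⟩ := WellFounded.has_min (wellFounded_lt (α := ℕ))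
    {m | ∃ W : Subrepresentation ρ, W.toSubmodule ≠ ⊥ ∧ Module.finrank k W.toSubmodule = m}
    ⟨_, ⊤, by
      change (⊤ : Submodule k V) ≠ ⊥
      exact top_ne_bot, rfl⟩
  refine ⟨W, ?_⟩
  haveI hnt : Nontrivial (Subrepresentation W.toRepresentation) := by
    refine ⟨⊥, ⊤, fun h => ?_⟩
    have h1 := congrArg Subrepresentation.toSubmodule h
    change (⊥ : Submodule k W.toSubmodule) = ⊤ at h1
    rw [Submodule.ne_bot_iff] at hW
    obtain ⟨x, hx, hx0⟩ := hW
    have h2 : (⟨x, hx⟩ : W.toSubmodule) ∈ (⊥ : Submodule k W.toSubmodule) := by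
      rw [h1]; exact Submodule.mem_top
    rw [Submodule.mem_bot] at h2
    exact hx0 (congrArg Subtype.val h2)
  refine ⟨fun U => ?_⟩
  by_cases hU : U.toSubmodule = ⊥
  · left
    exact Subrepresentation.toSubmodule_injective hU
  · right
    let U' : Subrepresentation ρ :=
      { toSubmodule := U.toSubmodule.map W.toSubmodule.subtype
        apply_mem_toSubmodule := by
          rintro g _ ⟨x, hx, rfl⟩
          exact ⟨_, U.apply_mem_toSubmodule g hx, rfl⟩ }
    have h1 : U'.toSubmodule ≠ ⊥ := by
      intro h
      apply hU
      rw [eq_bot_iff]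
      intro u hu
      have h5 : (u : V) ∈ U'.toSubmodule := ⟨u, hu, rfl⟩
      rw [h, Submodule.mem_bot] at h5
      rw [Submodule.mem_bot]
      exact Subtype.ext h5
    have h2 : m ≤ Module.finrank k U'.toSubmodule :=
      not_lt.mp (hmin _ ⟨U', h1, rfl⟩)
    have h3 : U'.toSubmodule ≤ W.toSubmodule := Submodule.map_subtype_le _ _
    have h4 : U'.toSubmodule = W.toSubmodule :=
      Submodule.eq_of_le_of_finrank_le h3 (by rw [hWm]; exact h2)
    apply Subrepresentation.toSubmodule_injective
    change U.toSubmodule = ⊤
    rw [Submodule.eq_top_iff']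
    intro x
    have hx : (x : V) ∈ U'.toSubmodule := by rw [h4]; exact x.2
    obtain ⟨y, hy, hyx⟩ := hx
    have : y = x := Subtype.ext hyx
    rw [← this]
    exact hy

omit [FiniteDimensional k V] in
/-- A nonzero fixed vector shows that the norm element is nonzero. -/
lemma norm_ne_zero [CharZero k] [Finite G] (ρ : Representation k G V) (H : Subgroup G) {w : V}
    (hw : w ≠ 0) (hfix : ∀ h ∈ H, ρ h w = w) [Fintype H] : ∑ h : H, ρ (h : G) ≠ 0 := by
  intro h0
  have h1 := congrArg (fun f : V →ₗ[k] V => f w) h0
  beta_reduce at h1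
  rw [LinearMap.sum_apply, LinearMap.zero_apply] at h1
  have h2 : ∑ h : H, ρ (h : G) w = (Fintype.card H : k) • w := by
    rw [Finset.sum_congr rfl fun (h : H) _ => hfix (h : G) h.2, Finset.sum_const, Finset.card_univ,
      Nat.cast_smul_eq_nsmul]
  rw [h2, smul_eq_zero] at h1
  rcases h1 with h1 | h1
  · exact (Nat.cast_ne_zero.mpr Fintype.card_ne_zero) h1
  · exact hw h1

end rep

section matrep

variable {k G : Type} [Field k] [Group G]

/-- The representation attached to a homomorphism to matrices. -/
noncomputable def repOf {c : ℕ} (M : G →* Matrix (Fin c) (Fin c) k) :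
    Representation k G (Fin c → k) :=
  ((Matrix.toLinAlgEquiv' : Matrix (Fin c) (Fin c) k ≃ₐ[k] _) : Matrix (Fin c) (Fin c) k →* _).comp
      M

lemma repOf_apply {c : ℕ} (M : G →* Matrix (Fin c) (Fin c) k) (g : G) :
    repOf M g = Matrix.toLinAlgEquiv' (M g) := rfl

/-- The dimension of the fixed space of a subgroup. -/
noncomputable def fd {W : Type*} [AddCommGroup W] [Module k W] (σ : Representation k G W)
    (H : Subgroup G) : ℕ :=
  Module.finrank k (Representation.invariants (k := k) (G := H) (V := W) (σ.comp H.subtype))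

/-- From matrices to an irreducible representation. -/
theorem exists_rep {c : ℕ} (hc : c ≠ 0) (M : G →* Matrix (Fin c) (Fin c) k) :
    ∃ (W : Type) (_ : AddCommGroup W) (_ : Module k W) (σ : Representation k G W),
      σ.IsIrreducible ∧ FiniteDimensional k W ∧ Module.finrank k W ≤ c ∧
      (∀ g, M g = 1 → σ g = 1) ∧ ∀ (H : Subgroup G), fd σ H ≤ fd (repOf M) H := by
  haveI : NeZero c := ⟨hc⟩
  obtain ⟨W, hW⟩ := exists_irred (repOf M)
  refine ⟨W.toSubmodule, inferInstance, inferInstance, W.toRepresentation, hW, inferInstance,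
    ?_, ?_, ?_⟩
  · calc _ ≤ Module.finrank k (Fin c → k) := Submodule.finrank_le _
      _ = c := by rw [Module.finrank_fin_fun]
  · intro g hg
    have h1 : repOf M g = 1 := by
      rw [repOf_apply, hg, map_one]
    ext w
    change (repOf M g (w : Fin c → k)) _ = _
    rw [h1]
    rfl
  · intro H
    unfold fd
    let f : Representation.invariants (k := k) (G := H) (V := W.toSubmodule)
        (W.toRepresentation.comp H.subtype) →ₗ[k]
        Representation.invariants (k := k) (G := H) (V := Fin c → k)
          ((repOf M).comp H.subtype) :=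
      { toFun := fun w => ⟨((w : W.toSubmodule) : Fin c → k), fun h => by
          exact congrArg Subtype.val (w.2 h)⟩
        map_add' := fun _ _ => rfl
        map_smul' := fun _ _ => rfl }
    have hf : Function.Injective f := by
      intro v w hvw
      have h1 := congrArg Subtype.val hvw
      exact Subtype.ext (Subtype.ext h1)
    exact LinearMap.finrank_le_finrank_of_injective hf

/-- The dimension of the fixed space is at most the rank of the norm element. -/
theorem fd_le_rank [CharZero k] {c : ℕ} (M : G →* Matrix (Fin c) (Fin c) k) (H : Subgroup G)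
    [Fintype H] : fd (repOf M) H ≤ (∑ h : H, M (h : G)).rank := by
  unfold fd Matrix.rank
  have h1 : Representation.invariants (k := k) (G := H) (V := Fin c → k)
      ((repOf M).comp H.subtype) ≤ LinearMap.range (∑ h : H, M (h : G)).mulVecLin := by
    intro v hv
    refine ⟨((Fintype.card H : k))⁻¹ • v, ?_⟩
    have hv' : ∀ h : H, (M (h : G)).mulVec v = v := fun h => hv h
    have h2 : (∑ h : H, M (h : G)).mulVec v = (Fintype.card H : k) • v := by
      rw [Matrix.sum_mulVec, Finset.sum_congr rfl fun h _ => hv' h, Finset.sum_const,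
        Finset.card_univ, Nat.cast_smul_eq_nsmul]
    rw [Matrix.mulVecLin_apply, Matrix.mulVec_smul, h2, smul_smul, inv_mul_cancel₀, one_smul]
    exact Nat.cast_ne_zero.mpr Fintype.card_ne_zero
  exact Submodule.finrank_mono h1

/-- The trace of the norm element. -/
theorem card_mul_fd {c : ℕ} (M : G →* Matrix (Fin c) (Fin c) k) (H : Subgroup G)
    [Fintype H] (hH : (Fintype.card H : k) ≠ 0) :
    (Fintype.card H : k) * (fd (repOf M) H : k) = ∑ h : H, (M (h : G)).trace := by
  letI : Invertible (Fintype.card H : k) := invertibleOfNonzero hH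
  let ρ : Representation k H (Fin c → k) := (repOf M).comp H.subtype
  have h1 := (Representation.isProj_averageMap ρ).trace
  have h2 : (Fintype.card H : k) • Representation.averageMap ρ = ∑ h : H, ρ h := by
    unfold Representation.averageMap GroupAlgebra.average
    rw [map_smul, smul_smul, mul_invOf_self, one_smul, map_sum]
    refine Finset.sum_congr rfl fun h _ => ?_
    rw [MonoidAlgebra.of_apply, Representation.asAlgebraHom_single, one_smul]
  have h3 := congrArg (LinearMap.trace k (Fin c → k)) h2
  rw [map_smul, map_sum, smul_eq_mul] at h3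
  have h4 : ∀ h : H, LinearMap.trace k (Fin c → k) (ρ h) = (M (h : G)).trace := by
    intro h
    change LinearMap.trace k (Fin c → k) (Matrix.toLin' (M (h : G))) = _
    rw [Matrix.trace_toLin'_eq]
  simp_rw [h4] at h3
  rw [← h3]
  congr 1
  unfold fd
  rw [← h1]

end matrep

end Pool.Agent.H11.DP
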