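import Pool.Agent.H11.DivMat
import Pool.Agent.H11.RepLem
import Pool.Agent.H11.ProdC
import Pool.Agent.H11.Minkowski

/-!
Infinite torsion groups with a finite group action.
-/

set_option autoImplicit false
set_option linter.style.haveILetI false
open scoped Classical

namespace Pool.Agent.H11.DP

/-- The subgroup of elements killed by an integer all of whose prime factors lie in `P`. -/
def Part (A : Type*) [AddCommGroup A] (P : Set ℕ) : AddSubgroup A where
  carrier := {x | ∃ m : ℕ, m ≠ 0 ∧ (∀ q : ℕ, q.Prime → q ∣ m → q ∈ P) ∧ m • x = 0}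
  add_mem' := by
    rintro x y ⟨m, hm, hmP, hmx⟩ ⟨n, hn, hnP, hny⟩
    refine ⟨m * n, mul_ne_zero hm hn, ?_, ?_⟩
    · intro q hq hqd
      rcases hq.dvd_mul.mp hqd with h | h
      · exact hmP q hq h
      · exact hnP q hq h
    · have h1 : (m * n) • x = 0 := by rw [mul_comm, mul_smul, hmx, smul_zero]
      have h2 : (m * n) • y = 0 := by rw [mul_smul, hny, smul_zero]
      rw [smul_add, h1, h2, add_zero]
  zero_mem' := ⟨1, one_ne_zero, fun q hq h => absurd (Nat.dvd_one.mp h) hq.ne_one, smul_zero _⟩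
  neg_mem' := by
    rintro x ⟨m, hm, hmP, hmx⟩
    exact ⟨m, hm, hmP, by rw [smul_neg, hmx, neg_zero]⟩

section

variable {A : Type} [AddCommGroup A]

lemma prim_le_part {P : Set ℕ} {p : ℕ} (hp : p.Prime) (hpP : p ∈ P) : prim A p ≤ Part A P := by
  rintro x ⟨k, hk⟩
  refine ⟨p ^ k, pow_ne_zero _ hp.ne_zero, fun q hq hqd => ?_, hk⟩
  have h1 := hq.dvd_of_dvd_pow hqd
  rw [(Nat.prime_dvd_prime_iff_eq hq hp).mp h1]
  exact hpP

/-- An element killed by a power of `p` is a multiple of any integer prime to `p`. -/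
lemma exists_div_coprime {p n k : ℕ} (hn : Nat.Coprime n p) {x : A} (hx : p ^ k • x = 0) :
    ∃ u : ℤ, n • (u • x) = x := by
  have h1 : IsCoprime (n : ℤ) ((p ^ k : ℕ) : ℤ) :=
    Nat.isCoprime_iff_coprime.mpr (Nat.Coprime.pow_right k hn)
  obtain ⟨a, b, hab⟩ := h1
  refine ⟨a, ?_⟩
  have h2 : ((a * n + b * (p ^ k : ℕ) : ℤ)) • x = x := by rw [hab, one_smul]
  rw [add_smul, mul_smul b, natCast_zsmul, hx, smul_zero, add_zero, mul_comm, mul_smul,
    natCast_zsmul] at h2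
  exact h2

/-- In a divisible primary group every integer multiplication is onto. -/
lemma exists_div_all {p n : ℕ} (hp : p.Prime) (hn : n ≠ 0) (D : AddSubgroup A)
    (hprim : ∀ x ∈ D, ∃ k : ℕ, p ^ k • x = 0) (hdiv : ∀ x ∈ D, ∃ y ∈ D, p • y = x) {x : A}
    (hx : x ∈ D) : ∃ y ∈ D, n • y = x := by
  obtain ⟨e, n', hn', rfl⟩ := Nat.exists_eq_pow_mul_and_not_dvd hn p hp.ne_one
  have hpow : ∀ (e : ℕ) (x : A), x ∈ D → ∃ y ∈ D, p ^ e • y = x := by
    intro e
    induction e with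
    | zero => intro x hx; exact ⟨x, hx, by rw [pow_zero, one_smul]⟩
    | succ e ih =>
      intro x hx
      obtain ⟨y, hy, hyx⟩ := ih x hx
      obtain ⟨z, hz, hzy⟩ := hdiv y hy
      exact ⟨z, hz, by rw [pow_succ, mul_smul, hzy, hyx]⟩
  obtain ⟨y, hy, hyx⟩ := hpow e x hx
  obtain ⟨k, hk⟩ := hprim y hy
  obtain ⟨u, hu⟩ := exists_div_coprime (n := n') (p := p)
    ((Nat.Prime.coprime_iff_not_dvd hp).mpr hn').symm hk
  exact ⟨u • y, zsmul_mem hy u, by rw [mul_smul, hu, hyx]⟩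

/-- A nonzero divisible primary group is not annihilated, and no finite set contains the image of
a homomorphism which is nonzero on it. -/
lemma infinite_image {p : ℕ} (D : AddSubgroup A)
    (hprim : ∀ x ∈ D, ∃ k : ℕ, p ^ k • x = 0) (hdiv : ∀ x ∈ D, ∃ y ∈ D, p • y = x) (e : A →+ A)
    {x : A} (hx : x ∈ D) (hex : e x ≠ 0) : {z | ∃ a ∈ D, e a = z}.Infinite := by
  intro hfin
  -- a uniform exponent
  have h1 : ∀ z ∈ {z | ∃ a ∈ D, e a = z}, ∃ k : ℕ, p ^ k • z = 0 := by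
    rintro _ ⟨a, ha, rfl⟩
    obtain ⟨k, hk⟩ := hprim a ha
    exact ⟨k, by rw [← map_nsmul, hk, map_zero]⟩
  obtain ⟨N, hN⟩ : ∃ N : ℕ, ∀ z ∈ {z | ∃ a ∈ D, e a = z}, p ^ N • z = 0 := by
    choose! k hk using h1
    refine ⟨∑ z ∈ hfin.toFinset, k z, fun z hz => ?_⟩
    have h2 : k z ≤ ∑ z ∈ hfin.toFinset, k z :=
      Finset.single_le_sum (fun _ _ => Nat.zero_le _) (hfin.mem_toFinset.mpr hz)
    obtain ⟨m, hm⟩ := Nat.exists_eq_add_of_le h2
    rw [hm, pow_add, mul_comm, mul_smul, hk z hz, smul_zero]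
  have hpow : ∀ (e : ℕ) (x : A), x ∈ D → ∃ y ∈ D, p ^ e • y = x := by
    intro e
    induction e with
    | zero => intro x hx; exact ⟨x, hx, by rw [pow_zero, one_smul]⟩
    | succ e ih =>
      intro x hx
      obtain ⟨y, hy, hyx⟩ := ih x hx
      obtain ⟨z, hz, hzy⟩ := hdiv y hy
      exact ⟨z, hz, by rw [pow_succ, mul_smul, hzy, hyx]⟩
  obtain ⟨y, hy, hyx⟩ := hpow N x hx
  apply hex
  rw [← hyx, map_nsmul]
  exact hN _ ⟨y, hy, rfl⟩

/-- A finite primary group has a finite exponent. -/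
lemma exists_exp {p : ℕ} (h : (prim A p : Set A).Finite) : ∃ e : ℕ, ∀ x ∈ prim A p,
    p ^ e • x = 0 := by
  have h1 : ∀ z ∈ (prim A p : Set A), ∃ k : ℕ, p ^ k • z = 0 := fun z hz => hz
  choose! k hk using h1
  refine ⟨∑ z ∈ h.toFinset, k z, fun z hz => ?_⟩
  have h2 : k z ≤ ∑ z ∈ h.toFinset, k z :=
    Finset.single_le_sum (fun _ _ => Nat.zero_le _) (h.mem_toFinset.mpr hz)
  obtain ⟨m, hm⟩ := Nat.exists_eq_add_of_le h2
  rw [hm, pow_add, mul_comm, mul_smul, hk z hz, smul_zero]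

/-- If all primary parts are finite and almost all vanish then the group is finite. -/
theorem part_finite {P : Set ℕ} (hP : ∀ p ∈ P, p.Prime)
    (h1 : ∀ p ∈ P, (prim A p : Set A).Finite)
    (h2 : {p ∈ P | ∃ x : A, x ≠ 0 ∧ p • x = 0}.Finite) : (Part A P : Set A).Finite := by
  have hexp : ∀ p ∈ P, ∃ e : ℕ, ∀ x ∈ prim A p, p ^ e • x = 0 := fun p hp => exists_exp (h1 p hp)
  choose! e he using hexp
  let S := h2.toFinset
  have hS : ∀ q, q ∈ S ↔ q ∈ P ∧ ∃ x : A, x ≠ 0 ∧ q • x = 0 := fun q => h2.mem_toFinset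
  let N := ∏ q ∈ S, q ^ e q
  have hN0 : N ≠ 0 := Finset.prod_ne_zero_iff.mpr fun q hq =>
    pow_ne_zero _ (hP q ((hS q).mp hq).1).ne_zero
  -- the order of an element
  have hord : ∀ x ∈ Part A P, addOrderOf x ≠ 0 ∧ ∀ q : ℕ, q.Prime → q ∣ addOrderOf x → q ∈ S := by
    rintro x ⟨m, hm, hmP, hmx⟩
    have h3 : addOrderOf x ∣ m := addOrderOf_dvd_iff_nsmul_eq_zero.mpr hmx
    have h4 : addOrderOf x ≠ 0 := fun h => hm (by rw [h] at h3; exact Nat.eq_zero_of_zero_dvd h3)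
    refine ⟨h4, fun q hq hqd => ?_⟩
    rw [hS]
    refine ⟨hmP q hq (hqd.trans h3), (addOrderOf x / q) • x, ?_, ?_⟩
    · intro h
      have h5 := addOrderOf_dvd_iff_nsmul_eq_zero.mpr h
      have h6 := Nat.le_of_dvd (Nat.div_pos (Nat.le_of_dvd (Nat.pos_of_ne_zero h4) hqd) hq.pos) h5
      exact absurd (Nat.div_lt_self (Nat.pos_of_ne_zero h4) hq.one_lt) (not_lt.mpr h6)
    · rw [← mul_smul, Nat.mul_div_cancel' hqd, addOrderOf_nsmul_eq_zero]
  have hdvd : ∀ x ∈ Part A P, addOrderOf x ∣ N := by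
    intro x hx
    obtain ⟨h4, h5⟩ := hord x hx
    rw [Nat.dvd_iff_prime_pow_dvd_dvd]
    intro q k hq hqk
    rcases Nat.eq_zero_or_pos k with rfl | hk
    · rw [pow_zero]; exact one_dvd _
    have hqS := h5 q hq ((dvd_pow_self q hk.ne').trans hqk)
    have hqP := ((hS q).mp hqS).1
    have h6 : (addOrderOf x / q ^ k) • x ∈ prim A q :=
      ⟨k, by rw [← mul_smul, Nat.mul_div_cancel' hqk, addOrderOf_nsmul_eq_zero]⟩
    have h7 := he q hqP _ h6
    rw [← mul_smul] at h7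
    have h8 := addOrderOf_dvd_iff_nsmul_eq_zero.mpr h7
    have h9 : q ^ k * (addOrderOf x / q ^ k) ∣ q ^ e q * (addOrderOf x / q ^ k) := by
      rwa [Nat.mul_div_cancel' hqk]
    have h10 : 0 < addOrderOf x / q ^ k :=
      Nat.div_pos (Nat.le_of_dvd (Nat.pos_of_ne_zero h4) hqk) (pow_pos hq.pos _)
    exact (Nat.dvd_of_mul_dvd_mul_right h10 h9).trans (Finset.dvd_prod_of_mem _ hqS)
  have hNx : ∀ x ∈ Part A P, N • x = 0 := fun x hx =>
    addOrderOf_dvd_iff_nsmul_eq_zero.mp (hdvd x hx)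
  -- the map to the product
  have hM : ∀ q ∈ S, ∃ M : ℕ, q ^ e q * M = N ∧ ¬ q ∣ M := by
    intro q hq
    refine ⟨∏ r ∈ S.erase q, r ^ e r, Finset.mul_prod_erase S (fun q => q ^ e q) hq, ?_⟩
    intro hd
    obtain ⟨r, hr, hrd⟩ := (Prime.dvd_finsetProd_iff
      ((hP q ((hS q).mp hq).1).prime) _).mp hd
    have h3 := (hP q ((hS q).mp hq).1).dvd_of_dvd_pow hrd
    have h4 := (Nat.prime_dvd_prime_iff_eq (hP q ((hS q).mp hq).1)
      (hP r ((hS r).mp (Finset.mem_of_mem_erase hr)).1)).mp h3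
    exact (Finset.ne_of_mem_erase hr) h4.symm
  choose! M hM1 hM2 using hM
  haveI : ∀ q : S, Finite (prim A (q : ℕ)) := fun q => h1 q ((hS q).mp q.2).1
  let f : Part A P → ∀ q : S, prim A (q : ℕ) := fun x q =>
    ⟨M q • (x : A), e q, by rw [← mul_smul, hM1 q q.2, hNx x x.2]⟩
  have hf : Function.Injective f := by
    intro x y hxy
    have hz : (x : A) - y ∈ Part A P := sub_mem x.2 y.2
    have h3 : ∀ q ∈ S, M q • ((x : A) - y) = 0 := by
      intro q hq
      have h4 := congrArg Subtype.val (congrFun hxy ⟨q, hq⟩)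
      change M q • (x : A) = M q • (y : A) at h4
      rw [smul_sub, h4, sub_self]
    apply Subtype.ext
    rw [← sub_eq_zero, ← AddMonoid.addOrderOf_eq_one_iff]
    by_contra hne
    obtain ⟨q, hq, hqd⟩ := Nat.exists_prime_and_dvd hne
    have hqS := (hord _ hz).2 q hq hqd
    exact hM2 q hqS (hqd.trans (addOrderOf_dvd_iff_nsmul_eq_zero.mpr (h3 q hqS)))
  haveI : Finite (Part A P) := Finite.of_injective f hf
  exact Set.toFinite _

end

section main

variable {G : Type} [Group G] [Finite G] {A : Type} [AddCommGroup A]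
  (act : G →* AddMonoid.End A) (P : Set ℕ)

/-- The norm element of a subgroup. -/
noncomputable def nu (H : Subgroup G) : AddMonoid.End A := ∑ᶠ h : H, act (h : G)

omit [Finite G] in
lemma nu_eq (H : Subgroup G) [Fintype H] : nu act H = ∑ h : H, act (h : G) :=
  finsum_eq_sum_of_fintype _

omit [Finite G] in
lemma nu_apply (H : Subgroup G) [Fintype H] (x : A) : nu act H x = ∑ h : H, act (h : G) x := by
  rw [nu_eq]
  exact AddMonoidHom.finsetSum_apply _ _ _

variable (B : Subgroup G → Type) [∀ H, AddCommGroup (B H)]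

/-- An irreducible p-adic representation controlling the coranks. -/
def GoodP (p : ℕ) [Fact p.Prime] : Prop :=
  ∃ (W : Type) (_ : AddCommGroup W) (_ : Module ℚ_[p] W) (σ : Representation ℚ_[p] G W),
    σ.IsIrreducible ∧ FiniteDimensional ℚ_[p] W ∧
    (∀ n : ℕ, n ≠ 0 → p ^ Module.finrank ℚ_[p] W ≤ {x : A | p • x = 0 ∧ ∃ y, n • y = x}.ncard) ∧
    (∀ H : Subgroup G, ∀ n : ℕ, n ≠ 0 →
      p ^ fd σ H ≤ {x : B H | p • x = 0 ∧ ∃ y, n • y = x}.ncard) ∧
    ∀ n d : ℕ, n ≠ 0 → {x : A | p • x = 0 ∧ ∃ y, n • y = x}.ncard ≤ p ^ d →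
      σ.ker.index ≤ (p ^ ex p) ^ (d ^ 2)

/-- The `p`-torsion of a divisible primary subgroup is contained in that of every multiple. -/
lemma ncard_le_of_div {A : Type} [AddCommGroup A] {p : ℕ} (hp : p.Prime)
    (hfin : {x : A | p • x = 0}.Finite) (D : AddSubgroup A)
    (hprim : ∀ x ∈ D, ∃ k : ℕ, p ^ k • x = 0) (hdiv : ∀ x ∈ D, ∃ y ∈ D, p • y = x) {c : ℕ}
    (hc : {y : D | p • y = 0}.ncard = p ^ c) {n : ℕ} (hn : n ≠ 0) :
    p ^ c ≤ {x : A | p • x = 0 ∧ ∃ y, n • y = x}.ncard := by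
  rw [← hc, ← Set.ncard_image_of_injective _ (Subtype.val_injective : Function.Injective
    (Subtype.val : D → A))]
  apply Set.ncard_le_ncard
  · rintro _ ⟨y, hy, rfl⟩
    refine ⟨congrArg Subtype.val hy, ?_⟩
    obtain ⟨z, _, hz⟩ := exists_div_all hp hn D hprim hdiv y.2
    exact ⟨z, hz⟩
  · exact hfin.subset fun x hx => hx.1

/-- The case of an infinite primary part. -/
theorem good_padic (f : ∀ H, A →+ B H) (g : ∀ H, B H →+ A) (hfg : ∀ H x, g H (f H x) = nu act H x)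
    (p : ℕ) [hp : Fact p.Prime] (hfin : {x : A | p • x = 0}.Finite)
    (hfinB : ∀ H, {x : B H | p • x = 0}.Finite)
    (hinf : (prim A p : Set A).Infinite) : GoodP (A := A) B p := by
  obtain ⟨k₀, hk₀⟩ := exists_div p hfin
  let D : AddSubgroup A := (prim A p).map (nsmulAddMonoidHom (p ^ k₀))
  have hD : ∀ x, x ∈ D ↔ ∃ y ∈ prim A p, p ^ k₀ • y = x := fun x => Iff.rfl
  have hDprim : D ≤ prim A p := by
    rintro _ ⟨y, hy, rfl⟩
    exact (prim A p).nsmul_mem hy _
  have hDdiv : ∀ x ∈ D, ∃ y ∈ D, p • y = x := by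
    intro x hx
    obtain ⟨y, hy, rfl⟩ := (hD x).mp hx
    obtain ⟨z, hz, hzy⟩ := hk₀ y hy
    exact ⟨p ^ k₀ • z, (hD _).mpr ⟨z, hz, rfl⟩, hzy⟩
  have hprimE : ∀ (e : A →+ A) (x : A), x ∈ prim A p → e x ∈ prim A p := by
    rintro e x ⟨k, hk⟩
    exact ⟨k, by rw [← map_nsmul, hk, map_zero]⟩
  have hDE : ∀ (e : A →+ A) (x : A), x ∈ D → e x ∈ D := by
    intro e x hx
    obtain ⟨y, hy, rfl⟩ := (hD x).mp hx
    exact (hD _).mpr ⟨e y, hprimE e y hy, by rw [map_nsmul]⟩
  -- restriction of endomorphisms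
  let r : AddMonoid.End A →+* AddMonoid.End D :=
    { toFun := fun e => ((e : A →+ A).comp D.subtype).codRestrict D (fun x => hDE e x x.2)
      map_one' := by ext x; rfl
      map_mul' := fun e f => by ext x; rfl
      map_zero' := by ext x; rfl
      map_add' := fun e f => by ext x; rfl }
  have hr : ∀ (e : AddMonoid.End A) (x : D), (r e x : A) = e x := fun _ _ => rfl
  have hprim' : ∀ x : D, ∃ k : ℕ, p ^ k • x = 0 := by
    intro x
    obtain ⟨k, hk⟩ := hDprim x.2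
    exact ⟨k, Subtype.ext hk⟩
  have hdiv' : ∀ x : D, ∃ y : D, p • y = x := by
    intro x
    obtain ⟨y, hy, hyx⟩ := hDdiv x x.2
    exact ⟨⟨y, hy⟩, Subtype.ext hyx⟩
  have hfin' : {x : D | p • x = 0}.Finite := by
    refine Set.Finite.subset (Set.Finite.preimage (f := (Subtype.val : D → A))
      (Subtype.val_injective.injOn) hfin) fun x hx => ?_
    exact congrArg Subtype.val hx
  obtain ⟨c, x, hc, hch⟩ := exists_chain p hdiv' hfin'
  letI : Module ℤ_[p] D := modZp p hprim'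
  let μ : AddMonoid.End A →+* Matrix (Fin c) (Fin c) ℚ_[p] :=
    ((algebraMap ℤ_[p] ℚ_[p]).mapMatrix).comp ((matHom hch hprim').comp r)
  -- the group is not zero
  obtain ⟨x₀, hx₀, hx₀0⟩ : ∃ x₀ ∈ D, x₀ ≠ 0 := by
    by_contra hcon
    push Not at hcon
    apply hinf
    refine (fin_tors p hfin k₀).subset fun y hy => ?_
    exact hcon _ ((hD _).mpr ⟨y, hy, rfl⟩)
  have hc0 : c ≠ 0 := by
    rintro rfl
    rw [pow_zero, Set.ncard_eq_one] at hc
    obtain ⟨a, ha⟩ := hc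
    have h0 : (0 : D) ∈ {y : D | p • y = 0} := smul_zero _
    -- every element killed by `p` is zero
    have h1 : ∀ y : D, p • y = 0 → y = 0 := by
      intro y hy
      have h2 : y ∈ {y : D | p • y = 0} := hy
      rw [ha, Set.mem_singleton_iff] at h0 h2
      rw [h2, h0]
    have h3 : ∀ (k : ℕ) (y : D), p ^ k • y = 0 → y = 0 := by
      intro k
      induction k with
      | zero => intro y hy; rwa [pow_zero, one_smul] at hy
      | succ k ih =>
        intro y hy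
        rw [pow_succ, mul_smul] at hy
        exact h1 y (ih _ hy)
    obtain ⟨k, hk⟩ := hprim' ⟨x₀, hx₀⟩
    exact hx₀0 (congrArg Subtype.val (h3 k _ hk))
  have hcA : ∀ n : ℕ, n ≠ 0 → p ^ c ≤ {x : A | p • x = 0 ∧ ∃ y, n • y = x}.ncard :=
    fun n hn => ncard_le_of_div hp.out hfin D (fun x hx => hDprim hx) hDdiv hc hn
  let MQ : G →* Matrix (Fin c) (Fin c) ℚ_[p] :=
    (μ : AddMonoid.End A →* Matrix (Fin c) (Fin c) ℚ_[p]).comp act
  obtain ⟨W, iW, mW, σ, hirr, hfd, hle, hker, hH⟩ := exists_rep (k := ℚ_[p]) hc0 MQ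
  refine ⟨W, iW, mW, σ, hirr, hfd, ?_, ?_, ?_⟩
  · intro n hn
    exact (Nat.pow_le_pow_right hp.out.pos hle).trans (hcA n hn)
  · intro H n hn
    haveI : Fintype H := Fintype.ofFinite H
    -- the image of the divisible group
    let D' : AddSubgroup (B H) := D.map (f H)
    have hD'prim : ∀ y ∈ D', ∃ k : ℕ, p ^ k • y = 0 := by
      rintro _ ⟨y, hy, rfl⟩
      obtain ⟨k, hk⟩ := hDprim hy
      exact ⟨k, by rw [← map_nsmul, hk, map_zero]⟩
    have hD'div : ∀ y ∈ D', ∃ z ∈ D', p • z = y := by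
      rintro _ ⟨y, hy, rfl⟩
      obtain ⟨z, hz, hzy⟩ := hDdiv y hy
      exact ⟨f H z, ⟨z, hz, rfl⟩, by rw [← map_nsmul, hzy]⟩
    have hprim'' : ∀ x : D', ∃ k : ℕ, p ^ k • x = 0 := by
      intro x
      obtain ⟨k, hk⟩ := hD'prim x x.2
      exact ⟨k, Subtype.ext hk⟩
    have hdiv'' : ∀ x : D', ∃ y : D', p • y = x := by
      intro x
      obtain ⟨y, hy, hyx⟩ := hD'div x x.2
      exact ⟨⟨y, hy⟩, Subtype.ext hyx⟩
    have hfin'' : {x : D' | p • x = 0}.Finite := by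
      refine Set.Finite.subset (Set.Finite.preimage (f := (Subtype.val : D' → B H))
        (Subtype.val_injective.injOn) (hfinB H)) fun x hx => ?_
      exact congrArg Subtype.val hx
    obtain ⟨c', x', hc', hch'⟩ := exists_chain p hdiv'' hfin''
    letI : Module ℤ_[p] D' := modZp p hprim''
    let f' : D →+ D' := ((f H).comp D.subtype).codRestrict D' (fun x => ⟨x, x.2, rfl⟩)
    let g' : D' →+ D := ((g H).comp D'.subtype).codRestrict D (fun y => by
      obtain ⟨y, z, hz, hzy⟩ := y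
      change g H y ∈ D
      rw [← hzy, hfg]
      exact hDE (nu act H) z hz)
    have hgf : g'.comp f' = r (nu act H) := by
      ext z
      exact hfg H z
    have h1 : (∑ h : H, MQ (h : G)).rank ≤ c' := by
      have h2 : ∑ h : H, MQ (h : G) = μ (nu act H) := by
        rw [nu_eq, map_sum]
        rfl
      rw [h2]
      have h3 := rank_le_of_factor hch hch' hprim' hprim'' f' g'
      rw [hgf] at h3
      exact h3
    have h4 : fd σ H ≤ c' := (hH H).trans ((fd_le_rank MQ H).trans h1)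
    exact (Nat.pow_le_pow_right hp.out.pos h4).trans
      (ncard_le_of_div hp.out (hfinB H) D' hD'prim hD'div hc' hn)
  · intro n d hn h1
    have hcd : c ≤ d := (Nat.pow_le_pow_iff_right hp.out.one_lt).mp ((hcA n hn).trans h1)
    let M : G →* Matrix (Fin c) (Fin c) ℤ_[p] :=
      ((((matHom hch hprim').comp r : AddMonoid.End A →+* Matrix (Fin c) (Fin c) ℤ_[p]) :
        AddMonoid.End A →* Matrix (Fin c) (Fin c) ℤ_[p])).comp act
    have hMk : M.ker ≤ σ.ker := by
      intro g hg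
      rw [MonoidHom.mem_ker] at hg ⊢
      apply hker
      change ((algebraMap ℤ_[p] ℚ_[p]).mapMatrix) (M g) = 1
      rw [hg, map_one]
    haveI : M.ker.FiniteIndex := inferInstance
    calc σ.ker.index ≤ M.ker.index :=
          Nat.le_of_dvd (Nat.pos_of_ne_zero Subgroup.FiniteIndex.index_ne_zero)
            (Subgroup.index_dvd_of_le hMk)
      _ ≤ (p ^ ex p) ^ (c ^ 2) := index_ker_le M
      _ ≤ (p ^ ex p) ^ (d ^ 2) := Nat.pow_le_pow_right
          (pow_pos hp.out.pos _) (Nat.pow_le_pow_left hcd 2)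

end main

end Pool.Agent.H11.DP
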