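import Pool.Agent.H11.Absr

/-!
Infinite torsion groups with a finite group action: the case of infinitely many primes.
-/

set_option autoImplicit false
set_option linter.style.haveILetI false
open scoped Classical

namespace Pool.Agent.H11.DP

section one

variable {G : Type} [Group G] {A : Type} [AddCommGroup A]
  (act : G →* AddMonoid.End A)

/-- Matrices over the prime field from a finite stable subgroup killed by `p`. -/
lemma exists_matrix_of_stable (p : ℕ) [hp : Fact p.Prime] (hfin : {x : A | p • x = 0}.Finite)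
    (T : AddSubgroup A) [Finite T] (hpT : ∀ x ∈ T, p • x = 0)
    [Module (ZMod p) T] (hT : ∀ g, ∀ x ∈ T, act g x ∈ T) :
    ∃ (c : ℕ) (M : G →* Matrix (Fin c) (Fin c) (ZMod p)), Nat.card T = p ^ c ∧
      ∀ H : Subgroup G,
        p ^ fd (repOf M) H ≤ {x : A | p • x = 0 ∧ ∀ h ∈ H, act h x = x}.ncard := by
  haveI : Module.Finite (ZMod p) T := Module.Finite.of_finite
  let b : Module.Basis (Fin (Module.finrank (ZMod p) T)) (ZMod p) T := Module.finBasis (ZMod p) T
  let r : G →* Module.End (ZMod p) T :=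
    { toFun := fun g => AddMonoidHom.toZModLinearMap p
        (((act g : A →+ A).comp T.subtype).codRestrict T (fun x => hT g x x.2))
      map_one' := by
        ext x
        change act 1 (x : A) = x
        rw [map_one]
        rfl
      map_mul' := fun g h => by
        ext x
        change act (g * h) (x : A) = act g (act h x)
        rw [map_mul]
        rfl }
  have hr : ∀ g (x : T), (r g x : A) = act g x := fun _ _ => rfl
  let M : G →* Matrix (Fin (Module.finrank (ZMod p) T)) (Fin (Module.finrank (ZMod p) T)) (ZMod p) :=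
    (LinearMap.toMatrixAlgEquiv b : Module.End (ZMod p) T →* _).comp r
  refine ⟨Module.finrank (ZMod p) T, M, ?_, ?_⟩
  · have h1 : Nat.card T = Nat.card (ZMod p) ^ Module.finrank (ZMod p) T :=
      Module.natCard_eq_pow_finrank (K := ZMod p) (V := T)
    rwa [Nat.card_zmod] at h1
  · intro H
    let I := Representation.invariants (k := ZMod p) (G := H) (V := Fin (Module.finrank (ZMod p) T)
      → ZMod p) ((repOf M).comp H.subtype)
    have hI : Nat.card I = p ^ fd (repOf M) H := by
      have h1 : Nat.card I = Nat.card (ZMod p) ^ Module.finrank (ZMod p) I :=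
        Module.natCard_eq_pow_finrank (K := ZMod p) (V := I)
      rwa [Nat.card_zmod] at h1
    rw [← hI]
    -- the embedding into the fixed points
    have hfix : ∀ v : I, ∀ h ∈ H, r h (b.equivFun.symm v) = b.equivFun.symm v := by
      rintro ⟨v, hv⟩ h hh
      have h1 : (M h).mulVec v = v := hv ⟨h, hh⟩
      have h2 : b.equivFun (r h (b.equivFun.symm v)) = (M h).mulVec v := by
        have h3 := LinearMap.toMatrix_mulVec_repr b b (r h) (b.equivFun.symm v)
        have h4 : (b.repr (b.equivFun.symm v) : Fin _ → ZMod p) = v :=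
          b.equivFun.apply_symm_apply v
        have h5 : b.equivFun (r h (b.equivFun.symm v)) = b.repr (r h (b.equivFun.symm v)) := rfl
        rw [h5, ← h3, h4]
        rfl
      apply b.equivFun.injective
      rw [h2, h1]
      exact (b.equivFun.apply_symm_apply v).symm
    let F : I → {x : A | p • x = 0 ∧ ∀ h ∈ H, act h x = x} := fun v =>
      ⟨(b.equivFun.symm v : T), hpT _ (b.equivFun.symm v).2, fun h hh => by
        rw [← hr, hfix v h hh]⟩
    haveI : Finite {x : A | p • x = 0 ∧ ∀ h ∈ H, act h x = x} :=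
      (hfin.subset fun x hx => hx.1)
    have hF : Function.Injective F := by
      intro v w hvw
      have h1 := congrArg Subtype.val hvw
      exact Subtype.ext (b.equivFun.symm.injective (Subtype.ext h1))
    exact Nat.card_le_card_of_injective F hF

/-- One prime: a nonzero stable subgroup of the `p`-torsion of rank at most the order of `G`. -/
theorem exists_matrix [Finite G] (p : ℕ) [hp : Fact p.Prime] (hfin : {x : A | p • x = 0}.Finite)
    (hne : ∃ x : A, x ≠ 0 ∧ p • x = 0) :
    ∃ (c : ℕ) (M : G →* Matrix (Fin c) (Fin c) (ZMod p)), c ≠ 0 ∧ c ≤ Nat.card G ∧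
      p ^ c ≤ {x : A | p • x = 0}.ncard ∧
      ∀ H : Subgroup G,
        p ^ fd (repOf M) H ≤ {x : A | p • x = 0 ∧ ∀ h ∈ H, act h x = x}.ncard := by
  obtain ⟨x₀, hx₀, hpx⟩ := hne
  haveI : Fintype G := Fintype.ofFinite G
  let Ψ : (G → ℤ) →+ A :=
    { toFun := fun a => ∑ g, a g • act g x₀
      map_zero' := by simp
      map_add' := fun a b => by
        rw [← Finset.sum_add_distrib]
        exact Finset.sum_congr rfl fun g _ => add_smul _ _ _ }
  have hΨ : ∀ a, Ψ a = ∑ g, a g • act g x₀ := fun _ => rfl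
  let T : AddSubgroup A := Ψ.range
  have hpT : ∀ x ∈ T, p • x = 0 := by
    rintro _ ⟨a, rfl⟩
    rw [hΨ, Finset.smul_sum]
    refine Finset.sum_eq_zero fun g _ => ?_
    rw [smul_comm, ← map_nsmul, hpx, map_zero, smul_zero]
  have hx₀T : x₀ ∈ T := by
    refine ⟨Pi.single 1 1, ?_⟩
    rw [hΨ, Finset.sum_eq_single 1]
    · rw [Pi.single_eq_same, one_smul, map_one]; rfl
    · intro g _ hg
      rw [Pi.single_eq_of_ne hg, zero_smul]
    · intro h; exact absurd (Finset.mem_univ _) h
  have hTG : ∀ g, ∀ x ∈ T, act g x ∈ T := by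
    rintro g _ ⟨a, rfl⟩
    refine ⟨fun h => a (g⁻¹ * h), ?_⟩
    rw [hΨ, hΨ, map_sum]
    refine Fintype.sum_bijective (fun h => g⁻¹ * h) (Group.mulLeft_bijective g⁻¹) _ _ fun h => ?_
    rw [map_zsmul]
    congr 1
    have h1 : act g (act (g⁻¹ * h) x₀) = (act g * act (g⁻¹ * h)) x₀ := rfl
    rw [h1, ← map_mul, mul_inv_cancel_left]
  haveI : Finite T := by
    have : (T : Set A).Finite := hfin.subset fun x hx => hpT x hx
    exact this
  letI : Module (ZMod p) T := AddCommGroup.zmodModule (fun x => Subtype.ext (hpT x x.2))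
  obtain ⟨c, M, hc, hM⟩ := exists_matrix_of_stable act p hfin T hpT hTG
  refine ⟨c, M, ?_, ?_, ?_, hM⟩
  · rintro rfl
    rw [pow_zero, Nat.card_eq_one_iff_unique] at hc
    haveI := hc.1
    exact hx₀ (congrArg Subtype.val (Subsingleton.elim (⟨x₀, hx₀T⟩ : T) 0))
  · -- the bound by the order of the group
    let f : (G → Fin p) → T := fun a => ⟨Ψ (fun g => ((a g : ℕ) : ℤ)), _, rfl⟩
    have hf : Function.Surjective f := by
      rintro ⟨_, a, rfl⟩
      have hlt : ∀ g, ((a g) % p).toNat < p := by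
        intro g
        have h1 := Int.emod_lt_of_pos (a g) (by exact_mod_cast hp.out.pos : (0 : ℤ) < p)
        have h2 := Int.emod_nonneg (a g) (by exact_mod_cast hp.out.ne_zero : (p : ℤ) ≠ 0)
        omega
      refine ⟨fun g => ⟨((a g) % p).toNat, hlt g⟩, ?_⟩
      apply Subtype.ext
      change Ψ _ = Ψ a
      rw [hΨ, hΨ]
      refine Finset.sum_congr rfl fun g _ => ?_
      have h2 := Int.emod_nonneg (a g) (by exact_mod_cast hp.out.ne_zero : (p : ℤ) ≠ 0)
      change ((((a g) % p).toNat : ℕ) : ℤ) • act g x₀ = a g • act g x₀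
      rw [Int.toNat_of_nonneg h2]
      have h3 : a g = a g % p + p * (a g / p) := (Int.emod_add_mul_ediv (a g) p).symm
      conv_rhs => rw [h3]
      rw [add_smul, mul_comm, mul_smul, natCast_zsmul, ← map_nsmul, hpx, map_zero, smul_zero,
        add_zero]
    have h1 := Nat.card_le_card_of_surjective f hf
    rw [hc, Nat.card_fun, Nat.card_fin] at h1
    exact (Nat.pow_le_pow_iff_right hp.out.one_lt).mp h1
  · rw [← hc]
    change (T : Set A).ncard ≤ _
    exact Set.ncard_le_ncard (fun x hx => hpT x hx) hfin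

end one

section many

variable {G : Type} [Group G] [Finite G] {A : Type} [AddCommGroup A]
  (act : G →* AddMonoid.End A) (P : Set ℕ) (B : Subgroup G → Type) [∀ H, AddCommGroup (B H)]

/-- An irreducible complex representation controlling the ranks of the `p`-torsion for infinitely
many `p`. -/
def GoodC : Prop :=
  ∃ (W : Type) (_ : AddCommGroup W) (_ : Module ℂ W) (σ : Representation ℂ G W),
    σ.IsIrreducible ∧ FiniteDimensional ℂ W ∧
    ∃ Q ⊆ P, Q.Infinite ∧ ∀ p ∈ Q, p ^ Module.finrank ℂ W ≤ {x : A | p • x = 0}.ncard ∧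
      ∀ H : Subgroup G, p ^ fd σ H ≤ {x : B H | p • x = 0}.ncard

/-- The case of infinitely many primes. -/
theorem good_complex (f : ∀ H, A →+ B H) (g : ∀ H, B H →+ A)
    (hfg : ∀ H x, g H (f H x) = nu act H x)
    (hP : ∀ p ∈ P, p.Prime) (hfin : ∀ p ∈ P, {x : A | p • x = 0}.Finite)
    (hfinB : ∀ p ∈ P, ∀ H, {x : B H | p • x = 0}.Finite)
    (hinf : {p ∈ P | ∃ x : A, x ≠ 0 ∧ p • x = 0}.Infinite) : GoodC (A := A) P B := by
  let S : Set ℕ := {p ∈ P | (∃ x : A, x ≠ 0 ∧ p • x = 0) ∧ ¬ p ∣ Nat.card G}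
  have hSinf : S.Infinite := by
    have h1 : {p ∈ P | p ∣ Nat.card G}.Finite := by
      refine (Nat.divisors (Nat.card G)).finite_toSet.subset fun q hq => ?_
      rw [Finset.mem_coe, Nat.mem_divisors]
      exact ⟨hq.2, Nat.card_pos.ne'⟩
    refine (hinf.sdiff h1).mono fun p hp => ⟨hp.1.1, hp.1.2, fun h => hp.2 ⟨hp.1.1, h⟩⟩
  haveI hF : ∀ p : S, Fact (p : ℕ).Prime := fun p => ⟨hP p p.2.1⟩
  have hex : ∀ p : S, ∃ c : ℕ, ∃ M : G →* Matrix (Fin c) (Fin c) (ZMod p), c ≠ 0 ∧
      c ≤ Nat.card G ∧ (p : ℕ) ^ c ≤ {x : A | (p : ℕ) • x = 0}.ncard ∧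
      ∀ H : Subgroup G, (p : ℕ) ^ fd (repOf M) H ≤
        {x : A | (p : ℕ) • x = 0 ∧ ∀ h ∈ H, act h x = x}.ncard := by
    intro p
    exact exists_matrix act p (hfin p p.2.1) p.2.2.1
  choose c M hc0 hcG hcard hM using hex
  have hfdle : ∀ (p : S) (H : Subgroup G), fd (repOf (M p)) H ≤ Nat.card G := by
    intro p H
    refine le_trans ?_ (hcG p)
    unfold fd
    calc _ ≤ Module.finrank (ZMod p) (Fin (c p) → ZMod p) := Submodule.finrank_le _
      _ = c p := by rw [Module.finrank_fin_fun]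
  -- a constant type
  haveI : Infinite S := hSinf.to_subtype
  let t : S → Fin (Nat.card G + 1) × (Subgroup G → Fin (Nat.card G + 1)) := fun p =>
    (⟨c p, Nat.lt_succ_of_le (hcG p)⟩, fun H => ⟨fd (repOf (M p)) H, Nat.lt_succ_of_le (hfdle p H)⟩)
  obtain ⟨⟨⟨m, hm⟩, dH⟩, hminf⟩ := Finite.exists_infinite_fiber t
  have hminf' : (t ⁻¹' {(⟨m, hm⟩, dH)}).Infinite := Set.infinite_coe_iff.mp hminf
  let S' : Set ℕ := Subtype.val '' (t ⁻¹' {(⟨m, hm⟩, dH)})
  have hS' : S'.Infinite := hminf'.image Subtype.val_injective.injOn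
  have hS'S : ∀ p ∈ S', ∃ h : p ∈ S, c ⟨p, h⟩ = m ∧ ∀ H, fd (repOf (M ⟨p, h⟩)) H = dH H := by
    rintro _ ⟨p, hp, rfl⟩
    have h1 : t p = (⟨m, hm⟩, dH) := hp
    exact ⟨p.2, congrArg (fun u => (u.1 : ℕ)) h1, fun H => congrArg (fun u => (u.2 H : ℕ)) h1⟩
  have hS'P : ∀ p ∈ S', p ∈ P := fun p hp => (hS'S p hp).1.1
  have hS'G : ∀ p ∈ S', ¬ p ∣ Nat.card G := fun p hp => (hS'S p hp).1.2.2
  haveI hF' : ∀ p : S', Fact (p : ℕ).Prime := fun p => ⟨hP p (hS'P p p.2)⟩
  -- matrices of constant size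
  have hex' : ∀ p : S', ∃ M' : G →* Matrix (Fin m) (Fin m) (ZMod p),
      (p : ℕ) ^ m ≤ {x : A | (p : ℕ) • x = 0}.ncard ∧
      ∀ H : Subgroup G, fd (repOf M') H = dH H ∧ (p : ℕ) ^ (dH H : ℕ) ≤
        {x : A | (p : ℕ) • x = 0 ∧ ∀ h ∈ H, act h x = x}.ncard := by
    rintro ⟨p, hp⟩
    obtain ⟨h, hcm, hd⟩ := hS'S p hp
    subst hcm
    exact ⟨M ⟨p, h⟩, hcard ⟨p, h⟩, fun H => ⟨hd H, by rw [← hd H]; exact hM ⟨p, h⟩ H⟩⟩
  choose M' hcard' hM' using hex'
  have hm0 : m ≠ 0 := by
    obtain ⟨p, hp⟩ := hS'.nonempty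
    obtain ⟨h, hcm, -⟩ := hS'S p hp
    rw [← hcm]
    exact hc0 _
  obtain ⟨φ, -⟩ := exists_prodHom S' (fun p hp => hP p (hS'P p hp)) hS'
  let MR : G →* Matrix (Fin m) (Fin m) (∀ p : S', ZMod p) :=
    { toFun := fun g => Matrix.of fun i j p => M' p g i j
      map_one' := by
        ext i j p
        change M' p 1 i j = (1 : Matrix (Fin m) (Fin m) (∀ p : S', ZMod p)) i j p
        rw [map_one]
        by_cases hij : i = j
        · rw [hij, Matrix.one_apply_eq, Matrix.one_apply_eq]; rfl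
        · rw [Matrix.one_apply_ne hij, Matrix.one_apply_ne hij]; rfl
      map_mul' := fun g h => by
        ext i j p
        change M' p (g * h) i j = _
        rw [map_mul, Matrix.mul_apply, Matrix.mul_apply, Finset.sum_apply]
        rfl }
  have hMR : ∀ g i j p, MR g i j p = M' p g i j := fun _ _ _ _ => rfl
  let MC : G →* Matrix (Fin m) (Fin m) ℂ :=
    (φ.mapMatrix : _ →+* Matrix (Fin m) (Fin m) ℂ).toMonoidHom.comp MR
  have hMC : ∀ g, MC g = (MR g).map φ := fun _ => rfl
  obtain ⟨W, iW, mW, σ, hirr, hfd, hle, -, hH⟩ := exists_rep (k := ℂ) hm0 MC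
  -- the dimensions of the fixed spaces
  have hdim : ∀ H : Subgroup G, fd (repOf MC) H = dH H := by
    intro H
    haveI : Fintype H := Fintype.ofFinite H
    have h1 := card_mul_fd MC H (Nat.cast_ne_zero.mpr Fintype.card_ne_zero)
    have h2 : ∑ h : H, (MR (h : G)).trace =
        ((Fintype.card H * (dH H : ℕ) : ℕ) : ∀ p : S', ZMod p) := by
      funext p
      have h3 : ((Fintype.card H : ℕ) : ZMod p) ≠ 0 := by
        rw [Ne, ZMod.natCast_eq_zero_iff]
        intro h4
        apply hS'G p p.2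
        refine h4.trans ?_
        rw [← Nat.card_eq_fintype_card]
        exact Subgroup.card_subgroup_dvd_card H
      have h4 := card_mul_fd (M' p) H h3
      rw [(hM' p H).1] at h4
      rw [Finset.sum_apply]
      have h5 : (((Fintype.card H * (dH H : ℕ) : ℕ) : ∀ p : S', ZMod p)) p =
          ((Fintype.card H * (dH H : ℕ) : ℕ) : ZMod p) := rfl
      rw [h5, Nat.cast_mul, h4]
      refine Finset.sum_congr rfl fun h _ => ?_
      unfold Matrix.trace
      rw [Finset.sum_apply]
      rfl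
    have h3 : ∑ h : H, (MC (h : G)).trace = φ (∑ h : H, (MR (h : G)).trace) := by
      rw [map_sum]
      refine Finset.sum_congr rfl fun h _ => ?_
      rw [hMC]
      unfold Matrix.trace
      rw [map_sum]
      rfl
    rw [h3, h2, map_natCast, Nat.cast_mul] at h1
    have h4 : (Fintype.card H : ℂ) ≠ 0 := Nat.cast_ne_zero.mpr Fintype.card_ne_zero
    exact_mod_cast mul_left_cancel₀ h4 h1
  refine ⟨W, iW, mW, σ, hirr, hfd, S', hS'P, hS', fun p hp => ⟨?_, fun H => ?_⟩⟩
  · exact (Nat.pow_le_pow_right (hP p (hS'P p hp)).pos hle).trans (hcard' ⟨p, hp⟩)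
  · have hpp := hP p (hS'P p hp)
    haveI : Fintype H := Fintype.ofFinite H
    have h1 : fd σ H ≤ (dH H : ℕ) := by rw [← hdim]; exact hH H
    refine (Nat.pow_le_pow_right hpp.pos h1).trans (((hM' ⟨p, hp⟩ H).2).trans ?_)
    refine Set.ncard_le_ncard_of_injOn (f H) ?_ ?_ (hfinB p (hS'P p hp) H)
    · intro x hx
      change p • f H x = 0
      rw [← map_nsmul, hx.1, map_zero]
    · intro x hx y hy hxy
      have h2 : ∀ z : A, (∀ h ∈ H, act h z = z) → g H (f H z) = Fintype.card H • z := by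
        intro z hz
        rw [hfg, nu_apply, Finset.sum_congr rfl fun (h : H) _ => hz h h.2, Finset.sum_const,
          Finset.card_univ]
      have h3 : Fintype.card H • (x - y) = 0 := by
        rw [smul_sub, ← h2 x hx.2, ← h2 y hy.2, hxy, sub_self]
      have h4 : p • (x - y) = 0 := by rw [smul_sub, hx.1, hy.1, sub_self]
      have h5 : Nat.Coprime (Fintype.card H) p := by
        refine ((Nat.Prime.coprime_iff_not_dvd hpp).mpr fun h => ?_).symm
        apply hS'G p hp
        refine h.trans ?_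
        rw [← Nat.card_eq_fintype_card]
        exact Subgroup.card_subgroup_dvd_card H
      have h6 := Nat.dvd_gcd (addOrderOf_dvd_iff_nsmul_eq_zero.mpr h3)
        (addOrderOf_dvd_iff_nsmul_eq_zero.mpr h4)
      rw [h5, Nat.dvd_one, AddMonoid.addOrderOf_eq_one_iff, sub_eq_zero] at h6
      exact h6

/-- The main theorem on torsion groups with a finite group of automorphisms. -/
theorem main (f : ∀ H, A →+ B H) (g : ∀ H, B H →+ A)
    (hfg : ∀ H x, g H (f H x) = nu act H x)
    (hP : ∀ p ∈ P, p.Prime) (hfin : ∀ p ∈ P, {x : A | p • x = 0}.Finite)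
    (hfinB : ∀ p ∈ P, ∀ H, {x : B H | p • x = 0}.Finite)
    (hinf : (Part A P : Set A).Infinite) :
    (∃ p ∈ P, ∃ _ : Fact p.Prime, GoodP (A := A) B p) ∨ GoodC (A := A) P B := by
  by_cases h : ∃ p ∈ P, (prim A p : Set A).Infinite
  · left
    obtain ⟨p, hp, hpinf⟩ := h
    haveI : Fact p.Prime := ⟨hP p hp⟩
    exact ⟨p, hp, inferInstance, good_padic act B f g hfg p (hfin p hp) (hfinB p hp) hpinf⟩
  · right
    push Not at h
    have h1 : {p ∈ P | ∃ x : A, x ≠ 0 ∧ p • x = 0}.Infinite := by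
      intro hf
      exact hinf (part_finite hP h hf)
    exact good_complex act P B f g hfg hP hfin hfinB h1

end many

end Pool.Agent.H11.DP
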