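import Pool.Agent.H11.Absr2

/-!
Infinitude of primary parts from the ranks of the torsion.
-/

set_option autoImplicit false
set_option linter.style.haveILetI false
open scoped Classical

namespace Pool.Agent.H11.DP

variable {A : Type} [AddCommGroup A]

lemma infinite_prim {p : ℕ} (hp : p.Prime)
    (h : ∀ n : ℕ, n ≠ 0 → 1 < {x : A | p • x = 0 ∧ ∃ y, n • y = x}.ncard) :
    (prim A p : Set A).Infinite := by
  intro hfin
  obtain ⟨e, he⟩ := exists_exp hfin
  have h1 := h (p ^ e) (pow_ne_zero _ hp.ne_zero)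
  have h2 : {x : A | p • x = 0 ∧ ∃ y, p ^ e • y = x} = {0} := by
    ext x
    constructor
    · rintro ⟨hx, y, rfl⟩
      have hy : y ∈ prim A p := ⟨e + 1, by rw [pow_succ', mul_smul, hx]⟩
      exact he y hy
    · rintro rfl
      exact ⟨smul_zero _, 0, smul_zero _⟩
  rw [h2, Set.ncard_singleton] at h1
  exact lt_irrefl _ h1

lemma infinite_part {P Q : Set ℕ} (hP : ∀ p ∈ P, p.Prime) (hQP : Q ⊆ P) (hQ : Q.Infinite)
    (h : ∀ p ∈ Q, 1 < {x : A | p • x = 0}.ncard) : (Part A P : Set A).Infinite := by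
  have h1 : ∀ p ∈ Q, ∃ x : A, p • x = 0 ∧ x ≠ 0 := by
    intro p hp
    by_contra hcon
    push Not at hcon
    have h2 : {x : A | p • x = 0} ⊆ {0} := fun x hx => hcon x hx
    have h3 := Set.ncard_le_ncard h2 (Set.finite_singleton _)
    rw [Set.ncard_singleton] at h3
    exact absurd (h p hp) (not_lt.mpr h3)
  choose! y hy hy' using h1
  refine Set.infinite_of_injOn_mapsTo (s := Q) (f := y) ?_ ?_ hQ
  · intro p hp q hq hpq
    by_contra hne
    have hpq' : Nat.Coprime p q := (Nat.coprime_primes (hP p (hQP hp)) (hP q (hQP hq))).mpr hne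
    have e1 := hy p hp
    have e2 : q • y p = 0 := by
      have hpq2 : y p = y q := hpq
      rw [hpq2, hy q hq]
    have e3 := Nat.dvd_gcd (addOrderOf_dvd_iff_nsmul_eq_zero.mpr e1)
      (addOrderOf_dvd_iff_nsmul_eq_zero.mpr e2)
    rw [hpq', Nat.dvd_one, AddMonoid.addOrderOf_eq_one_iff] at e3
    exact hy' p hp e3
  · intro p hp
    refine prim_le_part (hP p (hQP hp)) (hQP hp) ⟨1, ?_⟩
    rw [pow_one]
    exact hy p hp

end Pool.Agent.H11.DP
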