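import Pool.Agent.H10.Func7

/-!
The action of the Galois group on the Tate-Shafarevich group.
-/

set_option autoImplicit false
set_option linter.style.haveILetI false
open scoped Classical

open WeierstrassCurve IsDedekindDomain NumberField

namespace Pool.Agent.H11

open Pool.Agent.H10

section general

variable {K L Ω : Type*} [Field K] [Field L] [Field Ω] [Algebra K L] [Algebra L Ω] [Algebra K Ω]
  [IsScalarTower K L Ω] [Normal K L]

/-- Conjugation of an automorphism over `L` by an automorphism over `K`. -/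
noncomputable def cj (s : Ω ≃ₐ[K] Ω) (τ : Ω ≃ₐ[L] Ω) : Ω ≃ₐ[L] Ω :=
  { (s⁻¹ * τ.restrictScalars K * s : Ω ≃ₐ[K] Ω) with
    commutes' := fun x => by
      change s⁻¹ (τ (s (algebraMap L Ω x))) = _
      have h1 : s (algebraMap L Ω x) = algebraMap L Ω (s.restrictNormal L x) :=
        (s.restrictNormal_commutes L x).symm
      rw [h1, τ.commutes, ← h1]
      exact s.symm_apply_apply _ }

lemma cj_apply (s : Ω ≃ₐ[K] Ω) (τ : Ω ≃ₐ[L] Ω) (y : Ω) : cj s τ y = s⁻¹ (τ (s y)) := rfl

lemma apply_cj (s : Ω ≃ₐ[K] Ω) (τ : Ω ≃ₐ[L] Ω) (y : Ω) : s (cj s τ y) = τ (s y) := by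
  rw [cj_apply]
  exact s.apply_symm_apply _

lemma cj_mul (s : Ω ≃ₐ[K] Ω) (τ τ' : Ω ≃ₐ[L] Ω) : cj s (τ * τ') = cj s τ * cj s τ' := by
  ext y
  apply s.injective
  rw [apply_cj, AlgEquiv.mul_apply, AlgEquiv.mul_apply, apply_cj, apply_cj]

lemma cj_cj (s t : Ω ≃ₐ[K] Ω) (τ : Ω ≃ₐ[L] Ω) : cj t (cj s τ) = cj (s * t) τ := by
  ext y
  apply (s * t).injective
  rw [apply_cj]
  change s (t (cj t (cj s τ) y)) = τ (s (t y))
  rw [apply_cj, apply_cj]

variable [DecidableEq Ω] {E : WeierstrassCurve Ω}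

/-- The conjugate of a cochain. -/
noncomputable def conj (h : Inv K E) (s : Ω ≃ₐ[K] Ω) (f : (Ω ≃ₐ[L] Ω) → E.toAffine.Point)
    (τ : Ω ≃ₐ[L] Ω) : E.toAffine.Point := act h s (f (cj s τ))

lemma act_cj (h : Inv K E) (s : Ω ≃ₐ[K] Ω) (τ : Ω ≃ₐ[L] Ω) (P : E.toAffine.Point) :
    act h s (act (K := L) h.up (cj s τ) P) = act (K := L) h.up τ (act h s P) := by
  unfold act
  rw [pm_pm, pm_pm]
  apply pm_congr
  intro y
  exact apply_cj s τ y

theorem isCoc_conj [Algebra.IsIntegral L Ω] {h : Inv K E} (s : Ω ≃ₐ[K] Ω)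
    {f : (Ω ≃ₐ[L] Ω) → E.toAffine.Point}
    (hf : IsCoc (K := L) h.up f) : IsCoc (K := L) h.up (conj h s f) := by
  constructor
  · rw [lc_iff]
    intro τ₀
    obtain ⟨A, hA⟩ := (lc_iff f).mp hf.1 (cj s τ₀)
    refine ⟨A.image s, fun τ hτ => ?_⟩
    unfold conj
    rw [hA]
    intro x hx
    rw [cj_apply, cj_apply, hτ _ (Finset.mem_image_of_mem s hx)]
  · intro τ τ'
    unfold conj
    rw [cj_mul, hf.2, map_add, act_cj]

theorem conj_cob (h : Inv K E) (s : Ω ≃ₐ[K] Ω) (f : (Ω ≃ₐ[L] Ω) → E.toAffine.Point)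
    (hf : ∃ Q, ∀ τ, f τ = act (K := L) h.up τ Q - Q) :
    ∃ Q, ∀ τ, conj h s f τ = act (K := L) h.up τ Q - Q := by
  obtain ⟨Q, hQ⟩ := hf
  refine ⟨act h s Q, fun τ => ?_⟩
  unfold conj
  rw [hQ, map_sub, act_cj]

lemma conj_conj (h : Inv K E) (s t : Ω ≃ₐ[K] Ω) (f : (Ω ≃ₐ[L] Ω) → E.toAffine.Point) :
    conj h s (conj h t f) = conj h (s * t) f := by
  funext τ
  unfold conj
  rw [cj_cj, act_mul]

/-- Conjugation by an automorphism over `L` does not change the class. -/
lemma conj_inner {h : Inv K E} {f : (Ω ≃ₐ[L] Ω) → E.toAffine.Point}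
    (hf : IsCoc (K := L) h.up f) (t : Ω ≃ₐ[L] Ω) (τ : Ω ≃ₐ[L] Ω) :
    conj h (t.restrictScalars K) f τ = f τ + (act (K := L) h.up τ (f t) - f t) := by
  have h1 := hf.conj t τ
  have h2 : cj (t.restrictScalars K) τ = t⁻¹ * τ * t := by
    ext y
    rfl
  unfold conj
  rw [h2, ← h1]
  rfl

end general

section local_

variable {K L : Type} [Field K] [NumberField K] [Field L] [NumberField L] [Algebra K L]
  [Normal K L]
variable {V : WeierstrassCurve K} {V' : WeierstrassCurve L} (hV : V.map (algebraMap K L) = V')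

/-- Conjugation on cochains over the chosen closure of `L`. -/
noncomputable def conjF (s : AlgebraicClosure L ≃ₐ[K] AlgebraicClosure L)
    (f : Coch L V') : Coch L V' := conj (inv_up hV) s f

omit [Normal K L] in
lemma act_up_eq (τ : AlgebraicClosure L ≃ₐ[L] AlgebraicClosure L)
    (P : (V'.baseChange (AlgebraicClosure L)).toAffine.Point) :
    act (K := L) (inv_up hV).up τ P = act (inv_bc L V') τ P := rfl

theorem isCocycle_conj (s : AlgebraicClosure L ≃ₐ[K] AlgebraicClosure L)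
    {f : Coch L V'} (hf : IsCocycle L V' f) : IsCocycle L V' (conjF hV s f) := by
  rw [isCocycle_iff] at hf ⊢
  exact isCoc_conj (h := inv_up hV) s hf

theorem isCobound_conj (s : AlgebraicClosure L ≃ₐ[K] AlgebraicClosure L)
    {f : Coch L V'} (hf : IsCobound L V' f) : IsCobound L V' (conjF hV s f) := by
  rw [isCobound_iff] at hf ⊢
  exact conj_cob (inv_up hV) s f hf

/-- The local step. -/
lemma conj_local (s : AlgebraicClosure L ≃ₐ[K] AlgebraicClosure L)
    {f : Coch L V'} (hf : IsCoc (inv_bc L V') f)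
    {Lw' Lw : Type} [Field Lw'] [Field Lw] [Algebra L Lw'] [Algebra L Lw] [CharZero Lw']
    (ψ : Lw' →+* Lw)
    (hψ : ∀ a : L, ψ (algebraMap L Lw' a) = algebraMap L Lw (s.restrictNormal L a))
    (hL : ∀ ι : AlgebraicClosure L →ₐ[L] AlgebraicClosure Lw',
      TrivAt (F := Lw') (inv_bc' V') (ι : AlgebraicClosure L →+* AlgebraicClosure Lw')
        (map_bc V' ι) f)
    (ι : AlgebraicClosure L →ₐ[L] AlgebraicClosure Lw) :
    TrivAt (F := Lw) (inv_bc' V') (ι : AlgebraicClosure L →+* AlgebraicClosure Lw)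
      (map_bc V' ι) (conjF hV s f) := by
  obtain ⟨ι₀⟩ : Nonempty (AlgebraicClosure L →ₐ[L] AlgebraicClosure Lw') := ⟨IsAlgClosed.lift⟩
  have h1 := hL ι₀
  have hι' : (V'.baseChange (AlgebraicClosure L)).map
      ((ι : AlgebraicClosure L →+* AlgebraicClosure Lw).comp
        (s : AlgebraicClosure L →+* AlgebraicClosure L)) =
      V'.baseChange (AlgebraicClosure Lw) := by
    rw [← WeierstrassCurve.map_map, inv_up hV s, map_bc]
  have h2 := h1.trans hf (V := V') rfl (k := ψ) (j := algebraMap L Lw')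
    (fun a => by
      change ι₀ (algebraMap L (AlgebraicClosure L) a) = _
      rw [ι₀.commutes, IsScalarTower.algebraMap_apply L Lw' (AlgebraicClosure Lw')])
    (inv_bc' V' : Inv Lw (V'.baseChange (AlgebraicClosure Lw)))
    ((ι : AlgebraicClosure L →+* AlgebraicClosure Lw).comp
        (s : AlgebraicClosure L →+* AlgebraicClosure L)) hι' (fun a => by
      change ι (s (algebraMap L (AlgebraicClosure L) a)) = _
      have h3 : s (algebraMap L (AlgebraicClosure L) a) =
        algebraMap L (AlgebraicClosure L) (s.restrictNormal L a) :=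
        (s.restrictNormal_commutes L a).symm
      rw [h3, hψ, ι.commutes, IsScalarTower.algebraMap_apply L Lw (AlgebraicClosure Lw)])
  obtain ⟨P, hP⟩ := h2
  refine ⟨P, fun τ σ hσ => ?_⟩
  have h4 := hP τ (cj s σ) (fun x => by
    change τ (ι (s x)) = ι (s (cj s σ x))
    rw [apply_cj]
    exact hσ (s x))
  rw [← h4]
  unfold conjF conj act
  rw [pm_pm]

/-- Conjugation preserves local triviality. -/
theorem isLocTriv_conj (s : AlgebraicClosure L ≃ₐ[K] AlgebraicClosure L)
    {f : Coch L V'} (hf : IsCocycle L V' f) (hl : IsLocTriv L V' f) :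
    IsLocTriv L V' (conjF hV s f) := by
  rw [isCocycle_iff] at hf
  rw [isLocTriv_iff] at hl ⊢
  constructor
  · intro w ι
    obtain ⟨a, ha, ha0⟩ : ∃ a : 𝓞 L, (FinitePlace.embedding w ((s.restrictNormal L)
        (algebraMap (𝓞 L) L a))) = (FinitePlace.embedding w (algebraMap (𝓞 L) L a)) ∧
        (a ∈ w.asIdeal ∧ a ≠ 0) := by
      refine ⟨((Ideal.absNorm w.asIdeal : ℕ) : 𝓞 L), ?_, ?_, ?_⟩
      · rw [map_natCast, map_natCast]
      · exact Ideal.absNorm_mem w.asIdeal
      · have : Ideal.absNorm w.asIdeal ≠ 0 := by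
          rw [Ne, Ideal.absNorm_eq_zero_iff]; exact w.ne_bot
        exact_mod_cast this
    obtain ⟨v, ψ, hψ⟩ := exists_place_of_norm (L := L) (F := w.adicCompletion L)
      ((algebraMap L (w.adicCompletion L)).comp
        ((s.restrictNormal L : L ≃ₐ[K] L) : L →+* L)) ha0.2 (by
        have h1 := (FinitePlace.norm_lt_one_iff_mem L w a).mpr ha0.1
        rw [← ha] at h1
        exact h1)
    have hcz : CharZero (v.adicCompletion L) :=
      charZero_of_injective_algebraMap (algebraMap L (v.adicCompletion L)).injective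
    exact conj_local hV s hf ψ hψ (hl.1 v) ι
  · intro w ι
    obtain ⟨v, ψ, hψ⟩ := exists_inf_place (K := L) (L := L) (F := w.Completion) w
      ((algebraMap L w.Completion).comp ((s.restrictNormal L : L ≃ₐ[K] L) : L →+* L))
    have hcz : CharZero v.Completion :=
      charZero_of_injective_algebraMap (algebraMap L v.Completion).injective
    exact conj_local hV s hf ψ hψ (hl.2 v) ι

end local_

end Pool.Agent.H11
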