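import Pool.Agent.H11.Conj

/-!
The Galois group acts on the Tate-Shafarevich group; restriction after corestriction.
-/

set_option autoImplicit false
set_option linter.style.haveILetI false
open scoped Classical

open WeierstrassCurve IsDedekindDomain NumberField

namespace Pool.Agent.H11

open Pool.Agent.H10

section

variable {K L : Type} [Field K] [NumberField K] [Field L] [NumberField L] [Algebra K L]
  [Normal K L]
variable {V : WeierstrassCurve K} {V' : WeierstrassCurve L} (hV : V.map (algebraMap K L) = V')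

/-- Conjugation on locally trivial cocycles. -/
noncomputable def conjZ (s : AlgebraicClosure L ≃ₐ[K] AlgebraicClosure L) :
    ShaZ L V' →+ ShaZ L V' where
  toFun f := ⟨conjF hV s f, isCocycle_conj hV s f.2.1, isLocTriv_conj hV s f.2.1 f.2.2⟩
  map_zero' := by
    apply Subtype.ext
    funext τ
    change conjF hV s (0 : Coch L V') τ = 0
    unfold conjF conj
    rw [Pi.zero_apply, map_zero]
  map_add' f g := by
    apply Subtype.ext
    funext τ
    change conjF hV s (f.1 + g.1) τ = conjF hV s f.1 τ + conjF hV s g.1 τ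
    unfold conjF conj
    rw [Pi.add_apply, map_add]

/-- Conjugation on classes. -/
noncomputable def conjS (s : AlgebraicClosure L ≃ₐ[K] AlgebraicClosure L) :
    Sha L V' →+ Sha L V' :=
  QuotientAddGroup.map _ _ (conjZ hV s) (by
    intro f hf
    rw [AddSubgroup.mem_comap, AddSubgroup.mem_addSubgroupOf]
    exact isCobound_conj hV s hf)

lemma conjS_mk (s : AlgebraicClosure L ≃ₐ[K] AlgebraicClosure L) (f : ShaZ L V') :
    conjS hV s (Sha.mk f) = Sha.mk (conjZ hV s f) := rfl

lemma conjS_mul (s t : AlgebraicClosure L ≃ₐ[K] AlgebraicClosure L) (x : Sha L V') :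
    conjS hV (s * t) x = conjS hV s (conjS hV t x) := by
  obtain ⟨f, rfl⟩ := Sha.mk_surjective x
  rw [conjS_mk, conjS_mk, conjS_mk]
  congr 1
  apply Subtype.ext
  exact (conj_conj (inv_up hV) s t f.1).symm

/-- The class map as a homomorphism. -/
noncomputable def mkHom (K : Type) [Field K] [NumberField K] (V : WeierstrassCurve K) :
    ShaZ K V →+ Sha K V where
  toFun := Sha.mk
  map_zero' := rfl
  map_add' _ _ := rfl

omit [Normal K L] in
lemma mk_eq_of_cob {f g : ShaZ L V'} (Q : (V'.baseChange (AlgebraicClosure L)).toAffine.Point)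
    (h : ∀ τ, f.1 τ = g.1 τ + (act (inv_bc L V') τ Q - Q)) : Sha.mk f = Sha.mk g := by
  rw [← sub_eq_zero]
  have h1 : Sha.mk f - Sha.mk g = Sha.mk (f - g) := rfl
  rw [h1, Sha.mk_eq_zero, isCobound_iff]
  refine ⟨Q, fun τ => ?_⟩
  change f.1 τ - g.1 τ = _
  rw [h]
  abel

lemma conjS_inner (t : AlgebraicClosure L ≃ₐ[L] AlgebraicClosure L) (x : Sha L V') :
    conjS hV (t.restrictScalars K) x = x := by
  obtain ⟨f, rfl⟩ := Sha.mk_surjective x
  rw [conjS_mk]
  have hf := f.2.1
  rw [isCocycle_iff] at hf
  exact mk_eq_of_cob (f.1 t) (fun τ => conj_inner (h := inv_up hV) hf t τ)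

/-- The class of the conjugate depends only on the restriction to `L`. -/
lemma conjS_congr (s t : AlgebraicClosure L ≃ₐ[K] AlgebraicClosure L)
    (h : ∀ x : L, s (algebraMap L (AlgebraicClosure L) x) =
      t (algebraMap L (AlgebraicClosure L) x)) (x : Sha L V') : conjS hV s x = conjS hV t x := by
  let u : AlgebraicClosure L ≃ₐ[L] AlgebraicClosure L :=
    { (t⁻¹ * s : AlgebraicClosure L ≃ₐ[K] AlgebraicClosure L) with
      commutes' := fun y => by
        change t⁻¹ (s (algebraMap L (AlgebraicClosure L) y)) = _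
        rw [h]
        exact t.symm_apply_apply _ }
  have hu : s = t * u.restrictScalars K := by
    ext y
    change s y = t (t.symm (s y))
    rw [t.apply_symm_apply]
  conv_lhs => rw [hu]
  rw [conjS_mul, conjS_inner]

/-- A lift of an automorphism of `L` to the closure. -/
noncomputable def lf (σ : L ≃ₐ[K] L) : AlgebraicClosure L ≃ₐ[K] AlgebraicClosure L :=
  lft ((Algebra.algHom K L (AlgebraicClosure L)).comp (σ : L →ₐ[K] L))

omit [Normal K L] in
lemma lf_apply (σ : L ≃ₐ[K] L) (x : L) : lf σ (algebraMap L (AlgebraicClosure L) x) =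
    algebraMap L (AlgebraicClosure L) (σ x) := by
  unfold lf
  rw [lft_apply]
  rfl

/-- The action of the Galois group on the Tate-Shafarevich group. -/
noncomputable def actS (σ : L ≃ₐ[K] L) : Sha L V' →+ Sha L V' := conjS hV (lf σ)

lemma actS_mul (σ τ : L ≃ₐ[K] L) (x : Sha L V') :
    actS hV (σ * τ) x = actS hV σ (actS hV τ x) := by
  unfold actS
  rw [← conjS_mul]
  apply conjS_congr
  intro y
  rw [AlgEquiv.mul_apply, lf_apply, lf_apply, lf_apply]
  rfl

lemma actS_one (x : Sha L V') : actS hV 1 x = x := by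
  unfold actS
  have h1 : (x : Sha L V') = conjS hV
    ((1 : AlgebraicClosure L ≃ₐ[L] AlgebraicClosure L).restrictScalars K) x :=
    (conjS_inner hV 1 x).symm
  conv_rhs => rw [h1]
  apply conjS_congr
  intro y
  rw [lf_apply]
  rfl

/-- The action as a homomorphism. -/
noncomputable def actH : (L ≃ₐ[K] L) →* AddMonoid.End (Sha L V') where
  toFun := actS hV
  map_one' := by
    ext x
    exact actS_one hV x
  map_mul' σ τ := by
    ext x
    exact actS_mul hV σ τ x

/-- Restriction after corestriction is the sum of the conjugates. -/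
theorem res_cor (x : Sha L V') :
    Sha.res hV (Sha.cor hV x) = ∑ σ : L ≃ₐ[K] L, actS hV σ x := by
  obtain ⟨f, rfl⟩ := Sha.mk_surjective x
  rw [Sha.cor_mk, Sha.res_mk]
  have h1 : ∀ σ : L ≃ₐ[K] L, actS hV σ (Sha.mk f) = Sha.mk (conjZ hV (lf σ) f) := fun _ => rfl
  simp_rw [h1]
  have h2 : ∀ s : Finset (L ≃ₐ[K] L), ∑ σ ∈ s, Sha.mk (conjZ hV (lf σ) f) =
      Sha.mk (∑ σ ∈ s, conjZ hV (lf σ) f) := by
    intro s
    exact (map_sum (mkHom L V') _ s).symm
  rw [h2]
  congr 1
  apply Subtype.ext
  funext τ
  rw [AddSubgroup.val_finsetSum, Finset.sum_apply]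
  change resF hV (corF hV f.1) τ = ∑ σ : L ≃ₐ[K] L, conj (inv_up hV) (lf σ) f.1 τ
  have h3 : resF hV (corF hV f.1) τ = cor (inv_up hV) f.1 (τ.restrictScalars K) := by
    unfold resF corF Pool.Agent.H10.trans
    rw [pm_pm]
    have h4 : ((jj K L).symm.trans (((jj K L).trans (τ.restrictScalars K)).trans
        (jj K L).symm)).trans (jj K L).symm.symm = τ.restrictScalars K := by
      ext y
      simp
    rw [h4]
    apply pm_eq_self
    intro y
    exact (jj K L).apply_symm_apply y
  rw [h3]
  unfold cor
  symm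
  apply Fintype.sum_bijective (fun σ : L ≃ₐ[K] L =>
    (Algebra.algHom K L (AlgebraicClosure L)).comp (σ : L →ₐ[K] L))
  · constructor
    · intro σ σ' h
      ext y
      have h5 := congrArg (fun φ : L →ₐ[K] AlgebraicClosure L => φ y) h
      exact (algebraMap L (AlgebraicClosure L)).injective h5
    · intro φ
      refine ⟨(lft φ).restrictNormal L, ?_⟩
      ext y
      change algebraMap L (AlgebraicClosure L) ((lft φ).restrictNormal L y) = φ y
      rw [AlgEquiv.restrictNormal_commutes, lft_apply]
  · intro σ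
    set φ := (Algebra.algHom K L (AlgebraicClosure L)).comp (σ : L →ₐ[K] L) with hφ
    have hm : mv (τ.restrictScalars K) φ = φ := by
      ext y
      change τ (algebraMap L (AlgebraicClosure L) (σ y)) = algebraMap L (AlgebraicClosure L) (σ y)
      exact τ.commutes _
    unfold conj term
    rw [hm]
    have h6 : cj (lf σ) τ = hh (τ.restrictScalars K) φ := by
      ext y
      rw [cj_apply, hh_apply, hm]
      rfl
    rw [h6]
    rfl

end

end Pool.Agent.H11
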