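import Mathlib
import Pool.Agent.H11.MW
import Pool.Agent.H12.Sharp2

set_option autoImplicit false

open scoped Classical

namespace Pool.Agent.H11

open IsDedekindDomain NumberField WeierstrassCurve

open Pool.Agent.H10 (IsCocycle IsLocTriv IsCobound)

section basic

variable {K : Type} [Field K] (W : WeierstrassCurve K)

/-- `f` is a coboundary on the absolute Galois group of `L`. -/
def SplitBy (L : IntermediateField K (AlgebraicClosure K)) (f : Gam K → Pts W) : Prop :=
  ∃ P : Pts W, ∀ σ : Gam K, (∀ x ∈ L, σ x = x) → f σ = act W σ P - P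

/-- A continuous cocycle has finite order in cohomology. -/
theorem exists_order [PerfectField K] {f : Gam K → Pts W} (hlc : IsLocallyConstant f)
    (hf : Coc W f) : ∃ n : ℕ, n ≠ 0 ∧ ∃ Q : Pts W, ∀ σ, n • f σ = cob W Q σ := by
  obtain ⟨M, hM, hMf⟩ := exists_open W hlc (Coc.one W hf)
  have hopen : IsOpen (M.fixingSubgroup : Set (Gam K)) := IntermediateField.fixingSubgroup_isOpen M
  have hfin : Finite (Gam K ⧸ M.fixingSubgroup) := Subgroup.quotient_finite_of_isOpen _ hopen
  have := Fintype.ofFinite (Gam K ⧸ M.fixingSubgroup)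
  -- f on cosets
  have hcos : ∀ a b : Gam K, (QuotientGroup.leftRel M.fixingSubgroup) a b → f a = f b := by
    intro a b hab
    rw [QuotientGroup.leftRel_apply] at hab
    have h1 : f (a⁻¹ * b) = 0 := hMf _ ((IntermediateField.mem_fixingSubgroup_iff M _).mp hab)
    have h2 : b = a * (a⁻¹ * b) := by group
    rw [h2, hf, h1, map_zero, add_zero]
  let F : Gam K ⧸ M.fixingSubgroup → Pts W := Quotient.lift f hcos
  have hF : ∀ (σ : Gam K) (q : Gam K ⧸ M.fixingSubgroup), F (σ • q) = f σ + act W σ (F q) := by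
    intro σ q
    induction q using QuotientGroup.induction_on with
    | H z => exact hf σ z
  refine ⟨Fintype.card (Gam K ⧸ M.fixingSubgroup), Fintype.card_ne_zero, -∑ q, F q, fun σ ↦ ?_⟩
  have h1 : ∑ q, F (σ • q) = ∑ q, F q := by
    exact Fintype.sum_equiv (MulAction.toPerm σ) _ _ fun q ↦ rfl
  have h2 : ∑ q, F (σ • q) = Fintype.card (Gam K ⧸ M.fixingSubgroup) • f σ +
      act W σ (∑ q, F q) := by
    simp only [hF]
    rw [Finset.sum_add_distrib, Finset.sum_const, Finset.card_univ, map_sum]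
  rw [h1] at h2
  simp only [cob]
  rw [map_neg, sub_neg_eq_add]
  exact (sub_eq_iff_eq_add.mpr h2).symm.trans (by abel)

/-- The integers killing the class of `f`. -/
def annih (f : Gam K → Pts W) : AddSubgroup ℤ where
  carrier := {z | ∃ Q : Pts W, ∀ σ, z • f σ = cob W Q σ}
  zero_mem' := ⟨0, fun σ ↦ by simp [cob]⟩
  add_mem' := by
    rintro a b ⟨P, hP⟩ ⟨Q, hQ⟩
    exact ⟨P + Q, fun σ ↦ by rw [add_zsmul, hP, hQ, cob_add]⟩
  neg_mem' := by
    rintro a ⟨P, hP⟩
    refine ⟨-P, fun σ ↦ ?_⟩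
    rw [neg_zsmul, hP]
    simp only [cob, map_neg]
    abel

lemma exists_gen [PerfectField K] {f : Gam K → Pts W} (hlc : IsLocallyConstant f)
    (hf : Coc W f) : ∃ n : ℕ, n ≠ 0 ∧ ∀ z : ℤ, (∃ Q : Pts W, ∀ σ, z • f σ = cob W Q σ) ↔
      (n : ℤ) ∣ z := by
  obtain ⟨z, hz⟩ := Int.subgroup_cyclic (annih W f)
  rw [← AddSubgroup.zmultiples_eq_closure, ← Int.zmultiples_natAbs] at hz
  refine ⟨z.natAbs, ?_, fun m ↦ ?_⟩
  · intro h0
    obtain ⟨n, hn0, Q, hQ⟩ := exists_order W hlc hf
    have : (n : ℤ) ∈ annih W f := ⟨Q, fun σ ↦ by rw [natCast_zsmul, hQ]⟩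
    rw [hz, h0] at this
    simp at this
    exact hn0 this
  · rw [← Int.mem_zmultiples_iff, ← hz]
    rfl

/-- The order bound. -/
theorem order_dvd [PerfectField K] (L : IntermediateField K (AlgebraicClosure K)) [Normal K L]
    (hrank : Module.rank ℤ (W.baseChange L).toAffine.Point < Cardinal.aleph0)
    (e : ℕ) (he0 : e ≠ 0) (c : ℕ)
    (he : ∀ (P : (W.baseChange L).toAffine.Point) (k : ℕ), c ^ k • P = 0 → e • P = 0)
    {f : Gam K → Pts W} (hlc : IsLocallyConstant f) (hf : Coc W f) (hL : SplitBy W L f)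
    (hc : ∃ Q : Pts W, ∀ σ, c • f σ = cob W Q σ) :
    ∃ Q : Pts W, ∀ σ, (e * (Finset.Icc 1 (Module.finrank ℤ (W.baseChange L).toAffine.Point -
      Module.finrank ℤ (W.baseChange K).toAffine.Point + 1)).lcm id) • f σ = cob W Q σ := by
  obtain ⟨n, hn0, hn⟩ := exists_gen W hlc hf
  have hnc : n ∣ c := by
    have := (hn (c : ℤ)).mp (by simpa only [natCast_zsmul] using hc)
    exact_mod_cast this
  set l := (Finset.Icc 1 (Module.finrank ℤ (W.baseChange L).toAffine.Point -
      Module.finrank ℤ (W.baseChange K).toAffine.Point + 1)).lcm id with hl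
  have key : n ∣ e * l := by
    rw [Nat.dvd_iff_prime_pow_dvd_dvd]
    intro p k hp hpk
    have hpf : Fact p.Prime := ⟨hp⟩
    obtain ⟨t, e', he', hee⟩ := Nat.exists_eq_pow_mul_and_not_dvd he0 p hp.ne_one
    rcases le_or_gt k t with hkt | hkt
    · exact dvd_mul_of_dvd_left ((pow_dvd_pow p hkt).trans ⟨e', hee⟩) l
    have hpc : p ∣ c := (dvd_pow_self p (by omega)).trans (hpk.trans hnc)
    obtain ⟨m, rfl⟩ := hpk
    have hm0 : m ≠ 0 := right_ne_zero_of_mul hn0
    have htors : ∀ P : (W.baseChange L).toAffine.Point, p ^ (t + 1) • P = 0 → p ^ t • P = 0 := by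
      intro P hP
      have h1 := he P (t + 1) (by
        obtain ⟨d, hd⟩ := pow_dvd_pow_of_dvd hpc (t + 1)
        rw [hd, mul_comm, mul_smul, hP, smul_zero])
      have h2 : addOrderOf P ∣ p ^ (t + 1) := addOrderOf_dvd_of_nsmul_eq_zero hP
      have h3 : addOrderOf P ∣ e := addOrderOf_dvd_of_nsmul_eq_zero h1
      obtain ⟨j, hj, hj'⟩ := (Nat.dvd_prime_pow hp).mp h2
      apply addOrderOf_dvd_iff_nsmul_eq_zero.mp
      rw [hj'] at h3 ⊢
      rcases Nat.lt_or_ge t j with h4 | h4
      · exfalso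
        have h5 : p ^ (t + 1) ∣ p ^ t * e' := by
          rw [← hee]
          exact (pow_dvd_pow p h4).trans h3
        rw [pow_succ] at h5
        exact he' (Nat.dvd_of_mul_dvd_mul_left (pow_pos hp.pos t) h5)
      · exact pow_dvd_pow p h4
    have hsharp := Pool.Agent.H12.galois_sharp W L p hrank t htors (ι := Unit)
      (fun _ σ ↦ m • f σ) (fun _ ↦ hlc.comp (fun P ↦ m • P)) (fun _ ↦ hf.nsmul W m)
      (fun _ ↦ by
        obtain ⟨P, hP⟩ := hL
        refine ⟨m • P, fun σ hσ ↦ ?_⟩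
        rw [hP σ hσ]
        show _ = act W σ (m • P) - m • P
        rw [nsmul_sub, map_nsmul])
      (fun _ ↦ k - t) (by
        rintro a ⟨P, hP⟩ _
        have h1 : ((a () * (p ^ t * m : ℕ) : ℤ)) • f = cob W P := by
          funext σ
          have h2 := hP σ
          simp only [Finset.univ_unique, Finset.sum_singleton] at h2
          rw [Pi.smul_apply, mul_smul, natCast_zsmul, mul_smul]
          exact h2
        have h3 := (hn _).mp ⟨P, fun σ ↦ congrFun h1 σ⟩
        have h4 : ((p ^ (k - t) : ℕ) : ℤ) * ((p ^ t * m : ℕ) : ℤ) ∣ a () * (p ^ t * m : ℕ) := by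
          rw [← Nat.cast_mul, ← mul_assoc, ← pow_add, Nat.sub_add_cancel hkt.le]
          exact h3
        have h5 := Int.dvd_of_mul_dvd_mul_right
          (by exact_mod_cast (mul_ne_zero (pow_ne_zero t hp.ne_zero) hm0)) h4
        exact_mod_cast h5)
    simp only [Finset.univ_unique, Finset.sum_singleton] at hsharp
    have hle : p ^ (k - t) ≤ Module.finrank ℤ (W.baseChange L).toAffine.Point -
      Module.finrank ℤ (W.baseChange K).toAffine.Point + 1 := by omega
    have hdvd : p ^ (k - t) ∣ l := by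
      rw [hl]
      exact Finset.dvd_lcm (f := id) (Finset.mem_Icc.mpr ⟨Nat.one_le_pow _ _ hp.pos, hle⟩)
    have h6 : p ^ k = p ^ t * p ^ (k - t) := by
      rw [← pow_add, Nat.add_sub_cancel' hkt.le]
    rw [h6]
    exact mul_dvd_mul ⟨e', hee⟩ hdvd
  obtain ⟨Q, hQ⟩ := (hn ((e * l : ℕ) : ℤ)).mpr (by exact_mod_cast key)
  exact ⟨Q, fun σ ↦ by rw [← hQ, natCast_zsmul]⟩

end basic

end Pool.Agent.H11
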