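import Pool.Agent.H11.ConjSha
import Pool.Agent.H11.Absr2
import Pool.Agent.H11.ShaN

/-!
Infinite Tate-Shafarevich groups in Galois extensions.
-/

set_option autoImplicit false
set_option linter.style.haveILetI false
open scoped Classical

open WeierstrassCurve IsDedekindDomain NumberField

namespace Pool.Agent.H11

open Pool.Agent.H10

/-- Finiteness of the torsion of the Tate-Shafarevich group, in terms of the group. -/
theorem sha_finite_torsion {K : Type} [Field K] [NumberField K] (V : WeierstrassCurve K)
    [V.IsElliptic] (n : ℕ) (hn : n ≠ 0) : {x : Sha K V | n • x = 0}.Finite := by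
  obtain ⟨S, hS, hSsha, hSall⟩ := sha_torsion_finite V n hn
  let e : (Gam K → Pts V) → Sha K V := fun g =>
    if h : IsCocycle K V g ∧ IsLocTriv K V g then Sha.mk ⟨g, h⟩ else 0
  refine (hS.image e).subset fun x hx => ?_
  obtain ⟨f, rfl⟩ := Sha.mk_surjective x
  change n • Sha.mk f = 0 at hx
  rw [← Sha.mk_nsmul, Sha.mk_eq_zero] at hx
  obtain ⟨g, hg, Q, hQ⟩ := hSall f.1 f.2 hx
  refine ⟨g, hg, ?_⟩
  have hg' : IsCocycle K V g ∧ IsLocTriv K V g := hSsha g hg
  change (if h : IsCocycle K V g ∧ IsLocTriv K V g then Sha.mk ⟨g, h⟩ else 0) = _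
  rw [dif_pos hg', eq_comm, ← sub_eq_zero]
  have h1 : Sha.mk f - Sha.mk ⟨g, hg'⟩ = Sha.mk (f - ⟨g, hg'⟩) := rfl
  rw [h1, Sha.mk_eq_zero]
  refine ⟨Q, fun σ => ?_⟩
  change f.1 σ - g σ = _
  rw [hQ]
  change g σ + cob V Q σ - g σ = cob V Q σ
  abel

section tower

variable {K L : Type} [Field K] [NumberField K] [Field L] [NumberField L] [Algebra K L]
  [IsGalois K L] (V : WeierstrassCurve K)

/-- The base change of the curve to an intermediate field. -/
noncomputable abbrev bcF (F : IntermediateField K L) : WeierstrassCurve F :=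
  V.map (algebraMap K F)

omit [NumberField K] [NumberField L] [IsGalois K L] in
lemma bcF_map (F : IntermediateField K L) :
    (bcF V F).map (algebraMap F L) = V.map (algebraMap K L) := by
  rw [WeierstrassCurve.map_map, ← IsScalarTower.algebraMap_eq]

/-- The action over an intermediate field is the restriction of the action over the base. -/
lemma actS_tower (F : IntermediateField K L) (σ : L ≃ₐ[F] L)
    (x : Sha L (V.map (algebraMap K L))) :
    actS (bcF_map V F) σ x = actS (V := V) rfl (σ.restrictScalars K) x := by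
  unfold actS
  have h1 : conjS (bcF_map V F) (lf σ) x = conjS (V := V) rfl ((lf σ).restrictScalars K) x := by
    obtain ⟨f, rfl⟩ := Sha.mk_surjective x
    rfl
  rw [h1]
  apply conjS_congr
  intro y
  rw [lf_apply]
  change lf σ (algebraMap L (AlgebraicClosure L) y) = _
  rw [lf_apply]
  rfl

/-- The norm element of a subgroup factors over the fixed field. -/
theorem nu_eq_res_cor (H : Subgroup (L ≃ₐ[K] L)) (x : Sha L (V.map (algebraMap K L))) :
    DP.nu (actH (V := V) rfl) H x =
      Sha.res (bcF_map V (IntermediateField.fixedField H))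
        (Sha.cor (bcF_map V (IntermediateField.fixedField H)) x) := by
  haveI : Fintype H := Fintype.ofFinite H
  rw [DP.nu_apply, res_cor]
  symm
  have hmem : ∀ σ : L ≃ₐ[IntermediateField.fixedField H] L, σ.restrictScalars K ∈ H := by
    intro σ
    have h1 : σ.restrictScalars K ∈ (IntermediateField.fixedField H).fixingSubgroup := by
      rw [IntermediateField.mem_fixingSubgroup_iff]
      intro y hy
      exact σ.commutes ⟨y, hy⟩
    rwa [IntermediateField.fixingSubgroup_fixedField] at h1
  refine Fintype.sum_bijective (fun σ : L ≃ₐ[IntermediateField.fixedField H] L =>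
    (⟨σ.restrictScalars K, hmem σ⟩ : H)) ⟨?_, ?_⟩ _ _ fun σ => ?_
  · intro σ τ h
    have h1 := congrArg (fun t : H => (t : L ≃ₐ[K] L)) h
    ext y
    exact congrArg (fun t : L ≃ₐ[K] L => t y) h1
  · rintro ⟨h, hh⟩
    refine ⟨{ h with commutes' := fun y => ?_ }, ?_⟩
    · have h1 := y.2
      rw [IntermediateField.mem_fixedField_iff] at h1
      exact h1 h hh
    · apply Subtype.ext
      ext y
      rfl
  · exact actS_tower V _ σ x

/-- The `p`-primary part over the fixed field is infinite if the norm element has an infinite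
image. -/
theorem infinite_of_nu (p : ℕ) (H : Subgroup (L ≃ₐ[K] L))
    (h : {x | ∃ a ∈ DP.prim (Sha L (V.map (algebraMap K L))) p,
      DP.nu (actH (V := V) rfl) H a = x}.Infinite) :
    {x : Sha (IntermediateField.fixedField H) (bcF V (IntermediateField.fixedField H)) |
      ∃ k : ℕ, p ^ k • x = 0}.Infinite := by
  intro hfin
  apply h
  refine (hfin.image (Sha.res (bcF_map V (IntermediateField.fixedField H)))).subset ?_
  rintro _ ⟨a, ⟨k, hka⟩, rfl⟩
  rw [nu_eq_res_cor]
  exact ⟨_, ⟨k, by rw [← map_nsmul, hka, map_zero]⟩, rfl⟩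

/-- The `p`-torsion over the fixed field is nonzero if the norm element is nonzero on the
`p`-torsion. -/
theorem ne_zero_of_nu (p : ℕ) (H : Subgroup (L ≃ₐ[K] L))
    (h : ∃ x : Sha L (V.map (algebraMap K L)), p • x = 0 ∧ DP.nu (actH (V := V) rfl) H x ≠ 0) :
    ∃ x : Sha (IntermediateField.fixedField H) (bcF V (IntermediateField.fixedField H)),
      x ≠ 0 ∧ p • x = 0 := by
  obtain ⟨x, hpx, hx⟩ := h
  rw [nu_eq_res_cor] at hx
  refine ⟨Sha.cor (bcF_map V (IntermediateField.fixedField H)) x, fun h0 => hx ?_, ?_⟩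
  · rw [h0, map_zero]
  · rw [← map_nsmul, hpx, map_zero]

lemma finrank_fixedField (H : Subgroup (L ≃ₐ[K] L)) :
    Module.finrank K (IntermediateField.fixedField H) = H.index := by
  rw [IntermediateField.finrank_eq_fixingSubgroup_index, IntermediateField.fixingSubgroup_fixedField]

end tower

end Pool.Agent.H11
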