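import Pool.Agent.H11.DivPart

/-!
Endomorphisms of divisible groups of finite corank are matrices over the p-adic integers.
-/

set_option autoImplicit false
set_option linter.style.haveILetI false

namespace Pool.Agent.H11.DP

section basis

variable {D : Type*} [AddCommGroup D] (p : ℕ) [hp : Fact p.Prime]

/-- A system of compatible generators. -/
structure Chain (c : ℕ) (x : Fin c → ℕ → D) : Prop where
  zero : ∀ j, p • x j 0 = 0
  succ : ∀ j i, p • x j (i + 1) = x j i
  span : ∀ y, p • y = 0 → ∃ a : Fin c → ℤ, y = ∑ j, a j • x j 0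
  indep : ∀ a : Fin c → ℤ, ∑ j, a j • x j 0 = 0 → ∀ j, (p : ℤ) ∣ a j

lemma exists_fpbasis' (T : Type*) [AddCommGroup T] [Finite T] [Module (ZMod p) T] :
    ∃ (c : ℕ) (b : Fin c → T), Nat.card T = p ^ c ∧
      (∀ y, ∃ a : Fin c → ℤ, y = ∑ j, a j • b j) ∧
      (∀ a : Fin c → ℤ, ∑ j, a j • b j = 0 → ∀ j, (p : ℤ) ∣ a j) := by
  haveI : Module.Finite (ZMod p) T := Module.Finite.of_finite
  let b : Module.Basis (Fin (Module.finrank (ZMod p) T)) (ZMod p) T := Module.finBasis (ZMod p) T
  have hzs : ∀ (a : ℤ) (t : T), (a : ZMod p) • t = a • t := fun a t => Int.cast_smul_eq_zsmul _ _ _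
  refine ⟨Module.finrank (ZMod p) T, b, ?_, ?_, ?_⟩
  · have h1 : Nat.card T = Nat.card (ZMod p) ^ Module.finrank (ZMod p) T :=
      Module.natCard_eq_pow_finrank (K := ZMod p) (V := T)
    rw [Nat.card_zmod] at h1
    exact h1
  · intro y
    refine ⟨fun j => ((b.repr y j).val : ℤ), ?_⟩
    have h1 := b.sum_repr y
    have h2 : ∀ j, b.repr y j • b j = ((b.repr y j).val : ℤ) • b j := by
      intro j
      rw [← hzs, Int.cast_natCast, ZMod.natCast_zmod_val]
    simp_rw [h2] at h1
    exact h1.symm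
  · intro a ha j
    have h1 : ∑ j, (a j : ZMod p) • b j = 0 := by
      rw [← ha]
      exact Finset.sum_congr rfl fun j _ => hzs _ _
    have h2 := (Fintype.linearIndependent_iff.mp b.linearIndependent) _ h1 j
    exact (ZMod.intCast_zmod_eq_zero_iff_dvd _ _).mp h2

/-- A basis of a finite group killed by a prime, with integer coefficients. -/
theorem exists_fpbasis (T : Type*) [AddCommGroup T] [Finite T] (hT : ∀ x : T, p • x = 0) :
    ∃ (c : ℕ) (b : Fin c → T), Nat.card T = p ^ c ∧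
      (∀ y, ∃ a : Fin c → ℤ, y = ∑ j, a j • b j) ∧
      (∀ a : Fin c → ℤ, ∑ j, a j • b j = 0 → ∀ j, (p : ℤ) ∣ a j) := by
  letI : Module (ZMod p) T := AddCommGroup.zmodModule hT
  exact exists_fpbasis' p T

theorem exists_chain (hdiv : ∀ x : D, ∃ y, p • y = x) (hfin : {x : D | p • x = 0}.Finite) :
    ∃ (c : ℕ) (x : Fin c → ℕ → D), {y : D | p • y = 0}.ncard = p ^ c ∧ Chain p c x := by
  let T : AddSubgroup D :=
    { carrier := {x | p • x = 0}
      add_mem' := fun {a b} ha hb => by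
        change p • (a + b) = 0
        rw [smul_add, ha, hb, add_zero]
      zero_mem' := smul_zero _
      neg_mem' := fun {a} ha => by
        change p • (-a) = 0
        rw [smul_neg, ha, neg_zero] }
  haveI : Finite T := hfin
  obtain ⟨c, b, h1, h2, h3⟩ := exists_fpbasis p T (fun x => Subtype.ext x.2)
  choose δ hδ using hdiv
  let x : Fin c → ℕ → D := fun j i => Nat.rec (b j : D) (fun _ y => δ y) i
  have hco : ∀ a : Fin c → ℤ, ((∑ j, a j • b j : T) : D) = ∑ j, a j • x j 0 := by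
    intro a
    rw [AddSubgroup.val_finsetSum]
    rfl
  refine ⟨c, x, h1, ?_, ?_, ?_, ?_⟩
  · intro j
    exact (b j).2
  · intro j i
    exact hδ _
  · intro y hy
    obtain ⟨a, ha⟩ := h2 ⟨y, hy⟩
    exact ⟨a, by rw [← hco, ← ha]⟩
  · intro a ha
    apply h3
    apply Subtype.ext
    rw [hco, ha]
    rfl

variable {p}
variable {c : ℕ} {x : Fin c → ℕ → D}

omit hp in
lemma Chain.pow (h : Chain p c x) (j : Fin c) (i k : ℕ) : p ^ k • x j (i + k) = x j i := by
  induction k with
  | zero => rw [pow_zero, one_smul, add_zero]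
  | succ k ih => rw [pow_succ, mul_smul, ← add_assoc, h.succ, ih]

omit hp in
lemma Chain.killed (h : Chain p c x) (j : Fin c) (i : ℕ) : p ^ (i + 1) • x j i = 0 := by
  have h1 := h.pow j 0 i
  rw [zero_add] at h1
  rw [pow_succ', mul_smul, h1, h.zero]

omit hp in
lemma Chain.indep' (h : Chain p c x) (i : ℕ) (a : Fin c → ℤ) (ha : ∑ j, a j • x j i = 0) :
    ∀ j, ((p ^ (i + 1) : ℕ) : ℤ) ∣ a j := by
  induction i generalizing a with
  | zero =>
    intro j
    rw [zero_add, pow_one]
    exact h.indep a ha j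
  | succ i ih =>
    have h1 : ∑ j, a j • x j i = 0 := by
      have h2 := congrArg (fun t => p • t) ha
      beta_reduce at h2
      rw [smul_zero, Finset.smul_sum] at h2
      rw [← h2]
      refine Finset.sum_congr rfl fun j _ => ?_
      rw [smul_comm, h.succ]
    have h2 := ih a h1
    have h3 : ∀ j, ∃ b : ℤ, a j = p * b := by
      intro j
      obtain ⟨b, hb⟩ := h2 j
      refine ⟨(p ^ i : ℕ) * b, ?_⟩
      rw [hb]
      push_cast
      ring
    choose b hb using h3
    have h4 : ∑ j, b j • x j i = 0 := by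
      rw [← ha]
      refine Finset.sum_congr rfl fun j _ => ?_
      rw [hb, mul_comm, mul_smul, natCast_zsmul, h.succ]
    intro j
    obtain ⟨e, he⟩ := ih b h4 j
    refine ⟨e, ?_⟩
    rw [hb, he]
    push_cast
    ring

omit hp in
lemma Chain.span' (h : Chain p c x) (i : ℕ) (y : D) (hy : p ^ (i + 1) • y = 0) :
    ∃ a : Fin c → ℤ, y = ∑ j, a j • x j i := by
  induction i generalizing y with
  | zero =>
    rw [zero_add, pow_one] at hy
    exact h.span y hy
  | succ i ih =>
    obtain ⟨a, ha⟩ := ih (p • y) (by rw [← mul_smul, ← pow_succ]; exact hy)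
    have h1 : p • (y - ∑ j, a j • x j (i + 1)) = 0 := by
      rw [smul_sub, ha, Finset.smul_sum, sub_eq_zero]
      refine Finset.sum_congr rfl fun j _ => ?_
      rw [smul_comm, h.succ]
    obtain ⟨e, he⟩ := h.span _ h1
    refine ⟨fun j => a j + e j * (p ^ (i + 1) : ℕ), ?_⟩
    rw [sub_eq_iff_eq_add] at he
    rw [he, add_comm, ← Finset.sum_add_distrib]
    refine Finset.sum_congr rfl fun j _ => ?_
    have h2 := h.pow j 0 (i + 1)
    rw [zero_add] at h2
    rw [add_smul, mul_smul, natCast_zsmul, h2]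

/-- The scalar multiplication of a p-adic integer agrees with that of an integer. -/
lemma smul_eq_of_toZModPow [Module ℤ_[p] D] {z : ℤ_[p]} {k : ℕ} {a : ℤ}
    (h : PadicInt.toZModPow k z = a) {y : D} (hy : p ^ k • y = 0) : z • y = a • y := by
  have h1 : z - (a : ℤ_[p]) ∈ RingHom.ker (PadicInt.toZModPow k : ℤ_[p] →+* ZMod (p ^ k)) := by
    rw [RingHom.mem_ker, map_sub, h, map_intCast, sub_self]
  rw [PadicInt.ker_toZModPow, Ideal.mem_span_singleton] at h1
  obtain ⟨w, hw⟩ := h1
  have h2 : (z - (a : ℤ_[p])) • y = 0 := by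
    rw [hw, mul_comm, mul_smul]
    have : ((p : ℤ_[p]) ^ k) • y = p ^ k • y := by
      rw [← Nat.cast_pow, Nat.cast_smul_eq_nsmul]
    rw [this, hy, smul_zero]
  rw [sub_smul, Int.cast_smul_eq_zsmul, sub_eq_zero] at h2
  exact h2

lemma exists_int (z : ℤ_[p]) (k : ℕ) : ∃ a : ℤ, PadicInt.toZModPow k z = a := by
  haveI : NeZero (p ^ k) := ⟨pow_ne_zero _ hp.out.ne_zero⟩
  exact ⟨(PadicInt.toZModPow k z).val, by rw [Int.cast_natCast, ZMod.natCast_zmod_val]⟩

lemma map_smul_padic [Module ℤ_[p] D] (hprim : ∀ x : D, ∃ k : ℕ, p ^ k • x = 0)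
    (e : D →+ D) (z : ℤ_[p]) (y : D) : e (z • y) = z • e y := by
  obtain ⟨k, hk⟩ := hprim y
  obtain ⟨a, ha⟩ := exists_int z k
  rw [smul_eq_of_toZModPow ha hk, smul_eq_of_toZModPow ha (by rw [← map_nsmul, hk, map_zero]),
    map_zsmul]

variable {D' : Type*} [AddCommGroup D'] {c' : ℕ} {x' : Fin c' → ℕ → D'}
variable {D'' : Type*} [AddCommGroup D''] {c'' : ℕ} {x'' : Fin c'' → ℕ → D''}

/-- The matrix of a homomorphism. -/
def IsMat [Module ℤ_[p] D'] (x : Fin c → ℕ → D) (x' : Fin c' → ℕ → D') (e : D →+ D')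
    (M : Matrix (Fin c') (Fin c) ℤ_[p]) : Prop := ∀ i j, e (x j i) = ∑ l, M l j • x' l i

variable [Module ℤ_[p] D] [Module ℤ_[p] D'] [Module ℤ_[p] D'']

omit [Module ℤ_[p] D] in
lemma IsMat.unique (h' : Chain p c' x') {e : D →+ D'} {M N : Matrix (Fin c') (Fin c) ℤ_[p]}
    (hM : IsMat x x' e M) (hN : IsMat x x' e N) : M = N := by
  ext l j
  rw [← PadicInt.ext_of_toZModPow]
  intro n
  cases n with
  | zero =>
    haveI : Subsingleton (ZMod (p ^ 0)) := by rw [pow_zero]; infer_instance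
    exact Subsingleton.elim _ _
  | succ i =>
    have hex : ∀ l', ∃ a : ℤ, PadicInt.toZModPow (i + 1) (M l' j - N l' j) = a :=
      fun l' => exists_int _ _
    choose a ha using hex
    have h1 : ∑ l', a l' • x' l' i = 0 := by
      have h2 : ∑ l', (M l' j - N l' j) • x' l' i = 0 := by
        simp_rw [sub_smul]
        rw [Finset.sum_sub_distrib, ← hM, ← hN, sub_self]
      rw [← h2]
      refine Finset.sum_congr rfl fun l' _ => ?_
      rw [smul_eq_of_toZModPow (ha l') (h'.killed l' i)]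
    have h3 := h'.indep' i a h1 l
    have h4 := ha l
    rw [map_sub] at h4
    rw [← sub_eq_zero, h4]
    exact (ZMod.intCast_zmod_eq_zero_iff_dvd _ _).mpr h3

omit [Module ℤ_[p] D] in
theorem IsMat.exists (h : Chain p c x) (h' : Chain p c' x') (e : D →+ D') :
    ∃ M : Matrix (Fin c') (Fin c) ℤ_[p], IsMat x x' e M := by
  have hex : ∀ i j, ∃ a : Fin c' → ℤ, e (x j i) = ∑ l, a l • x' l i := by
    intro i j
    apply h'.span' i
    rw [← map_nsmul, h.killed, map_zero]
  choose a ha using hex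
  have hcomp : ∀ i j l, ((p : ℤ)) ^ (i + 1) ∣ a (i + 1) j l - a i j l := by
    intro i j l
    have h1 : ∑ l, (a (i + 1) j l - a i j l) • x' l i = 0 := by
      simp_rw [sub_smul]
      rw [Finset.sum_sub_distrib, ← ha i j, sub_eq_zero]
      rw [← h.succ j i, map_nsmul, ha (i + 1) j, Finset.smul_sum]
      refine Finset.sum_congr rfl fun l _ => ?_
      rw [smul_comm, h'.succ]
    have h2 := h'.indep' i _ h1 l
    rwa [Nat.cast_pow] at h2
  let f : Fin c' → Fin c → ℕ → ℤ := fun l j n => Nat.casesOn n 0 (fun i => a i j l)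
  have hf : ∀ l j n, ((p : ℤ)) ^ n ∣ f l j (n + 1) - f l j n := by
    intro l j n
    cases n with
    | zero => rw [pow_zero]; exact one_dvd _
    | succ i => exact hcomp i j l
  refine ⟨Matrix.of fun l j => PadicInt.ofIntSeq _
    (PadicInt.isCauSeq_padicNorm_of_pow_dvd_sub (f l j) p (hf l j)), ?_⟩
  intro i j
  rw [ha i j]
  refine Finset.sum_congr rfl fun l _ => ?_
  symm
  exact smul_eq_of_toZModPow (k := i + 1)
    (PadicInt.toZModPow_ofIntSeq_of_pow_dvd_sub (f l j) p (hf l j) (i + 1)) (h'.killed l i)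

lemma IsMat.one (x : Fin c → ℕ → D) : IsMat x x (AddMonoidHom.id D) (1 : Matrix _ _ ℤ_[p]) := by
  intro i j
  rw [AddMonoidHom.id_apply]
  rw [Finset.sum_eq_single j]
  · rw [Matrix.one_apply_eq, one_smul]
  · intro l _ hl
    rw [Matrix.one_apply_ne hl, zero_smul]
  · intro h; exact absurd (Finset.mem_univ _) h

omit [Module ℤ_[p] D] in
lemma map_smul_padic' (hprim : ∀ x : D', ∃ k : ℕ, p ^ k • x = 0)
    (e : D' →+ D'') (z : ℤ_[p]) (y : D') : e (z • y) = z • e y := by
  obtain ⟨k, hk⟩ := hprim y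
  obtain ⟨a, ha⟩ := exists_int z k
  rw [smul_eq_of_toZModPow ha hk, smul_eq_of_toZModPow ha (by rw [← map_nsmul, hk, map_zero]),
    map_zsmul]

omit [Module ℤ_[p] D] in
lemma IsMat.comp (hprim' : ∀ x : D', ∃ k : ℕ, p ^ k • x = 0) {e : D' →+ D''} {e' : D →+ D'}
    {M : Matrix (Fin c'') (Fin c') ℤ_[p]} {M' : Matrix (Fin c') (Fin c) ℤ_[p]}
    (hM : IsMat x' x'' e M) (hM' : IsMat x x' e' M') : IsMat x x'' (e.comp e') (M * M') := by
  intro i j
  rw [AddMonoidHom.comp_apply, hM' i j, map_sum]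
  simp_rw [map_smul_padic' hprim', hM i, Finset.smul_sum, Matrix.mul_apply, Finset.sum_smul]
  rw [Finset.sum_comm]
  refine Finset.sum_congr rfl fun l _ => Finset.sum_congr rfl fun m _ => ?_
  rw [← mul_smul, mul_comm]

omit [Module ℤ_[p] D] in
lemma IsMat.add {e e' : D →+ D'} {M M' : Matrix (Fin c') (Fin c) ℤ_[p]}
    (hM : IsMat x x' e M) (hM' : IsMat x x' e' M') : IsMat x x' (e + e') (M + M') := by
  intro i j
  rw [AddMonoidHom.add_apply, hM, hM', ← Finset.sum_add_distrib]
  refine Finset.sum_congr rfl fun l _ => ?_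
  rw [Matrix.add_apply, add_smul]

lemma IsMat.zero_eq (h : Chain p c x) (hprim : ∀ x : D, ∃ k : ℕ, p ^ k • x = 0) {e : D →+ D}
    (hM : IsMat x x e (0 : Matrix (Fin c) (Fin c) ℤ_[p])) : e = 0 := by
  ext y
  obtain ⟨k, hk⟩ := hprim y
  obtain ⟨a, ha⟩ := h.span' k y (by rw [pow_succ', mul_smul, hk, smul_zero])
  rw [ha, map_sum, AddMonoidHom.zero_apply]
  refine Finset.sum_eq_zero fun j _ => ?_
  rw [map_zsmul, hM k j]
  simp

/-- The ring homomorphism from endomorphisms to matrices. -/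
noncomputable def matHom (h : Chain p c x) (hprim : ∀ x : D, ∃ k : ℕ, p ^ k • x = 0) :
    AddMonoid.End D →+* Matrix (Fin c) (Fin c) ℤ_[p] where
  toFun e := (IsMat.exists h h e).choose
  map_one' := IsMat.unique h (IsMat.exists h h (AddMonoidHom.id D)).choose_spec (IsMat.one x)
  map_mul' e e' := IsMat.unique h (IsMat.exists h h (e.comp e')).choose_spec
    (IsMat.comp hprim (IsMat.exists h h e).choose_spec (IsMat.exists h h e').choose_spec)
  map_zero' := IsMat.unique h (IsMat.exists h h (0 : D →+ D)).choose_spec (by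
    intro i j
    simp)
  map_add' e e' := IsMat.unique h (IsMat.exists h h (e + e')).choose_spec
    (IsMat.add (IsMat.exists h h e).choose_spec (IsMat.exists h h e').choose_spec)

lemma matHom_spec (h : Chain p c x) (hprim : ∀ x : D, ∃ k : ℕ, p ^ k • x = 0) (e : D →+ D) :
    IsMat x x e (matHom h hprim e) := (IsMat.exists h h e).choose_spec

lemma matHom_injective (h : Chain p c x) (hprim : ∀ x : D, ∃ k : ℕ, p ^ k • x = 0) :
    Function.Injective (matHom h hprim) := by
  rw [injective_iff_map_eq_zero]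
  intro e he
  apply IsMat.zero_eq h hprim
  rw [← he]
  exact matHom_spec h hprim e

/-- The matrix of an endomorphism which factors through a group of corank `c'` has rank at
most `c'`. -/
theorem rank_le_of_factor (h : Chain p c x) (h' : Chain p c' x')
    (hprim : ∀ x : D, ∃ k : ℕ, p ^ k • x = 0)
    (hprim' : ∀ x : D', ∃ k : ℕ, p ^ k • x = 0) (f : D →+ D') (g : D' →+ D) :
    ((algebraMap ℤ_[p] ℚ_[p]).mapMatrix (matHom h hprim (g.comp f))).rank ≤ c' := by
  obtain ⟨M, hM⟩ := IsMat.exists h h' f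
  obtain ⟨N, hN⟩ := IsMat.exists h' h g
  have h1 : matHom h hprim (g.comp f) = N * M :=
    IsMat.unique h (matHom_spec h hprim (g.comp f)) (IsMat.comp hprim' hN hM)
  rw [h1, RingHom.mapMatrix_apply, Matrix.map_mul]
  exact (Matrix.rank_mul_le_left _ _).trans (by
    have := Matrix.rank_le_width (N.map (algebraMap ℤ_[p] ℚ_[p]))
    exact this)

end basis

end Pool.Agent.H11.DP
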