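import Mathlib

/-!
Divisible groups of finite corank: endomorphisms are matrices over the ring of p-adic integers.
-/

set_option autoImplicit false
set_option linter.style.haveILetI false

namespace Pool.Agent.H11.DP

section general

variable {A : Type*} [AddCommGroup A] (p : ℕ)

/-- The p-primary part. -/
def prim (A : Type*) [AddCommGroup A] (p : ℕ) : AddSubgroup A where
  carrier := {x | ∃ k : ℕ, p ^ k • x = 0}
  add_mem' := by
    rintro x y ⟨k, hk⟩ ⟨l, hl⟩
    refine ⟨k + l, ?_⟩
    have h1 : p ^ (k + l) • x = 0 := by rw [pow_add, mul_comm, mul_smul, hk, smul_zero]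
    have h2 : p ^ (k + l) • y = 0 := by rw [pow_add, mul_smul, hl, smul_zero]
    rw [smul_add, h1, h2, add_zero]
  zero_mem' := ⟨0, smul_zero _⟩
  neg_mem' := by
    rintro x ⟨k, hk⟩
    exact ⟨k, by rw [smul_neg, hk, neg_zero]⟩

lemma mem_prim {x : A} : x ∈ prim A p ↔ ∃ k : ℕ, p ^ k • x = 0 := Iff.rfl

lemma fin_tors (h : {x : A | p • x = 0}.Finite) (k : ℕ) : {x : A | p ^ k • x = 0}.Finite := by
  induction k with
  | zero =>
    refine (Set.finite_singleton (0 : A)).subset fun x hx => ?_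
    rw [Set.mem_ofPred_eq, pow_zero, one_smul] at hx
    exact hx
  | succ k ih =>
    have h1 : {x : A | p ^ (k + 1) • x = 0} ⊆ ⋃ y ∈ {x : A | p ^ k • x = 0}, {x : A | p • x = y} := by
      intro x hx
      rw [Set.mem_iUnion₂]
      refine ⟨p • x, ?_, rfl⟩
      rw [Set.mem_ofPred_eq, ← mul_smul, ← pow_succ]
      exact hx
    refine (ih.biUnion fun y _ => ?_).subset h1
    by_cases hy : ∃ z : A, p • z = y
    · obtain ⟨z, hz⟩ := hy
      refine (h.image (fun t => z + t)).subset fun x hx => ?_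
      refine ⟨x - z, ?_, by simp⟩
      rw [Set.mem_ofPred_eq] at hx ⊢
      rw [smul_sub, hx, hz, sub_self]
    · refine Set.finite_empty.subset fun x hx => hy ⟨x, hx⟩

/-- A multiple of the p-primary part is divisible. -/
theorem exists_div (h : {x : A | p • x = 0}.Finite) : ∃ k : ℕ, ∀ x ∈ prim A p,
    ∃ y ∈ prim A p, p • (p ^ k • y) = p ^ k • x := by
  -- the decreasing sequence of finite sets
  let B : ℕ → Set A := fun k => {x | p • x = 0 ∧ ∃ y ∈ prim A p, p ^ k • y = x}
  have hB : ∀ k, (B k).Finite := fun k => h.subset fun x hx => hx.1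
  have hanti : ∀ k, B (k + 1) ⊆ B k := by
    rintro k x ⟨hx, y, hy, hyx⟩
    refine ⟨hx, p • y, (prim A p).nsmul_mem hy p, ?_⟩
    rw [← mul_smul, ← pow_succ, hyx]
  have hanti' : ∀ k l, B (k + l) ⊆ B k := by
    intro k l
    induction l with
    | zero => exact subset_rfl
    | succ l ih => exact (hanti (k + l)).trans ih
  obtain ⟨k, hk⟩ : ∃ k, ∀ l, (B k).ncard ≤ (B l).ncard := by
    obtain ⟨m, ⟨k, hk⟩, hm⟩ := WellFounded.has_min (wellFounded_lt (α := ℕ))
      (Set.range fun k => (B k).ncard) ⟨_, 0, rfl⟩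
    refine ⟨k, fun l => ?_⟩
    have := hm _ ⟨l, rfl⟩
    change (fun k => (B k).ncard) k = m at hk
    beta_reduce at hk
    rw [hk]
    exact not_lt.mp this
  have hst : ∀ l, B (k + l) = B k := fun l =>
    Set.eq_of_subset_of_ncard_le (hanti' k l) (hk _) (hB k)
  refine ⟨k, ?_⟩
  have key : ∀ (j : ℕ) (x : A), x ∈ prim A p → p ^ j • (p ^ k • x) = 0 →
      ∃ y ∈ prim A p, p • (p ^ k • y) = p ^ k • x := by
    intro j
    induction j with
    | zero =>
      intro x _ hx
      refine ⟨0, zero_mem _, ?_⟩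
      rw [pow_zero, one_smul] at hx
      rw [hx, smul_zero, smul_zero]
    | succ j ih =>
      intro x hx hjx
      have h1 : p ^ j • (p ^ k • x) ∈ B k := by
        refine ⟨?_, p ^ j • x, (prim A p).nsmul_mem hx _, ?_⟩
        · rw [← mul_smul, ← pow_succ']; exact hjx
        · rw [← mul_smul, ← mul_smul, mul_comm]
      rw [← hst (j + 1)] at h1
      obtain ⟨_, y, hy, hyx⟩ := h1
      have h2 : p ^ j • (p ^ k • (x - p • y)) = 0 := by
        rw [smul_sub, smul_sub, ← hyx, sub_eq_zero]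
        rw [← mul_smul, ← mul_smul]
        congr 1
        ring
      obtain ⟨z, hz, hz1⟩ := ih (x - p • y) (sub_mem hx ((prim A p).nsmul_mem hy p)) h2
      refine ⟨z + y, add_mem hz hy, ?_⟩
      rw [smul_add, smul_add, hz1, smul_sub]
      rw [smul_comm (p ^ k) p y]
      abel
  intro x hx
  obtain ⟨j, hj⟩ := hx
  exact key j x ⟨j, hj⟩ (by rw [smul_comm, hj, smul_zero])

end general

section pm

variable {D : Type*} [AddCommGroup D] (p : ℕ) [hp : Fact p.Prime]

omit hp in
lemma nsmul_eq_of_zmod {k : ℕ} {x : D} (hx : p ^ k • x = 0) {a b : ℕ}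
    (h : (a : ZMod (p ^ k)) = b) : a • x = b • x := by
  rw [ZMod.natCast_eq_natCast_iff] at h
  have h1 := (Nat.modEq_iff_dvd.mp h)
  obtain ⟨c, hc⟩ := h1
  have h2 : ((b : ℤ) - a) • x = 0 := by
    rw [hc, mul_comm, mul_smul]
    have : (((p ^ k : ℕ) : ℤ)) • x = 0 := by rw [natCast_zsmul]; exact hx
    rw [this, smul_zero]
  rw [sub_smul, natCast_zsmul, natCast_zsmul, sub_eq_zero] at h2
  exact h2.symm

/-- The action of p-adic integers on elements killed by a power. -/
noncomputable def sm (z : ℤ_[p]) (k : ℕ) (x : D) : D := (PadicInt.toZModPow k z).val • x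

lemma sm_indep (z : ℤ_[p]) {k l : ℕ} {x : D} (hk : p ^ k • x = 0) (hkl : k ≤ l) :
    sm p z l x = sm p z k x := by
  unfold sm
  apply nsmul_eq_of_zmod p hk
  rw [ZMod.natCast_val, ZMod.natCast_val, PadicInt.cast_toZModPow _ _ hkl]
  rw [ZMod.cast_id]

lemma sm_add_left (z w : ℤ_[p]) {k : ℕ} {x : D} (hk : p ^ k • x = 0) :
    sm p (z + w) k x = sm p z k x + sm p w k x := by
  unfold sm
  rw [← add_smul]
  apply nsmul_eq_of_zmod p hk
  haveI : NeZero (p ^ k) := ⟨pow_ne_zero _ hp.out.ne_zero⟩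
  rw [Nat.cast_add, ZMod.natCast_zmod_val, ZMod.natCast_zmod_val, ZMod.natCast_zmod_val, map_add]

lemma sm_mul (z w : ℤ_[p]) {k : ℕ} {x : D} (hk : p ^ k • x = 0) :
    sm p (z * w) k x = sm p z k (sm p w k x) := by
  unfold sm
  rw [← mul_smul]
  apply nsmul_eq_of_zmod p hk
  haveI : NeZero (p ^ k) := ⟨pow_ne_zero _ hp.out.ne_zero⟩
  rw [Nat.cast_mul, ZMod.natCast_zmod_val, ZMod.natCast_zmod_val, ZMod.natCast_zmod_val, map_mul]

lemma sm_one {k : ℕ} {x : D} (hk : p ^ k • x = 0) : sm p 1 k x = x := by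
  unfold sm
  conv_rhs => rw [← one_smul ℕ x]
  apply nsmul_eq_of_zmod p hk
  haveI : NeZero (p ^ k) := ⟨pow_ne_zero _ hp.out.ne_zero⟩
  rw [ZMod.natCast_zmod_val, map_one, Nat.cast_one]

lemma sm_zero_left {k : ℕ} {x : D} (hk : p ^ k • x = 0) : sm p 0 k x = 0 := by
  unfold sm
  conv_rhs => rw [← zero_smul ℕ x]
  apply nsmul_eq_of_zmod p hk
  haveI : NeZero (p ^ k) := ⟨pow_ne_zero _ hp.out.ne_zero⟩
  rw [ZMod.natCast_zmod_val, map_zero, Nat.cast_zero]

/-- A p-primary group is a module over the p-adic integers. -/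
@[instance_reducible] noncomputable def modZp (hprim : ∀ x : D, ∃ k : ℕ, p ^ k • x = 0) : Module ℤ_[p] D := by
  classical
  have hsp : ∀ x : D, p ^ (Nat.find (hprim x)) • x = 0 := fun x => Nat.find_spec (hprim x)
  have hle : ∀ (x : D) (k : ℕ), p ^ k • x = 0 → Nat.find (hprim x) ≤ k :=
    fun x k h => Nat.find_min' (hprim x) h
  have hpow : ∀ {k l : ℕ} {x : D}, p ^ k • x = 0 → k ≤ l → p ^ l • x = 0 := by
    intro k l x hk hkl
    obtain ⟨m, rfl⟩ := Nat.exists_eq_add_of_le hkl
    rw [pow_add, mul_comm, mul_smul, hk, smul_zero]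
  let act : ℤ_[p] → D → D := fun z x => sm p z (Nat.find (hprim x)) x
  have hact : ∀ (z : ℤ_[p]) (x : D) (k : ℕ), p ^ k • x = 0 → act z x = sm p z k x := by
    intro z x k hk
    exact (sm_indep p z (hsp x) (hle x k hk)).symm
  have hpsm : ∀ (z : ℤ_[p]) (k l : ℕ) (x : D), p ^ k • x = 0 → p ^ k • sm p z l x = 0 := by
    intro z k l x hk
    unfold sm
    rw [smul_comm, hk, smul_zero]
  exact
    { smul := act
      one_smul := fun x => sm_one p (hsp x)
      mul_smul := fun z w x => by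
        change act (z * w) x = act z (act w x)
        rw [hact w x _ (hsp x), hact z _ _ (hpsm w _ _ x (hsp x)), hact (z * w) x _ (hsp x),
          sm_mul p z w (hsp x)]
      smul_zero := fun z => by
        change act z 0 = 0
        rw [hact z 0 0 (smul_zero _)]
        exact smul_zero _
      smul_add := fun z x y => by
        change act z (x + y) = act z x + act z y
        have hx := hpow (hsp x) (le_max_left _ (Nat.find (hprim y)))
        have hy := hpow (hsp y) (le_max_right (Nat.find (hprim x)) _)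
        rw [hact z x _ hx, hact z y _ hy, hact z (x + y) _ (by rw [smul_add, hx, hy, add_zero])]
        exact smul_add _ _ _
      add_smul := fun z w x => sm_add_left p z w (hsp x)
      zero_smul := fun x => sm_zero_left p (hsp x) }

end pm

end Pool.Agent.H11.DP
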