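import Mathlib
import Pool.Agent.H11.Cplx

set_option autoImplicit false

open scoped Classical

namespace Pool.Agent.H11

open IsDedekindDomain NumberField WeierstrassCurve

open Pool.Agent.H10 (IsCocycle IsLocTriv IsCobound)

section basic

variable {K : Type} [Field K] (W : WeierstrassCurve K)

/-- The class of `f` is split by a Galois extension (finite or infinite) over which the rank and
the exponent of the torsion, at the primes dividing the order of the class, are at most `N`. -/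
def CplxLE (N : ℕ) (f : Gam K → Pts W) : Prop :=
  ∃ L : IntermediateField K (AlgebraicClosure K), IsGalois K L ∧ SplitBy W L f ∧
    Module.rank ℤ (W.baseChange L).toAffine.Point ≤ N ∧
    ∃ c : ℕ, (∃ Q : Pts W, ∀ σ, c • f σ = cob W Q σ) ∧ ∃ e : ℕ, e ≠ 0 ∧ e ≤ N ∧
      ∀ (P : (W.baseChange L).toAffine.Point) (k : ℕ), c ^ k • P = 0 → e • P = 0

theorem CplxLE.order [PerfectField K] {N : ℕ} {f : Gam K → Pts W} (hlc : IsLocallyConstant f)
    (hf : Coc W f) (h : CplxLE W N f) :
    ∃ Q : Pts W, ∀ σ, ((N + 1).factorial * (N + 1).factorial) • f σ = cob W Q σ := by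
  obtain ⟨L, hL, hs, hr, c, hc, e, he0, heN, he⟩ := h
  have hL' : Normal K L := hL.to_normal
  have hr' : Module.finrank ℤ (W.baseChange L).toAffine.Point ≤ N :=
    Module.finrank_le_of_rank_le hr
  obtain ⟨Q, hQ⟩ := order_dvd W L (hr.trans_lt Cardinal.natCast_lt_aleph0) e he0 c he hlc hf hs hc
  set l := (Finset.Icc 1 (Module.finrank ℤ (W.baseChange L).toAffine.Point -
      Module.finrank ℤ (W.baseChange K).toAffine.Point + 1)).lcm id with hl
  have h1 : e ∣ (N + 1).factorial := Nat.dvd_factorial (Nat.pos_of_ne_zero he0) (by omega)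
  have h2 : l ∣ (N + 1).factorial := by
    apply Finset.lcm_dvd
    intro i hi
    rw [Finset.mem_Icc] at hi
    show i ∣ _
    exact Nat.dvd_factorial hi.1 (by omega)
  obtain ⟨d, hd⟩ := mul_dvd_mul h1 h2
  refine ⟨d • Q, fun σ ↦ ?_⟩
  rw [hd, mul_comm, mul_smul, hQ, cob_nsmul]

end basic

variable {K : Type} [Field K] [NumberField K] (W : WeierstrassCurve K) [W.IsElliptic]

/-- **Northcott property of Ш.** -/
theorem northcott (N : ℕ) : ∃ S : Set (Gam K → Pts W), S.Finite ∧
    ∀ f : Gam K → Pts W, IsSha W f → CplxLE W N f → ∃ g ∈ S, ∃ Q : Pts W,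
      ∀ σ, f σ = g σ + cob W Q σ := by
  obtain ⟨S, hS, -, hS'⟩ := sha_torsion_finite W ((N + 1).factorial * (N + 1).factorial)
    (mul_ne_zero (Nat.factorial_ne_zero _) (Nat.factorial_ne_zero _))
  exact ⟨S, hS, fun f hf h ↦ hS' f hf (CplxLE.order W hf.lc hf.coc h)⟩

/-- a finite family of continuous cocycles dies in a finite Galois extension. -/
theorem exists_common_split {S : Set (Gam K → Pts W)} (hS : S.Finite) :
    ∃ L : IntermediateField K (AlgebraicClosure K), FiniteDimensional K L ∧ Normal K L ∧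
      ∀ g ∈ S, IsSha W g → ∀ σ : Gam K, (∀ x ∈ L, σ x = x) → g σ = 0 := by
  have h1 : ∀ g : Gam K → Pts W, ∃ L : IntermediateField K (AlgebraicClosure K),
      FiniteDimensional K L ∧ (IsSha W g → ∀ σ : Gam K, (∀ x ∈ L, σ x = x) → g σ = 0) := by
    intro g
    by_cases hg : IsSha W g
    · obtain ⟨M, hM, h⟩ := exists_open W hg.lc (Coc.one W hg.coc)
      exact ⟨M, hM, fun _ ↦ h⟩
    · exact ⟨⊥, inferInstance, fun h ↦ absurd h hg⟩
  choose F hF1 hF2 using h1
  have hfin := hS.to_subtype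
  let M : IntermediateField K (AlgebraicClosure K) := ⨆ g : S, F g
  have hM : FiniteDimensional K M := IntermediateField.finiteDimensional_iSup_of_finite
  refine ⟨IntermediateField.normalClosure K M (AlgebraicClosure K),
    normalClosure.is_finiteDimensional K M (AlgebraicClosure K),
    normalClosure.normal K M (AlgebraicClosure K), fun g hg hgs σ hσ ↦ ?_⟩
  apply hF2 g hgs
  intro x hx
  apply hσ
  have h2 : F g ≤ M := le_iSup (fun g : S ↦ F g) ⟨g, hg⟩
  exact (IntermediateField.le_normalClosure M) (h2 hx)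

/-- A finitely generated abelian group has finite rank and torsion of bounded exponent. -/
lemma fg_bounds (A : Type*) [AddCommGroup A] (h : AddGroup.FG A) :
    ∃ N : ℕ, Module.rank ℤ A ≤ N ∧ ∃ e : ℕ, e ≠ 0 ∧ e ≤ N ∧
      ∀ (P : A) (n : ℕ), n ≠ 0 → n • P = 0 → e • P = 0 := by
  have : Module.Finite ℤ A := Module.Finite.iff_addGroup_fg.mpr h
  have ht : Finite (AddCommGroup.torsion A) := by
    have h1 : AddGroup.FG (AddCommGroup.torsion A) := by
      rw [← Module.Finite.iff_addGroup_fg]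
      have : Module.Finite ℤ (AddSubgroup.toIntSubmodule (AddCommGroup.torsion A)) :=
        inferInstance
      exact this
    exact AddCommGroup.finite_of_fg_isAddTorsion _ (by
      intro x
      have hx := x.2
      rw [← AddSubmonoid.isOfFinAddOrder_coe]
      exact hx)
  refine ⟨Module.finrank ℤ A + Nat.card (AddCommGroup.torsion A), ?_,
    Nat.card (AddCommGroup.torsion A), Nat.card_pos.ne', by omega, ?_⟩
  · rw [← Module.finrank_eq_rank]
    exact_mod_cast Nat.le_add_right _ _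
  · intro P n hn hP
    have h1 : P ∈ AddCommGroup.torsion A := by
      show IsOfFinAddOrder P
      exact isOfFinAddOrder_iff_nsmul_eq_zero.mpr ⟨n, Nat.pos_of_ne_zero hn, hP⟩
    have h2 : Nat.card (AddCommGroup.torsion A) • (⟨P, h1⟩ : AddCommGroup.torsion A) = 0 :=
      card_nsmul_eq_zero'
    exact congrArg Subtype.val h2

theorem split_of_finite (X : Set (Gam K → Pts W)) (hX : ∀ f ∈ X, IsSha W f)
    (h : ∃ S : Set (Gam K → Pts W), S.Finite ∧
      ∀ f ∈ X, ∃ g ∈ S, ∃ Q : Pts W, ∀ σ, f σ = g σ + cob W Q σ) :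
    ∃ L : IntermediateField K (AlgebraicClosure K), FiniteDimensional K L ∧ IsGalois K L ∧
      ∀ f ∈ X, SplitBy W L f := by
  obtain ⟨S, hS, h⟩ := h
  obtain ⟨L, hL, hLn, hLs⟩ := exists_common_split W hS
  refine ⟨L, hL, { }, fun f hf ↦ ?_⟩
  obtain ⟨g, hg, Q, hQ⟩ := h f hf
  have hgs : IsSha W g := by
    have h1 := (hX f hf).sub W (cob_isSha W Q)
    have h2 : (fun σ ↦ f σ - cob W Q σ) = g := by
      funext σ
      rw [hQ σ]
      abel
    rwa [h2] at h1
  refine ⟨Q, fun σ hσ ↦ ?_⟩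
  rw [hQ σ, hLs g hg hgs σ hσ, zero_add]
  rfl

theorem cplx_of_split (X : Set (Gam K → Pts W)) (hX : ∀ f ∈ X, IsSha W f)
    (L : IntermediateField K (AlgebraicClosure K)) (hL : FiniteDimensional K L)
    (hLg : IsGalois K L) (h : ∀ f ∈ X, SplitBy W L f) :
    ∃ N : ℕ, ∀ f ∈ X, CplxLE W N f := by
  have hNF : NumberField L := NumberField.of_module_finite K L
  obtain ⟨N, hN1, e, he0, heN, he⟩ := fg_bounds (W.baseChange L).toAffine.Point
    (mordell_weil (W.baseChange L))
  refine ⟨N, fun f hf ↦ ?_⟩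
  obtain ⟨n, hn0, hn⟩ := exists_order W (hX f hf).lc (hX f hf).coc
  exact ⟨L, hLg, h f hf, hN1, n, hn, e, he0, heN, fun P k hP ↦ he P (n ^ k) (pow_ne_zero _ hn0) hP⟩

theorem finite_of_cplx (X : Set (Gam K → Pts W)) (hX : ∀ f ∈ X, IsSha W f) (N : ℕ)
    (hN : ∀ f ∈ X, CplxLE W N f) :
    ∃ S : Set (Gam K → Pts W), S.Finite ∧
      ∀ f ∈ X, ∃ g ∈ S, ∃ Q : Pts W, ∀ σ, f σ = g σ + cob W Q σ := by
  obtain ⟨S, hS, h⟩ := northcott W N
  exact ⟨S, hS, fun f hf ↦ h f (hX f hf) (hN f hf)⟩

end Pool.Agent.H11
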